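import Mathlib
import Pool.Agent.Work.MP_972ac7_al_tau.Interface

/-!
# Definitions for property tau of the quaternion lattices, all finite quotients (MP_972ac7_al)

Reduced words of length `R` in the letters `A` of a VH datum, and the action of the letters `B` on
them: `b w = w' b'`.
-/

open scoped Quaternion BigOperators

namespace TauQ

namespace VH

variable {A B : Type}

/-- push the letter `b` through a word: `b l = l' b'`, the result is `(l', b')` -/
def push (h : VH A B) : B → List A → List A × B
  | b, [] => ([], b)
  | b, a :: l =>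
    ((h.vh.symm (b, a)).1 :: (h.push (h.vh.symm (b, a)).2 l).1,
      (h.push (h.vh.symm (b, a)).2 l).2)

@[simp] lemma push_nil (h : VH A B) (b : B) : h.push b [] = ([], b) := rfl

@[simp] lemma push_cons (h : VH A B) (b : B) (a : A) (l : List A) : h.push b (a :: l) =
    ((h.vh.symm (b, a)).1 :: (h.push (h.vh.symm (b, a)).2 l).1,
      (h.push (h.vh.symm (b, a)).2 l).2) := rfl

lemma push_length (h : VH A B) (l : List A) : ∀ b : B, (h.push b l).1.length = l.length := by
  induction l with
  | nil => intro b; rfl
  | cons a l ih => intro b; simp [ih]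

/-- reduced words: no letter is followed by its inverse -/
def Red (h : VH A B) (l : List A) : Prop := l.IsChain (fun a a' => a' ≠ h.invA a)

lemma sigma_apply (h : VH A B) (b : B) (a : A) : h.sigma b a = (h.vh.symm (b, a)).1 := rfl

/-- if `b a = a' b'` then `b' (inv a) = (inv a') b` -/
lemma push_inv (h : VH A B) (b : B) (a : A) :
    h.vh.symm ((h.vh.symm (b, a)).2, h.invA a) = (h.invA (h.vh.symm (b, a)).1, b) := by
  have e : h.vh ((h.vh.symm (b, a)).1, (h.vh.symm (b, a)).2) = (b, a) := by
    rw [Prod.mk.eta, Equiv.apply_symm_apply]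
  have := h.h1 (h.vh.symm (b, a)).1 (h.vh.symm (b, a)).2
  rw [e] at this
  rw [Equiv.symm_apply_eq]
  exact this.symm

/-- if `b a = a' b'` then `(inv b) a' = a (inv b')` -/
lemma push_invB (h : VH A B) (b : B) (a : A) :
    h.vh.symm (h.invB b, (h.vh.symm (b, a)).1) = (a, h.invB (h.vh.symm (b, a)).2) := by
  have e : h.vh ((h.vh.symm (b, a)).1, (h.vh.symm (b, a)).2) = (b, a) := by
    rw [Prod.mk.eta, Equiv.apply_symm_apply]
  have := h.h2 (h.vh.symm (b, a)).1 (h.vh.symm (b, a)).2
  rw [e] at this
  rw [Equiv.symm_apply_eq]
  exact this.symm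

lemma push_red (h : VH A B) (l : List A) : ∀ b : B, h.Red l → h.Red (h.push b l).1 := by
  induction l with
  | nil => intro b _; exact List.IsChain.nil
  | cons a l ih =>
    intro b hl
    cases l with
    | nil => simp [Red]
    | cons a' l =>
      have hl' : a' ≠ h.invA a ∧ h.Red (a' :: l) := by
        simpa [Red, List.isChain_cons_cons] using hl
      have h2 := ih (h.vh.symm (b, a)).2 hl'.2
      simp only [push_cons] at h2 ⊢
      unfold Red at h2 ⊢
      rw [List.isChain_cons_cons]
      refine ⟨?_, h2⟩
      intro h3
      apply hl'.1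
      have h4 := congrArg Prod.fst (h.push_inv b a)
      have h5 : h.sigma (h.vh.symm (b, a)).2 a' =
          h.sigma (h.vh.symm (b, a)).2 (h.invA a) := by
        rw [sigma_apply, sigma_apply, h3, h4]
      exact (h.sigma (h.vh.symm (b, a)).2).injective h5

lemma push_left_inv (h : VH A B) (l : List A) : ∀ b : B,
    h.push (h.invB b) (h.push b l).1 = (l, h.invB (h.push b l).2) := by
  induction l with
  | nil => intro b; rfl
  | cons a l ih =>
    intro b
    simp only [push_cons]
    rw [h.push_invB b a]
    simp only [ih]

/-- the reduced words of length `R` -/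
def Word (h : VH A B) (R : ℕ) : Type := {l : List A // l.length = R ∧ h.Red l}

instance instFiniteWord (h : VH A B) [Finite A] (R : ℕ) : Finite (h.Word R) := by
  have h1 : Finite {l : List A // l.length = R} := (List.finite_length_eq A R).to_subtype
  refine Finite.of_injective (fun w : h.Word R => (⟨w.1, w.2.1⟩ : {l : List A // l.length = R})) ?_
  intro w w' hw
  exact Subtype.ext (congrArg (fun z : {l : List A // l.length = R} => z.1) hw)

noncomputable instance instFintypeWord (h : VH A B) [Finite A] (R : ℕ) : Fintype (h.Word R) :=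
  Fintype.ofFinite _

/-- the action of `b` on the reduced words of length `R`: `b w = w' b'` -/
def act (h : VH A B) (R : ℕ) (b : B) : Equiv.Perm (h.Word R) where
  toFun w := ⟨(h.push b w.1).1, by rw [push_length]; exact w.2.1, h.push_red w.1 b w.2.2⟩
  invFun w := ⟨(h.push (h.invB b) w.1).1, by rw [push_length]; exact w.2.1,
    h.push_red w.1 _ w.2.2⟩
  left_inv w := Subtype.ext (by
    show (h.push (h.invB b) (h.push b w.1).1).1 = w.1
    rw [push_left_inv])
  right_inv w := Subtype.ext (by
    show (h.push b (h.push (h.invB b) w.1).1).1 = w.1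
    have := h.push_left_inv w.1 (h.invB b)
    rw [h.invB_invB] at this
    rw [this])

lemma act_val (h : VH A B) (R : ℕ) (b : B) (w : h.Word R) :
    (h.act R b w).1 = (h.push b w.1).1 := rfl

end VH

/-- square of the Hilbert-Schmidt norm -/
noncomputable def hs {m n : Type} [Fintype m] [Fintype n] (X : Matrix m n ℂ) : ℝ :=
  ∑ i, ∑ j, ‖X i j‖ ^ 2

end TauQ
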