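import Mathlib
import Pool.Agent.Work.MP_972ac7_tq.Defs

/-!
# Block statements: property tau for the norm one quaternions over `Z[1/(pq)]`, ALL finite quotients

Block X is `X.lean` (imports Mathlib and this file), namespace TauQ, theorem `X_thm` with the
hypotheses `(h : SQ_Y)` of the blocks it uses. See BLUEPRINT.md.
-/

open scoped Quaternion BigOperators Matrix ComplexOrder

namespace TauQ

/-! ## Part 1: the multiplicity lemma -/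

/-- MX: square roots of positive matrices. (1) existence; (2) Araki-Yamagami;
(3) a trace bound from the rank. -/
def SQ_MX : Prop :=
  (∀ (L : ℕ) (M : Matrix (Fin L) (Fin L) ℂ), M.PosSemidef →
    ∃ P : Matrix (Fin L) (Fin L) ℂ, P.PosSemidef ∧ P * P = M) ∧
  (∀ (L : ℕ) (k : Type) [Fintype k] (A B : Matrix (Fin L) k ℂ)
    (P P' : Matrix (Fin L) (Fin L) ℂ), P.PosSemidef → P'.PosSemidef → P * P = A * Aᴴ →
    P' * P' = B * Bᴴ → hs (P - P') ≤ 2 * hs (A - B)) ∧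
  (∀ (L : ℕ) (k : Type) [Fintype k] (A : Matrix (Fin L) k ℂ)
    (P C : Matrix (Fin L) (Fin L) ℂ) (c : ℝ), P.PosSemidef → P * P = A * Aᴴ → 0 ≤ c →
    (∀ u : Fin L → ℂ, ∑ i, ‖(C.mulVec u) i‖ ^ 2 ≤ c * ∑ i, ‖u i‖ ^ 2) →
    ((P * C).trace.re) ^ 2 ≤ c * Fintype.card k * hs A)

/-- LA: the multiplicity lemma. `X` carries maps `u i` with gap `g` on the functions of zero sum on
each class of `o`; `X × Y → X` is a finite cover; `F` are orthogonal functions on `X × Y` of the same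
norm and small variation. Then there are at most about `|Y| O` of them. -/
def SQ_LA : Prop :=
  ∀ (X Y ι : Type) [Fintype X] [Fintype Y] [Fintype ι] (u : ι → Equiv.Perm X)
    (τ : ι → Equiv.Perm (X × Y)) (O : ℕ) (o : X → Fin O) (g κ ε : ℝ) (L : ℕ)
    (F : Fin L → X × Y → ℂ),
    (∀ i z, (τ i z).1 = u i z.1) → (∀ i x, o (u i x) = o x) → 0 < g → 0 < κ → 0 ≤ ε →
    2 * ε ≤ g →
    (∀ φ : X → ℂ, (∀ j, ∑ x, (if o x = j then φ x else 0) = 0) →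
      2 * g * ∑ x, ‖φ x‖ ^ 2 ≤ ∑ i, ∑ x, ‖φ (u i x) - φ x‖ ^ 2) →
    (∀ i j, ∑ z, F i z * (starRingEnd ℂ) (F j z) = if i = j then (κ : ℂ) else 0) →
    (∀ i, ∑ b, ∑ z, ‖F i (τ b z) - F i z‖ ^ 2 ≤ 2 * ε * κ) →
    (L : ℝ) * (1 - 2 * ε / g) ^ 2 ≤ Fintype.card Y * O

/-! ## Part 2: words -/

/-- WD: `R` orthogonal functions on (reduced words of length `R + 1`) × `Q` with the same
`B`-eigenvalue as `v`. -/
def SQ_WD : Prop :=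
  ∀ (A B : Type) [Fintype A] [Fintype B] (h : VH A B), 3 ≤ Fintype.card A →
    ∀ (R : ℕ) (Q : Type) [Group Q] [Fintype Q] (r : Rep h Q) (v : Q → ℂ) (lam : ℂ),
    (∀ x, ∑ b, v (r.be b * x) = lam * v x) → (∃ a a' z, v (r.al a * z) ≠ v (r.al a' * z)) →
    ∃ N : Fin R → h.Word (R + 1) × Q → ℂ,
      (∀ i j, i ≠ j → ∑ z, N i z * (starRingEnd ℂ) (N j z) = 0) ∧ (∀ i, N i ≠ 0) ∧
      (∀ i w y, ∑ b, N i (h.act (R + 1) b w, r.be b * y) = lam * N i (w, y))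

/-- TR: `SL2(Z/p^R)` acts transitively on singular primitive matrices modulo right multiplication,
in quaternion form: if `N(α) = N(β) = 0` in `Z/p^R` and `α, β` are nonzero modulo `p`, then
`x α = β γ` for some `x` of norm one and some `γ`. -/
def SQ_TR : Prop :=
  ∀ (p R : ℕ), p.Prime → p ≠ 2 → 0 < R → ∀ α β : ℍ[ZMod (p ^ R)],
    Quaternion.normSq α = 0 → Quaternion.normSq β = 0 →
    (∀ δ, α ≠ (p : ℍ[ZMod (p ^ R)]) * δ) → (∀ δ, β ≠ (p : ℍ[ZMod (p ^ R)]) * δ) →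
    ∃ (x : unitary ℍ[ZMod (p ^ R)]) (γ : ℍ[ZMod (p ^ R)]), (x : ℍ[ZMod (p ^ R)]) * α = β * γ

/-- AC: the reduced words of length `R` in `SS p` are a homogeneous space of the norm one group
modulo `p^R`, and the even words in `SS q` act through it. -/
def SQ_AC : Prop :=
  ∀ p q : ℕ, p.Prime → q.Prime → p % 4 = 1 → q % 4 = 1 → p ≠ q →
    ∀ h : VH (SS p) (SS q), IsQVH h → ∀ (R : ℕ) [NeZero (p ^ R)] (hM : Nat.Coprime q (p ^ R)),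
    0 < R → ∃ (θ : unitary ℍ[ZMod (p ^ R)] → h.Word R) (c : ℕ), 0 < c ∧
      (∀ (b' b : SS q) (x : unitary ℍ[ZMod (p ^ R)]),
        θ (uM (p ^ R) hM b' b * x) = h.act R b' (h.act R b (θ x))) ∧
      (∀ w, Nat.card {x // θ x = w} = c)

/-! ## Part 3: the gap at all levels `p^R` -/

/-- WK: sharp walk count -/
def SQ_WK : Prop :=
  ∀ q : ℕ, q.Prime → q % 4 = 1 → ∀ (L s : ℕ) (γ : ℍ[ℤ]), (∀ δ : ℍ[ℤ], γ ≠ (q : ℍ[ℤ]) * δ) →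
    Nat.card {w : Fin L → SS q //
      (List.ofFn fun i => (w i).val).prod = ((q ^ s : ℕ) : ℍ[ℤ]) * γ} ≤ L.choose s * q ^ s

/-- WC: words of length `2k` with product a scalar modulo `M` -/
def SQ_WC : Prop :=
  ∀ η : ℝ, 0 < η → ∃ C : ℝ, 0 < C ∧ ∀ (q M k : ℕ), q.Prime → q % 4 = 1 → 0 < M →
    Nat.Coprime M (2 * q) →
    (WW q M (2 * k) : ℝ) ≤ (4 * q) ^ k * (2 + C * ((q : ℝ) ^ k) ^ η / M) +
      C * ((q : ℝ) ^ k) ^ η / (M : ℝ) ^ 3 * ((q : ℝ) + 1) ^ (2 * k)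

/-- NU: no eigenvalue near the top can satisfy the trace bound at a large level -/
def SQ_NU : Prop :=
  ∀ q : ℕ, q.Prime → q % 4 = 1 → ∃ (g : ℝ) (L₀ : ℕ), 0 < g ∧
    ∀ (p i : ℕ), p.Prime → p ≠ 2 → p ≠ q → L₀ ≤ p ^ i → ∀ μ : ℝ, ((q : ℝ) + 1) ^ 2 - g ≤ μ →
    ¬ ∀ j : ℕ, ((p ^ i).totient : ℝ) * μ ^ (2 * j) ≤
      2 * (((p ^ i : ℕ) : ℝ) ^ 3 * (WW q (p ^ i) (4 * j) : ℝ))

/-- SP: an eigenfunction that is not invariant under the congruence subgroup of level `p^r`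
satisfies the trace bound at some level `p^i`, `i > r`. -/
def SQ_SP : Prop :=
  ∀ (q : ℕ), q.Prime → q % 4 = 1 → ∀ (p R r : ℕ), p.Prime → p ≠ 2 → r ≤ R →
    ∀ [NeZero (p ^ R)] (hM : Nat.Coprime q (p ^ R)) (μ : ℝ)
    (f : unitary ℍ[ZMod (p ^ R)] → ℂ),
    (∀ x, ∑ b' : SS q, ∑ b : SS q, f (uM (p ^ R) hM b' b * x) = (μ : ℂ) * f x) →
    (∃ x g : unitary ℍ[ZMod (p ^ R)], g ∈ congH (p ^ r) ∧ f (x * g) ≠ f x) →
    ∃ i : ℕ, r < i ∧ i ≤ R ∧ ∀ j : ℕ, ((p ^ i).totient : ℝ) * μ ^ (2 * j) ≤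
      2 * (((p ^ i : ℕ) : ℝ) ^ 3 * (WW q (p ^ i) (4 * j) : ℝ))

/-- TG: uniform gap of the `q`-walk at all levels `p^R`, with boundedly many orbits. -/
def SQ_TG : Prop :=
  ∀ p q : ℕ, p.Prime → q.Prime → p % 4 = 1 → q % 4 = 1 → p ≠ q →
    ∃ (g : ℝ) (O : ℕ), 0 < g ∧ ∀ (R : ℕ) [NeZero (p ^ R)] (hM : Nat.Coprime q (p ^ R)),
    ∃ o : unitary ℍ[ZMod (p ^ R)] → Fin O,
      (∀ (b' b : SS q) (x : unitary ℍ[ZMod (p ^ R)]), o (uM (p ^ R) hM b' b * x) = o x) ∧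
      ∀ φ : unitary ℍ[ZMod (p ^ R)] → ℂ, (∀ j, ∑ x, (if o x = j then φ x else 0) = 0) →
        2 * g * ∑ x, ‖φ x‖ ^ 2 ≤
          ∑ b' : SS q, ∑ b : SS q, ∑ x, ‖φ (uM (p ^ R) hM b' b * x) - φ x‖ ^ 2

/-! ## Part 4: finite quotients -/

/-- SI: a `B`-eigenfunction with eigenvalue near the top takes the same values on all
`A`-neighbours. -/
def SQ_SI : Prop :=
  ∀ p q : ℕ, p.Prime → q.Prime → p % 4 = 1 → q % 4 = 1 → p ≠ q → ∃ δ : ℝ, 0 < δ ∧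
    ∀ h : VH (SS p) (SS q), IsQVH h → ∀ (Q : Type) [Group Q] [Fintype Q] (r : Rep h Q)
      (v : Q → ℂ) (lam : ℝ), (Fintype.card (SS q) : ℝ) - δ ≤ lam →
      (∀ x, ∑ b, v (r.be b * x) = (lam : ℂ) * v x) →
      ∀ a a' z, v (r.al a * z) = v (r.al a' * z)

/-- QG: the gap of the `B`-walk on all finite quotients. -/
def SQ_QG : Prop :=
  ∀ p q : ℕ, p.Prime → q.Prime → p % 4 = 1 → q % 4 = 1 → p ≠ q → ∃ δ : ℝ, 0 < δ ∧
    ∀ h : VH (SS p) (SS q), IsQVH h → ∀ (Q : Type) [Group Q] [Fintype Q] (r : Rep h Q)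
      (f : Q → ℂ), (∀ κ : ℤˣ, ∑ x, (if r.chiA x = κ then f x else 0) = 0) →
      2 * δ * ∑ x, ‖f x‖ ^ 2 ≤ ∑ b, ∑ x, ‖f (r.be b * x) - f x‖ ^ 2

/-- LK: the finite group attached to a normal subgroup of finite index of `GG p q` -/
def SQ_LK : Prop :=
  ∀ p q : ℕ, p.Prime → q.Prime → p % 4 = 1 → q % 4 = 1 → p ≠ q →
    ∀ h : VH (SS p) (SS q), IsQVH h → ∀ (N : Subgroup (GG p q)), N.Normal → N.FiniteIndex →
    ∃ (Q : Type) (_ : Group Q) (_ : Fintype Q) (r : Rep h Q) (rQ : G1 p q →* Q),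
      rQ.range = r.chiA.ker ⊓ r.chiB.ker ∧
      (∀ a' a : SS p, ∃ γ : G1 p q,
        (p : ℍ[RR p q]) * ((γ : GG p q) : ℍ[RR p q]) = castR p q (a'.val * a.val) ∧
        rQ γ = r.al a' * r.al a) ∧
      (∀ γ : G1 p q, rQ γ = 1 → (γ : GG p q) ∈ N)

/-- FN: from the finite groups back to `GG p q` -/
def SQ_FN : Prop :=
  ∀ p q : ℕ, p.Prime → q.Prime → p % 4 = 1 → q % 4 = 1 → p ≠ q →
    ∃ QQ : Finset (GG p q), ∀ g : ℝ, 0 < g → ∃ c : ℝ, 0 < c ∧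
    ∀ h : VH (SS p) (SS q), IsQVH h → ∀ (N : Subgroup (GG p q)) [N.Normal],
    ∀ (Q : Type) [Group Q] [Fintype Q] (r : Rep h Q) (rQ : G1 p q →* Q),
      rQ.range = r.chiA.ker ⊓ r.chiB.ker →
      (∀ a' a : SS p, ∃ γ : G1 p q,
        (p : ℍ[RR p q]) * ((γ : GG p q) : ℍ[RR p q]) = castR p q (a'.val * a.val) ∧
        rQ γ = r.al a' * r.al a) →
      (∀ γ : G1 p q, rQ γ = 1 → (γ : GG p q) ∈ N) →
      (∀ f : Q → ℂ, (∀ κ : ℤˣ, ∑ x, (if r.chiB x = κ then f x else 0) = 0) →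
        2 * g * ∑ x, ‖f x‖ ^ 2 ≤ ∑ a, ∑ x, ‖f (r.al a * x) - f x‖ ^ 2) →
      ∀ [Fintype (GG p q ⧸ N)] (v : GG p q ⧸ N → ℂ), ∑ x, v x = 0 →
      c * ∑ x, ‖v x‖ ^ 2 ≤ ∑ s ∈ QQ, ∑ x, ‖v ((s : GG p q ⧸ N) * x) - v x‖ ^ 2

/-- TA: property tau of `GG p q`. -/
def SQ_TA : Prop :=
  ∀ p q : ℕ, p.Prime → q.Prime → p % 4 = 1 → q % 4 = 1 → p ≠ q →
    ∃ (QQ : Finset (GG p q)) (ε : ℝ), 0 < ε ∧ ∀ (N : Subgroup (GG p q)) [N.Normal]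
      [N.FiniteIndex] [Fintype (GG p q ⧸ N)] (v : GG p q ⧸ N → ℂ), ∑ x, v x = 0 →
      ∑ x, ‖v x‖ ^ 2 = 1 → ∃ s ∈ QQ, ε ≤ ∑ x, ‖v ((s⁻¹ : GG p q) * x) - v x‖ ^ 2

end TauQ
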