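import Mathlib
import Pool.Agent.Work.MP_972ac7_tq.Interface

/-!
# Extension to `Z[1/n]`, `n` with at least two prime factors, all `≡ 1 (mod 4)`
-/

open scoped Quaternion BigOperators Matrix

namespace TauQ

/-- FP: as FN, and the elements of `QQ` have denominators powers of `p` -/
def SQ_FP : Prop :=
  ∀ p q : ℕ, p.Prime → q.Prime → p % 4 = 1 → q % 4 = 1 → p ≠ q →
    ∃ QQ : Finset (GG p q), (∀ s ∈ QQ, ∃ (i : ℕ) (α : ℍ[ℤ]),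
      ((p ^ i : ℕ) : ℍ[RR p q]) * (s : ℍ[RR p q]) = castR p q α) ∧
    ∀ g : ℝ, 0 < g → ∃ c : ℝ, 0 < c ∧
    ∀ h : VH (SS p) (SS q), IsQVH h → ∀ (N : Subgroup (GG p q)) [N.Normal],
    ∀ (Q : Type) [Group Q] [Fintype Q] (r : Rep h Q) (rQ : G1 p q →* Q),
      rQ.range = r.chiA.ker ⊓ r.chiB.ker →
      (∀ a' a : SS p, ∃ γ : G1 p q,
        (p : ℍ[RR p q]) * ((γ : GG p q) : ℍ[RR p q]) = castR p q (a'.val * a.val) ∧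
        rQ γ = r.al a' * r.al a) →
      (∀ γ : G1 p q, rQ γ = 1 → (γ : GG p q) ∈ N) →
      (∀ f : Q → ℂ, (∀ κ : ℤˣ, ∑ x, (if r.chiB x = κ then f x else 0) = 0) →
        2 * g * ∑ x, ‖f x‖ ^ 2 ≤ ∑ a, ∑ x, ‖f (r.al a * x) - f x‖ ^ 2) →
      ∀ [Fintype (GG p q ⧸ N)] (v : GG p q ⧸ N → ℂ), ∑ x, v x = 0 →
      c * ∑ x, ‖v x‖ ^ 2 ≤ ∑ s ∈ QQ, ∑ x, ‖v ((s : GG p q ⧸ N) * x) - v x‖ ^ 2

/-- TP: gap of a finite set of elements with denominators powers of `p` on all finite quotients -/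
def SQ_TP : Prop :=
  ∀ p q : ℕ, p.Prime → q.Prime → p % 4 = 1 → q % 4 = 1 → p ≠ q →
    ∃ (QQ : Finset (GG p q)) (c : ℝ), 0 < c ∧ (∀ s ∈ QQ, ∃ (i : ℕ) (α : ℍ[ℤ]),
      ((p ^ i : ℕ) : ℍ[RR p q]) * (s : ℍ[RR p q]) = castR p q α) ∧
    ∀ (N : Subgroup (GG p q)) [N.Normal] [N.FiniteIndex] [Fintype (GG p q ⧸ N)]
      (v : GG p q ⧸ N → ℂ), ∑ x, v x = 0 →
      c * ∑ x, ‖v x‖ ^ 2 ≤ ∑ s ∈ QQ, ∑ x, ‖v ((s : GG p q ⧸ N) * x) - v x‖ ^ 2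

/-- GN: the gap for the norm one quaternions over `R`, a localization of the integers at `n`. -/
def SQ_GN : Prop :=
  ∀ n : ℕ, (∀ l : ℕ, l.Prime → l ∣ n → l % 4 = 1) →
    (∃ p q : ℕ, p.Prime ∧ q.Prime ∧ p ≠ q ∧ p ∣ n ∧ q ∣ n) →
    ∀ (R : Type) [CommRing R] [IsLocalization.Away (n : ℤ) R],
    ∃ (K : Finset (unitary ℍ[R])) (c : ℝ), 0 < c ∧ ∀ (N : Subgroup (unitary ℍ[R])) [N.Normal]
      [N.FiniteIndex] [Fintype (unitary ℍ[R] ⧸ N)] (v : unitary ℍ[R] ⧸ N → ℂ), ∑ x, v x = 0 →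
      c * ∑ x, ‖v x‖ ^ 2 ≤ ∑ s ∈ K, ∑ x, ‖v ((s : unitary ℍ[R] ⧸ N) * x) - v x‖ ^ 2

end TauQ
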