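import Mathlib
import Pool.Agent.Work.MP_972ac7_tq.Interface

/-! # Block AC: the reduced words as a homogeneous space (helper38) -/

open scoped Quaternion BigOperators Matrix ComplexOrder

namespace TauQ

section ACs

lemma AC_natMul (k : ℕ) (δ : ℍ[ℤ]) : ((k : ℍ[ℤ]) * δ).re = k * δ.re ∧
    ((k : ℍ[ℤ]) * δ).imI = k * δ.imI ∧ ((k : ℍ[ℤ]) * δ).imJ = k * δ.imJ ∧
    ((k : ℍ[ℤ]) * δ).imK = k * δ.imK := by
  refine ⟨?_, ?_, ?_, ?_⟩ <;> simp

lemma AC_red_zero (M : ℕ) (α : ℍ[ℤ]) (h : redM M α = 0) :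
    ∃ δ : ℍ[ℤ], α = (M : ℍ[ℤ]) * δ := by
  have h1 := congrArg (fun z : ℍ[ZMod M] => z.re) h
  have h2 := congrArg (fun z : ℍ[ZMod M] => z.imI) h
  have h3 := congrArg (fun z : ℍ[ZMod M] => z.imJ) h
  have h4 := congrArg (fun z : ℍ[ZMod M] => z.imK) h
  simp only [redM, qmap_re, qmap_imI, qmap_imJ, qmap_imK, Quaternion.re_zero,
    Quaternion.imI_zero, Quaternion.imJ_zero, Quaternion.imK_zero, eq_intCast,
    ZMod.intCast_zmod_eq_zero_iff_dvd] at h1 h2 h3 h4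
  obtain ⟨a, ha⟩ := h1
  obtain ⟨b, hb⟩ := h2
  obtain ⟨c, hc⟩ := h3
  obtain ⟨d, hd⟩ := h4
  refine ⟨mk4 a b c d, ?_⟩
  obtain ⟨e1, e2, e3, e4⟩ := AC_natMul M (mk4 a b c d)
  apply Quaternion.ext
  · rw [e1, ha]; rfl
  · rw [e2, hb]; rfl
  · rw [e3, hc]; rfl
  · rw [e4, hd]; rfl

lemma AC_norm (M : ℕ) (α : ℍ[ℤ]) :
    Quaternion.normSq (redM M α) = ((Quaternion.normSq α : ℤ) : ZMod M) := by
  rw [redM, normSq_qmap]
  rfl

lemma AC_surj (M : ℕ) [NeZero M] (x : ℍ[ZMod M]) : ∃ α : ℍ[ℤ], redM M α = x := by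
  refine ⟨mk4 (x.re.val : ℤ) (x.imI.val : ℤ) (x.imJ.val : ℤ) (x.imK.val : ℤ), ?_⟩
  ext <;> simp [redM]

lemma AC_star_mul {q : ℕ} (b : SS q) : star b.val * b.val = (q : ℍ[ℤ]) := by
  rw [Quaternion.star_mul_self, b.norm]
  rfl

lemma AC_mul_star {q : ℕ} (b : SS q) : b.val * star b.val = (q : ℍ[ℤ]) := by
  rw [Quaternion.self_mul_star, b.norm]
  rfl

lemma AC_cast_ne {q : ℕ} (hq : q ≠ 0) : (q : ℍ[ℤ]) ≠ 0 := by
  intro h'
  have := congrArg (fun y : ℍ[ℤ] => y.re) h'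
  simp only [Quaternion.re_natCast, Quaternion.re_zero] at this
  exact hq (by exact_mod_cast this)

lemma AC_cancel {q : ℕ} (hq : q ≠ 0) {x y : ℍ[ℤ]} (h : (q : ℍ[ℤ]) * x = (q : ℍ[ℤ]) * y) :
    x = y := mul_left_cancel₀ (AC_cast_ne hq) h

/-- the product of a word -/
noncomputable def AC_val {p : ℕ} (l : List (SS p)) : ℍ[ℤ] := (l.map SS.val).prod

lemma AC_val_nil {p : ℕ} : AC_val ([] : List (SS p)) = 1 := rfl

lemma AC_val_cons {p : ℕ} (a : SS p) (l : List (SS p)) :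
    AC_val (a :: l) = a.val * AC_val l := by
  unfold AC_val
  rw [List.map_cons, List.prod_cons]

lemma AC_val_norm {p : ℕ} (l : List (SS p)) :
    Quaternion.normSq (AC_val l) = (p : ℤ) ^ l.length := by
  induction l with
  | nil => rw [AC_val_nil, map_one]; simp
  | cons a l ih => rw [AC_val_cons, map_mul, a.norm, ih, List.length_cons, pow_succ']

/-- integral quaternions which are not divisible by `p` -/
def AC_Prim (p : ℕ) (α : ℍ[ℤ]) : Prop := ∀ δ : ℍ[ℤ], α ≠ (p : ℍ[ℤ]) * δ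

lemma AC_prim_right {p : ℕ} {α β : ℍ[ℤ]} (h : AC_Prim p (α * β)) : AC_Prim p β := by
  intro δ hδ
  apply h (α * δ)
  rw [hδ, ← mul_assoc, ← mul_assoc, (Nat.cast_commute p α).eq]

lemma AC_ne_zero {p : ℕ} (hp : p.Prime) (a : SS p) : a.val ≠ 0 := by
  intro h0
  have := a.norm
  rw [h0, map_zero] at this
  have hp0 : (p : ℤ) ≠ 0 := by exact_mod_cast hp.ne_zero
  exact hp0 this.symm

lemma AC_not_real {p : ℕ} (hp : p.Prime) (a : SS p) : a.val ≠ star a.val := by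
  intro h
  have h1 : a.val.imI = 0 := by
    have := congrArg (fun z : ℍ[ℤ] => z.imI) h
    simp only [Quaternion.imI_star] at this
    omega
  have h2 : a.val.imJ = 0 := by
    have := congrArg (fun z : ℍ[ℤ] => z.imJ) h
    simp only [Quaternion.imJ_star] at this
    omega
  have h3 : a.val.imK = 0 := by
    have := congrArg (fun z : ℍ[ℤ] => z.imK) h
    simp only [Quaternion.imK_star] at this
    omega
  have h4 := a.norm
  rw [Quaternion.normSq_def', h1, h2, h3] at h4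
  have h5 : (a.val.re.natAbs) ^ 2 = p := by
    zify
    rw [sq_abs]
    linarith
  have h6 : Irreducible p := hp.prime.irreducible
  exact (Irreducible.not_isSquare h6) ⟨a.val.re.natAbs, by rw [← sq]; exact h5.symm⟩

lemma AC_red_prim {p q : ℕ} (hp : p.Prime) (hp4 : p % 4 = 1) (hU : Stmt_unique)
    (h : VH (SS p) (SS q)) (hh : IsQVH h) (l : List (SS p)) (hl : h.Red l) :
    AC_Prim p (AC_val l) := by
  have hpz : (p : ℤ) ≠ 0 := by exact_mod_cast hp.ne_zero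
  induction l with
  | nil =>
    intro δ hδ
    have h1 := congrArg Quaternion.normSq hδ
    rw [AC_val_nil, map_one, map_mul, Quaternion.normSq_natCast] at h1
    have h2 : (p : ℤ) ∣ 1 := ⟨(p : ℤ) * Quaternion.normSq δ, by rw [h1]; ring⟩
    have h3 : p ∣ 1 := by exact_mod_cast h2
    exact hp.one_lt.ne' (Nat.dvd_one.1 h3)
  | cons a l ih =>
    intro δ hδ
    cases l with
    | nil =>
      rw [AC_val_cons, AC_val_nil, mul_one] at hδ
      have h1 := a.norm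
      rw [hδ, map_mul, Quaternion.normSq_natCast] at h1
      have h2 : (p : ℤ) * Quaternion.normSq δ = 1 := by
        have h3 : (p : ℤ) * ((p : ℤ) * Quaternion.normSq δ) = p * 1 := by
          rw [mul_one]
          linarith
        exact mul_left_cancel₀ hpz h3
      have h4 : (p : ℤ) ∣ 1 := ⟨_, h2.symm⟩
      have h5 : p ∣ 1 := by exact_mod_cast h4
      exact hp.one_lt.ne' (Nat.dvd_one.1 h5)
    | cons a' l =>
      have hl' : a' ≠ h.invA a ∧ h.Red (a' :: l) := by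
        simpa [VH.Red, List.isChain_cons_cons] using hl
      have hprim := ih hl'.2
      have e1 : a'.val * AC_val l = star a.val * δ := by
        rw [← AC_val_cons]
        apply AC_cancel hp.ne_zero
        calc (p : ℍ[ℤ]) * AC_val (a' :: l) = star a.val * a.val * AC_val (a' :: l) := by
              rw [AC_star_mul]
          _ = star a.val * ((p : ℍ[ℤ]) * δ) := by rw [mul_assoc, ← AC_val_cons, hδ]
          _ = (p : ℍ[ℤ]) * (star a.val * δ) := by
              rw [← mul_assoc, ← mul_assoc, (Nat.cast_commute p (star a.val)).eq]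
      have e2 : a'.val * AC_val l = (h.invA a).val * δ := by
        rw [hh.1 a]
        exact e1
      have hprim' : ∀ δ' : ℍ[ℤ], a'.val * AC_val l ≠ (p : ℍ[ℤ]) * δ' := by
        rw [← AC_val_cons]
        exact hprim
      exact hl'.1 ((hU p hp hp4).2 a' (h.invA a) (AC_val l) δ hprim' e2)

/-- peeling -/
lemma AC_peel {p q : ℕ} (hp : p.Prime) (hp4 : p % 4 = 1) (hE : Stmt_exists)
    (h : VH (SS p) (SS q)) (hh : IsQVH h) (R : ℕ) : ∀ α : ℍ[ℤ], AC_Prim p α →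
    (p : ℤ) ^ R ∣ Quaternion.normSq α →
    ∃ (l : List (SS p)) (γ : ℍ[ℤ]), l.length = R ∧ h.Red l ∧ α = AC_val l * γ := by
  have hpz : (p : ℤ) ≠ 0 := by exact_mod_cast hp.ne_zero
  induction R with
  | zero =>
    intro α _ _
    exact ⟨[], α, rfl, List.IsChain.nil, by rw [AC_val_nil, one_mul]⟩
  | succ R ih =>
    intro α hα hN
    have hN1 : (p : ℤ) ∣ Quaternion.normSq α := dvd_trans (dvd_pow_self _ (by omega)) hN
    obtain ⟨a, γ, hγ⟩ := hE p hp hp4 α hα hN1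
    have hγp : AC_Prim p γ := by
      apply AC_prim_right (α := a.val)
      rw [← hγ]
      exact hα
    have hγN : (p : ℤ) ^ R ∣ Quaternion.normSq γ := by
      rw [hγ, map_mul, a.norm, pow_succ'] at hN
      exact (mul_dvd_mul_iff_left hpz).mp hN
    obtain ⟨l, δ, h1, h2, h3⟩ := ih γ hγp hγN
    refine ⟨a :: l, δ, by rw [List.length_cons, h1], ?_, ?_⟩
    · cases l with
      | nil => simp [VH.Red]
      | cons a' l =>
        unfold VH.Red at h2 ⊢
        rw [List.isChain_cons_cons]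
        refine ⟨?_, h2⟩
        intro h4
        apply hα (AC_val l * δ)
        rw [hγ, h3, AC_val_cons, h4, hh.1 a, ← AC_mul_star a]
        simp only [mul_assoc]
    · rw [AC_val_cons, mul_assoc, ← h3, hγ]

/-- uniqueness -/
lemma AC_uni {p : ℕ} (hp : p.Prime) (hp4 : p % 4 = 1) (hU : Stmt_unique) (l : List (SS p)) :
    ∀ (l' : List (SS p)) (G G' : ℍ[ℤ]), l.length = l'.length → AC_Prim p (AC_val l * G) →
    AC_val l * G = AC_val l' * G' → l = l' := by
  induction l with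
  | nil =>
    intro l' G G' hlen _ _
    exact (List.length_eq_zero_iff.mp hlen.symm).symm
  | cons a l ih =>
    intro l' G G' hlen hprim heq
    cases l' with
    | nil => simp at hlen
    | cons a' l' =>
      rw [AC_val_cons, mul_assoc] at hprim
      rw [AC_val_cons, AC_val_cons, mul_assoc, mul_assoc] at heq
      have e1 : a = a' := (hU p hp hp4).2 a a' _ _ hprim heq
      subst e1
      have e2 : AC_val l * G = AC_val l' * G' := mul_left_cancel₀ (AC_ne_zero hp a) heq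
      have e3 := ih l' G G' (by simpa using hlen) (AC_prim_right hprim) e2
      rw [e3]

lemma AC_val_star {p : ℕ} (l : List (SS p)) :
    AC_val l * star (AC_val l) = ((p ^ l.length : ℕ) : ℍ[ℤ]) := by
  rw [Quaternion.self_mul_star, AC_val_norm]
  rw [← Nat.cast_pow]
  rfl

/-- `p` times something modulo `p ^ R` -/
lemma AC_prim_iff {p R : ℕ} [NeZero (p ^ R)] (hR : 0 < R) (α : ℍ[ℤ]) :
    AC_Prim p α ↔ ∀ δ : ℍ[ZMod (p ^ R)], redM (p ^ R) α ≠ (p : ℍ[ZMod (p ^ R)]) * δ := by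
  constructor
  · intro hα δ hδ
    obtain ⟨d, rfl⟩ := AC_surj (p ^ R) δ
    have h1 : redM (p ^ R) (α - (p : ℍ[ℤ]) * d) = 0 := by
      rw [map_sub, map_mul, map_natCast, hδ, sub_self]
    obtain ⟨e, he⟩ := AC_red_zero _ _ h1
    obtain ⟨R', rfl⟩ : ∃ R', R = R' + 1 := ⟨R - 1, by omega⟩
    apply hα (d + ((p ^ R' : ℕ) : ℍ[ℤ]) * e)
    have h2 : α = (p : ℍ[ℤ]) * d + ((p ^ (R' + 1) : ℕ) : ℍ[ℤ]) * e := by
      rw [← he]
      abel
    rw [h2, pow_succ', Nat.cast_mul, mul_add, mul_assoc]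
  · intro hα δ hδ
    apply hα (redM (p ^ R) δ)
    rw [hδ, map_mul, map_natCast]

/-- the relation -/
def AC_rel {p : ℕ} (R : ℕ) (l₀ : List (SS p)) (x : unitary ℍ[ZMod (p ^ R)])
    (l : List (SS p)) : Prop :=
  ∃ γ : ℍ[ZMod (p ^ R)], (x : ℍ[ZMod (p ^ R)]) * redM (p ^ R) (AC_val l₀) =
    redM (p ^ R) (AC_val l) * γ

lemma AC_prim_x {p R : ℕ} (x : unitary ℍ[ZMod (p ^ R)]) (y : ℍ[ZMod (p ^ R)])
    (hy : ∀ δ : ℍ[ZMod (p ^ R)], y ≠ (p : ℍ[ZMod (p ^ R)]) * δ) :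
    ∀ δ : ℍ[ZMod (p ^ R)], (x : ℍ[ZMod (p ^ R)]) * y ≠ (p : ℍ[ZMod (p ^ R)]) * δ := by
  intro δ hδ
  apply hy (star (x : ℍ[ZMod (p ^ R)]) * δ)
  rw [← mul_assoc, (Nat.cast_commute p (star (x : ℍ[ZMod (p ^ R)]))).eq, mul_assoc, ← hδ,
    ← mul_assoc, Unitary.coe_star_mul_self, one_mul]

lemma AC_rel_ex {p q R : ℕ} [NeZero (p ^ R)] (hR : 0 < R) (hp : p.Prime) (hp4 : p % 4 = 1)
    (hE : Stmt_exists) (hU : Stmt_unique) (h : VH (SS p) (SS q)) (hh : IsQVH h)
    (w₀ : h.Word R) (x : unitary ℍ[ZMod (p ^ R)]) :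
    ∃ w : h.Word R, AC_rel R w₀.1 x w.1 := by
  obtain ⟨α, hα⟩ := AC_surj (p ^ R) ((x : ℍ[ZMod (p ^ R)]) * redM (p ^ R) (AC_val w₀.1))
  have h0 : AC_Prim p (AC_val w₀.1) := AC_red_prim hp hp4 hU h hh _ w₀.2.2
  have h1 : AC_Prim p α := by
    rw [AC_prim_iff hR, hα]
    exact AC_prim_x x _ ((AC_prim_iff hR _).mp h0)
  have h2 : (p : ℤ) ^ R ∣ Quaternion.normSq α := by
    have h3 := congrArg Quaternion.normSq hα
    rw [AC_norm, map_mul, AC_norm, AC_val_norm, w₀.2.1] at h3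
    have h4 : (((p : ℤ) ^ R : ℤ) : ZMod (p ^ R)) = 0 := by
      have := ZMod.natCast_self (p ^ R)
      push_cast
      push_cast at this
      exact this
    rw [h4, mul_zero, ZMod.intCast_zmod_eq_zero_iff_dvd] at h3
    exact_mod_cast h3
  obtain ⟨l, γ, e1, e2, e3⟩ := AC_peel hp hp4 hE h hh R α h1 h2
  refine ⟨⟨l, e1, e2⟩, redM (p ^ R) γ, ?_⟩
  rw [← hα, e3, map_mul]

lemma AC_rel_uni {p q R : ℕ} [NeZero (p ^ R)] (hR : 0 < R) (hp : p.Prime) (hp4 : p % 4 = 1)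
    (hU : Stmt_unique) (h : VH (SS p) (SS q)) (hh : IsQVH h)
    (w₀ w w' : h.Word R) (x : unitary ℍ[ZMod (p ^ R)])
    (h1 : AC_rel R w₀.1 x w.1) (h2 : AC_rel R w₀.1 x w'.1) : w = w' := by
  obtain ⟨γ, hγ⟩ := h1
  obtain ⟨γ', hγ'⟩ := h2
  obtain ⟨g, rfl⟩ := AC_surj (p ^ R) γ
  obtain ⟨g', rfl⟩ := AC_surj (p ^ R) γ'
  have h0 : AC_Prim p (AC_val w₀.1) := AC_red_prim hp hp4 hU h hh _ w₀.2.2
  have hprim : AC_Prim p (AC_val w.1 * g) := by
    rw [AC_prim_iff hR, map_mul, ← hγ]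
    exact AC_prim_x x _ ((AC_prim_iff hR _).mp h0)
  have h3 : redM (p ^ R) (AC_val w.1 * g - AC_val w'.1 * g') = 0 := by
    rw [map_sub, map_mul, map_mul, ← hγ, ← hγ', sub_self]
  obtain ⟨δ, hδ⟩ := AC_red_zero _ _ h3
  have h4 : AC_val w.1 * g = AC_val w'.1 * (g' + star (AC_val w'.1) * δ) := by
    have h5 := AC_val_star w'.1
    rw [w'.2.1] at h5
    rw [mul_add, ← mul_assoc, h5, ← hδ]
    abel
  apply Subtype.ext
  exact AC_uni hp hp4 hU w.1 w'.1 _ _ (by rw [w.2.1, w'.2.1]) hprim h4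

lemma AC_push {p q : ℕ} (h : VH (SS p) (SS q)) (hh : IsQVH h) (l : List (SS p)) :
    ∀ b : SS q, b.val * AC_val l = AC_val (h.push b l).1 * (h.push b l).2.val := by
  induction l with
  | nil => intro b; rw [AC_val_nil, mul_one, VH.push_nil, AC_val_nil, one_mul]
  | cons a l ih =>
    intro b
    have h2 := hh.2.2 (h.vh.symm (b, a)).1 (h.vh.symm (b, a)).2
    rw [Prod.mk.eta, Equiv.apply_symm_apply] at h2
    simp only at h2
    rw [VH.push_cons, AC_val_cons, AC_val_cons, ← mul_assoc, ← h2, mul_assoc, ih, mul_assoc]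

lemma AC_rel_act {p q R : ℕ} [NeZero (p ^ R)] (hM : Nat.Coprime q (p ^ R))
    (h : VH (SS p) (SS q)) (hh : IsQVH h) (w₀ w : h.Word R) (x : unitary ℍ[ZMod (p ^ R)])
    (h1 : AC_rel R w₀.1 x w.1) (b' b : SS q) :
    AC_rel R w₀.1 (uM (p ^ R) hM b' b * x) (h.act R b' (h.act R b w)).1 := by
  obtain ⟨γ, hγ⟩ := h1
  have e1 : b'.val * b.val * AC_val w.1 = AC_val (h.act R b' (h.act R b w)).1 *
      ((h.push b' (h.push b w.1).1).2.val * (h.push b w.1).2.val) := by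
    rw [mul_assoc, AC_push h hh w.1 b, ← mul_assoc, AC_push h hh _ b', mul_assoc]
    rfl
  refine ⟨((q : ZMod (p ^ R))⁻¹) • (redM (p ^ R)
    ((h.push b' (h.push b w.1).1).2.val * (h.push b w.1).2.val) * γ), ?_⟩
  show (((q : ZMod (p ^ R))⁻¹) • redM (p ^ R) (b'.val * b.val)) * (x : ℍ[ZMod (p ^ R)]) *
    redM (p ^ R) (AC_val w₀.1) = _
  rw [mul_assoc, hγ, smul_mul_assoc, ← mul_assoc, ← map_mul, e1, map_mul, mul_smul_comm,
    mul_assoc]

end ACs

theorem AC_thm (hE : Stmt_exists) (hU : Stmt_unique) (hC : Stmt_card) (hT : SQ_TR) :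
    SQ_AC := by
  intro p q hp hq hp4 hq4 hpq h hh R _ hM hR
  classical
  have hp2 : p ≠ 2 := by
    intro h2
    rw [h2] at hp4
    norm_num at hp4
  -- the base word
  have hne : Nonempty (SS p) := by
    rw [← Fintype.card_pos_iff, hC p hp hp4]
    omega
  obtain ⟨a⟩ := hne
  obtain ⟨w₀⟩ : Nonempty (h.Word R) := by
    refine ⟨⟨List.replicate R a, List.length_replicate, ?_⟩⟩
    refine List.isChain_replicate_of_rel _ ?_
    intro h0
    apply AC_not_real hp a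
    have h1 := congrArg SS.val h0
    rw [hh.1 a] at h1
    exact h1
  choose θ hθ using AC_rel_ex hR hp hp4 hE hU h hh w₀
  have hθu : ∀ x w, AC_rel R w₀.1 x w.1 → θ x = w := fun x w hx =>
    AC_rel_uni hR hp hp4 hU h hh w₀ _ _ x (hθ x) hx
  have hN : ∀ w : h.Word R, Quaternion.normSq (redM (p ^ R) (AC_val w.1)) = 0 := by
    intro w
    rw [AC_norm, AC_val_norm, w.2.1]
    have := ZMod.natCast_self (p ^ R)
    push_cast
    push_cast at this
    exact this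
  have hP : ∀ (w : h.Word R) (δ : ℍ[ZMod (p ^ R)]),
      redM (p ^ R) (AC_val w.1) ≠ (p : ℍ[ZMod (p ^ R)]) * δ := fun w =>
    (AC_prim_iff hR _).mp (AC_red_prim hp hp4 hU h hh _ w.2.2)
  refine ⟨θ, Nat.card {x // θ x = w₀}, ?_, ?_, ?_⟩
  · have h1 : θ 1 = w₀ := hθu 1 w₀ ⟨1, by simp⟩
    have : Nonempty {x // θ x = w₀} := ⟨⟨1, h1⟩⟩
    exact Nat.card_pos
  · intro b' b x
    exact hθu _ _ (AC_rel_act hM h hh w₀ (θ x) x (hθ x) b' b)
  · intro w
    apply le_antisymm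
    · obtain ⟨z, γ', hz⟩ := hT p R hp hp2 hR (redM (p ^ R) (AC_val w.1))
        (redM (p ^ R) (AC_val w₀.1)) (hN w) (hN w₀) (hP w) (hP w₀)
      refine Nat.card_le_card_of_injective
        (fun y : {x // θ x = w} => (⟨z * y.1, ?_⟩ : {x // θ x = w₀})) ?_
      · obtain ⟨g, hg⟩ := hθ y.1
        rw [y.2] at hg
        apply hθu
        refine ⟨γ' * g, ?_⟩
        show ((z : ℍ[ZMod (p ^ R)]) * (y.1 : ℍ[ZMod (p ^ R)])) * _ = _
        rw [mul_assoc, hg, ← mul_assoc, hz, mul_assoc]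
      · intro y y' hy
        apply Subtype.ext
        exact mul_left_cancel (congrArg Subtype.val hy)
    · obtain ⟨z, γ', hz⟩ := hT p R hp hp2 hR (redM (p ^ R) (AC_val w₀.1))
        (redM (p ^ R) (AC_val w.1)) (hN w₀) (hN w) (hP w₀) (hP w)
      refine Nat.card_le_card_of_injective
        (fun y : {x // θ x = w₀} => (⟨z * y.1, ?_⟩ : {x // θ x = w})) ?_
      · obtain ⟨g, hg⟩ := hθ y.1
        rw [y.2] at hg
        apply hθu
        refine ⟨γ' * g, ?_⟩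
        show ((z : ℍ[ZMod (p ^ R)]) * (y.1 : ℍ[ZMod (p ^ R)])) * _ = _
        rw [mul_assoc, hg, ← mul_assoc, hz, mul_assoc]
      · intro y y' hy
        apply Subtype.ext
        exact mul_left_cancel (congrArg Subtype.val hy)

end TauQ
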