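import Mathlib
import Pool.Agent.Work.MP_972ac7_tq.FP

/-!
# Block GN: from two primes to `Z[1/n]`
-/

open scoped Quaternion BigOperators Matrix ComplexOrder

namespace TauQ

/-! ### localization at `n` -/

section loc

variable {R : Type} [CommRing R] (n : ℕ) [IsLocalization.Away (n : ℤ) R]

/-- integral quaternions in `ℍ[R]` -/
noncomputable def GN_c (R : Type) [CommRing R] : ℍ[ℤ] →+* ℍ[R] := qmap (Int.castRingHom R)

include n in
theorem GN_unit (l : ℕ) (h : l ∣ n) : IsUnit (l : R) := by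
  have h1 := IsLocalization.Away.algebraMap_isUnit (S := R) ((n : ℕ) : ℤ)
  have h2 : (algebraMap ℤ R) ((n : ℕ) : ℤ) = ((n : ℕ) : R) := by simp
  rw [h2] at h1
  obtain ⟨m, rfl⟩ := h
  rw [Nat.cast_mul] at h1
  exact isUnit_of_mul_isUnit_left h1

include n in
theorem GN_inj (hn : n ≠ 0) : Function.Injective (Int.castRingHom R) := by
  have h0 : ((n : ℕ) : ℤ) ≠ 0 := by exact_mod_cast hn
  have h1 := IsLocalization.injective (M := Submonoid.powers (((n : ℕ) : ℤ))) R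
    (powers_le_nonZeroDivisors_of_noZeroDivisors h0)
  have h2 : algebraMap ℤ R = Int.castRingHom R := RingHom.ext_int _ _
  rwa [h2] at h1

include n in
theorem GN_coord (c : R) : ∃ k : ℕ, ∀ K : ℕ, k ≤ K → ∃ a : ℤ,
    ((n ^ K : ℕ) : R) * c = Int.castRingHom R a := by
  obtain ⟨k, a, h⟩ := IsLocalization.Away.surj (S := R) (((n : ℕ) : ℤ)) c
  have h2 : algebraMap ℤ R = Int.castRingHom R := RingHom.ext_int _ _
  rw [h2] at h
  refine ⟨k, fun K hK => ⟨((n ^ (K - k) : ℕ) : ℤ) * a, ?_⟩⟩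
  rw [map_mul, ← h]
  simp only [map_natCast, map_pow]
  obtain ⟨j, rfl⟩ := Nat.exists_eq_add_of_le hK
  rw [Nat.add_sub_cancel_left, pow_add]
  push_cast
  ring

include n in
theorem GN_denom (x : ℍ[R]) : ∃ (K : ℕ) (α : ℍ[ℤ]), ((n ^ K : ℕ) : ℍ[R]) * x = GN_c R α := by
  obtain ⟨k0, h0⟩ := GN_coord n x.re
  obtain ⟨k1, h1⟩ := GN_coord n x.imI
  obtain ⟨k2, h2⟩ := GN_coord n x.imJ
  obtain ⟨k3, h3⟩ := GN_coord n x.imK
  obtain ⟨a0, e0⟩ := h0 (k0 + k1 + k2 + k3) (by omega)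
  obtain ⟨a1, e1⟩ := h1 (k0 + k1 + k2 + k3) (by omega)
  obtain ⟨a2, e2⟩ := h2 (k0 + k1 + k2 + k3) (by omega)
  obtain ⟨a3, e3⟩ := h3 (k0 + k1 + k2 + k3) (by omega)
  refine ⟨k0 + k1 + k2 + k3, mk4 a0 a1 a2 a3, ?_⟩
  ext
  · rw [Quaternion.re_mul, GN_c, qmap_re, mk4_re, ← e0, Quaternion.re_natCast,
      Quaternion.imI_natCast, Quaternion.imJ_natCast, Quaternion.imK_natCast]
    ring
  · rw [Quaternion.imI_mul, GN_c, qmap_imI, mk4_imI, ← e1, Quaternion.re_natCast,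
      Quaternion.imI_natCast, Quaternion.imJ_natCast, Quaternion.imK_natCast]
    ring
  · rw [Quaternion.imJ_mul, GN_c, qmap_imJ, mk4_imJ, ← e2, Quaternion.re_natCast,
      Quaternion.imI_natCast, Quaternion.imJ_natCast, Quaternion.imK_natCast]
    ring
  · rw [Quaternion.imK_mul, GN_c, qmap_imK, mk4_imK, ← e3, Quaternion.re_natCast,
      Quaternion.imI_natCast, Quaternion.imJ_natCast, Quaternion.imK_natCast]
    ring

theorem GN_cancel (m : ℕ) (hm : IsUnit (m : R)) (x y : ℍ[R])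
    (h : (m : ℍ[R]) * x = (m : ℍ[R]) * y) : x = y := by
  have h1 := hm.map (algebraMap R ℍ[R])
  rw [map_natCast] at h1
  exact h1.mul_left_cancel h

theorem GN_norm (hinj : Function.Injective (Int.castRingHom R)) (c : ℕ) (α : ℍ[ℤ])
    (x : unitary ℍ[R]) (h : (c : ℍ[R]) * (x : ℍ[R]) = GN_c R α) :
    Quaternion.normSq α = ((c : ℕ) : ℤ) ^ 2 := by
  have h1 : Quaternion.normSq (x : ℍ[R]) = 1 := (mem_unitary_iff _).1 x.2
  have h2 := congrArg Quaternion.normSq h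
  rw [map_mul, h1, mul_one, GN_c, normSq_qmap, Quaternion.normSq_natCast] at h2
  apply hinj
  rw [← h2, map_pow, map_natCast]

/-- the element `α / c` -/
theorem GN_mk (c : ℕ) (hc : IsUnit (c : R)) (α : ℍ[ℤ])
    (hα : Quaternion.normSq α = ((c : ℕ) : ℤ) ^ 2) :
    ∃ x : unitary ℍ[R], (c : ℍ[R]) * (x : ℍ[R]) = GN_c R α := by
  obtain ⟨u, hu⟩ := hc
  have hu1 : (c : R) * ((u⁻¹ : Rˣ) : R) = 1 := by rw [← hu, Units.mul_inv]
  refine ⟨⟨((u⁻¹ : Rˣ) : R) • GN_c R α, ?_⟩, ?_⟩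
  · rw [mem_unitary_iff, Quaternion.normSq_smul, GN_c, normSq_qmap, hα, map_pow, map_natCast]
    calc (((u⁻¹ : Rˣ) : R)) ^ 2 * (c : R) ^ 2 = ((c : R) * ((u⁻¹ : Rˣ) : R)) ^ 2 := by ring
      _ = 1 := by rw [hu1, one_pow]
  · have h2 : (c : ℍ[R]) = ((c : R) : ℍ[R]) := (Quaternion.coe_natCast c).symm
    show (c : ℍ[R]) * (((u⁻¹ : Rˣ) : R) • GN_c R α) = GN_c R α
    rw [h2, Quaternion.coe_mul_eq_smul, smul_smul, hu1, one_smul]

end loc

/-! ### generation -/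

section gen

variable {R : Type} [CommRing R] (n : ℕ) [IsLocalization.Away (n : ℤ) R]

theorem GN_peel (hex : Stmt_exists) (l : ℕ) (hl : l.Prime) (hl4 : l % 4 = 1) (α : ℍ[ℤ])
    (h : (l : ℤ) ∣ Quaternion.normSq α) : ∃ (b : SS l) (γ : ℍ[ℤ]), α = b.val * γ := by
  by_cases hd : ∃ δ : ℍ[ℤ], α = (l : ℍ[ℤ]) * δ
  · obtain ⟨δ, rfl⟩ := hd
    obtain ⟨b⟩ := FP_nonempty l hl hl4
    refine ⟨b, star b.val * δ, ?_⟩
    rw [← mul_assoc, Quaternion.self_mul_star, b.norm]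
    rfl
  · push Not at hd
    exact hex l hl hl4 α hd h

include n in
theorem GN_gen (hex : Stmt_exists) (hn4 : ∀ l : ℕ, l.Prime → l ∣ n → l % 4 = 1)
    (I : Subgroup (unitary ℍ[R])) (p : ℕ) (hp : p.Prime) (hpn : p ∣ n)
    (hI : ∀ l : ℕ, l.Prime → l ∣ n → ∀ x : unitary ℍ[R], (∃ (i : ℕ) (α : ℍ[ℤ]),
      ((l ^ i : ℕ) : ℍ[R]) * (x : ℍ[R]) = GN_c R α) → x ∈ I) :
    ∀ c : ℕ, 0 < c → (∀ l : ℕ, l.Prime → l ∣ c → l ∣ n) → ∀ (α : ℍ[ℤ]),
      Quaternion.normSq α = ((c : ℕ) : ℤ) ^ 2 → ∀ x : unitary ℍ[R],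
      (c : ℍ[R]) * (x : ℍ[R]) = GN_c R α → x ∈ I := by
  intro c
  induction c using Nat.strong_induction_on with
  | _ c ih =>
    intro hc hcl α hα x hx
    by_cases hc1 : c = 1
    · subst hc1
      refine hI p hp hpn x ⟨0, α, ?_⟩
      rw [pow_zero]
      exact hx
    · obtain ⟨l, hl, hlc⟩ := Nat.exists_prime_and_dvd hc1
      obtain ⟨c', rfl⟩ := hlc
      have hln : l ∣ n := hcl l hl (dvd_mul_right _ _)
      have hl4 := hn4 l hl hln
      have hl0 : ((l : ℕ) : ℤ) ≠ 0 := by exact_mod_cast hl.ne_zero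
      have hc'0 : 0 < c' := Nat.pos_of_mul_pos_left hc
      obtain ⟨b, γ, rfl⟩ := GN_peel hex l hl hl4 α (by
        rw [hα]; push_cast; exact ⟨(l : ℤ) * (c' : ℤ) ^ 2, by ring⟩)
      have hγ : Quaternion.normSq γ = (l : ℤ) * (c' : ℤ) ^ 2 := by
        rw [map_mul, b.norm] at hα
        have : (l : ℤ) * Quaternion.normSq γ = (l : ℤ) * ((l : ℤ) * (c' : ℤ) ^ 2) := by
          rw [hα]; push_cast; ring
        exact mul_left_cancel₀ hl0 this
      obtain ⟨b', γ', rfl⟩ := GN_peel hex l hl hl4 γ (by rw [hγ]; exact dvd_mul_right _ _)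
      have hγ' : Quaternion.normSq γ' = ((c' : ℕ) : ℤ) ^ 2 := by
        rw [map_mul, b'.norm] at hγ
        exact mul_left_cancel₀ hl0 hγ
      have hlu : IsUnit (l : R) := GN_unit n l hln
      have hcu : IsUnit (c' : R) := by
        clear ih hα hx hγ hγ' hc hc1
        revert hcl hc'0
        induction c' using Nat.strong_induction_on with
        | _ c' ih =>
          intro hcl h0
          by_cases h1 : c' = 1
          · subst h1; simp
          · obtain ⟨r, hr, hrc⟩ := Nat.exists_prime_and_dvd h1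
            obtain ⟨d, rfl⟩ := hrc
            rw [Nat.cast_mul]
            have hd0 : 0 < d := Nat.pos_of_mul_pos_left h0
            refine (GN_unit n r (hcl r hr (dvd_mul_of_dvd_right (dvd_mul_right _ _) _))).mul ?_
            refine ih d ?_ ?_ hd0
            · have := hr.one_lt
              nlinarith
            · intro s hs hsd
              refine hcl s hs ?_
              rcases (Nat.Prime.dvd_mul hs).1 hsd with h2 | h2
              · exact dvd_mul_of_dvd_left h2 _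
              · exact dvd_mul_of_dvd_right (dvd_mul_of_dvd_right h2 _) _
      obtain ⟨g1, hg1⟩ := GN_mk (R := R) l hlu (b.val * b'.val) (by
        rw [map_mul, b.norm, b'.norm]; ring)
      obtain ⟨g2, hg2⟩ := GN_mk (R := R) c' hcu γ' hγ'
      have hx12 : x = g1 * g2 := by
        apply Subtype.ext
        refine GN_cancel (l * c') (by rw [Nat.cast_mul]; exact hlu.mul hcu) _ _ ?_
        rw [hx, ← mul_assoc, map_mul, ← hg1, ← hg2, Submonoid.coe_mul, Nat.cast_mul]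
        have hcm : (c' : ℍ[R]) * (g1 : ℍ[R]) = (g1 : ℍ[R]) * (c' : ℍ[R]) :=
          (Nat.cast_commute c' (g1 : ℍ[R])).eq
        calc (l : ℍ[R]) * (g1 : ℍ[R]) * ((c' : ℍ[R]) * (g2 : ℍ[R]))
            = (l : ℍ[R]) * ((g1 : ℍ[R]) * (c' : ℍ[R])) * (g2 : ℍ[R]) := by
              simp only [mul_assoc]
          _ = (l : ℍ[R]) * ((c' : ℍ[R]) * (g1 : ℍ[R])) * (g2 : ℍ[R]) := by rw [hcm]
          _ = _ := by simp only [mul_assoc]
      rw [hx12]
      refine I.mul_mem ?_ ?_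
      · exact hI l hl hln g1 ⟨1, b.val * b'.val, by rw [pow_one]; exact hg1⟩
      · refine ih c' ?_ hc'0 ?_ γ' hγ' g2 hg2
        · have := hl.one_lt
          nlinarith
        · intro s hs hsc
          exact hcl s hs (dvd_mul_of_dvd_right hsc _)

end gen

/-! ### the subgroups of two primes -/

section two

variable {R : Type} [CommRing R]

/-- the map of the norm one groups -/
noncomputable def GN_J {S : Type} [CommRing S] (f : S →+* R) : unitary ℍ[S] →* unitary ℍ[R] where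
  toFun x := ⟨qmap f (x : ℍ[S]), (mem_unitary_iff _).2 (by
    rw [normSq_qmap, (mem_unitary_iff _).1 x.2, map_one])⟩
  map_one' := Subtype.ext (map_one _)
  map_mul' x y := Subtype.ext (map_mul _ _ _)

lemma GN_J_val {S : Type} [CommRing S] (f : S →+* R) (x : unitary ℍ[S]) :
    ((GN_J f x : unitary ℍ[R]) : ℍ[R]) = qmap f (x : ℍ[S]) := rfl

lemma GN_J_cast {p q : ℕ} (f : RR p q →+* R) (α : ℍ[ℤ]) : qmap f (castR p q α) = GN_c R α := by
  ext <;> simp [castR, GN_c]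

lemma GN_J_den {p q : ℕ} (f : RR p q →+* R) (m : ℕ) (x : GG p q) (α : ℍ[ℤ])
    (h : (m : ℍ[RR p q]) * (x : ℍ[RR p q]) = castR p q α) :
    (m : ℍ[R]) * ((GN_J f x : unitary ℍ[R]) : ℍ[R]) = GN_c R α := by
  rw [GN_J_val, ← GN_J_cast f, ← h, map_mul, map_natCast]

lemma GN_castR {p q : ℕ} : castR p q = GN_c (RR p q) := by
  ext α <;> simp [castR, GN_c]

/-- elements with denominators powers of `l` come from the pair `(p, q)` if `l ∣ p q` -/
lemma GN_lift {p q : ℕ} (f : RR p q →+* R) (hinj : Function.Injective (Int.castRingHom R))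
    (l : ℕ) (hlpq : l ∣ p * q) (hlR : IsUnit (l : R)) (x : unitary ℍ[R]) (i : ℕ) (α : ℍ[ℤ])
    (h : ((l ^ i : ℕ) : ℍ[R]) * (x : ℍ[R]) = GN_c R α) :
    ∃ s : GG p q, ((l ^ i : ℕ) : ℍ[RR p q]) * (s : ℍ[RR p q]) = castR p q α ∧ GN_J f s = x := by
  have h1 := GN_norm hinj (l ^ i) α x h
  have h2 : IsUnit (((l ^ i : ℕ)) : RR p q) := by
    rw [Nat.cast_pow]
    exact (GN_unit (R := RR p q) (p * q) l hlpq).pow i
  obtain ⟨s, hs⟩ := GN_mk (R := RR p q) (l ^ i) h2 α h1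
  rw [← GN_castR] at hs
  refine ⟨s, hs, ?_⟩
  apply Subtype.ext
  refine GN_cancel (l ^ i) (by rw [Nat.cast_pow]; exact hlR.pow i) _ _ ?_
  rw [h]
  exact GN_J_den f (l ^ i) s α hs

end two

section main

/-- the transfer to a finite quotient -/
theorem GN_transfer {H G : Type} [Group H] [Group G] (J : H →* G) (QQ : Finset H) (c : ℝ)
    (M : Subgroup G) [hM : M.Normal] [hMf : M.FiniteIndex] [Fintype (G ⧸ M)]
    (hgap : ∀ (N : Subgroup H) [N.Normal] [N.FiniteIndex] [Fintype (H ⧸ N)] (v : H ⧸ N → ℂ),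
      ∑ x, v x = 0 → c * ∑ x, ‖v x‖ ^ 2 ≤ ∑ s ∈ QQ, ∑ x, ‖v ((s : H ⧸ N) * x) - v x‖ ^ 2)
    (v : G ⧸ M → ℂ) : ∃ w : G ⧸ M → ℂ, (∀ h x, w ((J h : G ⧸ M) * x) = w x) ∧
      (∑ x, v x = 0 → ∑ x, w x = 0) ∧
      c * ∑ x, ‖v x - w x‖ ^ 2 ≤ ∑ s ∈ QQ, ∑ x, ‖v ((J s : G ⧸ M) * x) - v x‖ ^ 2 := by
  classical
  have hN : (M.comap J).Normal := inferInstance
  have hNf : (M.comap J).FiniteIndex := by
    constructor
    rw [Subgroup.index_comap]
    have h1 : (M.subgroupOf J.range).FiniteIndex := inferInstance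
    exact h1.index_ne_zero
  have hfin : Finite (H ⧸ M.comap J) := Subgroup.finite_quotient_of_finiteIndex
  have : Fintype (H ⧸ M.comap J) := Fintype.ofFinite _
  let ρ : H ⧸ M.comap J →* G ⧸ M := QuotientGroup.map _ _ J le_rfl
  have hρ : ∀ h : H, ρ (h : H ⧸ M.comap J) = (J h : G ⧸ M) := fun h => rfl
  refine ⟨FP_avg ρ v, ?_, ?_, ?_⟩
  · intro h x
    rw [← hρ]
    exact FP_avg_inv ρ v _ x
  · intro hv
    simp only [FP_avg, ← Finset.mul_sum]
    rw [Finset.sum_comm]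
    have : ∀ k : H ⧸ M.comap J, ∑ x, v (ρ k * x) = 0 := fun k =>
      (Equiv.sum_comp (Equiv.mulLeft (ρ k)) v).trans hv
    simp only [this, Finset.sum_const_zero, mul_zero]
  · have h1 := FP_transfer ρ (fun s : {s // s ∈ QQ} => ((s : H) : H ⧸ M.comap J)) c (by
      intro φ hφ
      have h2 := hgap (M.comap J) φ hφ
      rw [← Finset.sum_coe_sort QQ (fun s => ∑ x, ‖φ ((s : H ⧸ M.comap J) * x) - φ x‖ ^ 2)] at h2
      exact h2) v
    rw [← Finset.sum_coe_sort QQ (fun s => ∑ x, ‖v ((J s : G ⧸ M) * x) - v x‖ ^ 2)]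
    exact h1

theorem GN_thm (hex : Stmt_exists) (hTP : SQ_TP) : SQ_GN := by
  classical
  intro n hn4 hpq R _ _
  obtain ⟨p, q, hp, hq, hne, hpn, hqn⟩ := hpq
  have hn0 : n ≠ 0 := by
    rintro rfl
    have := hn4 2 Nat.prime_two (dvd_zero 2)
    norm_num at this
  have hinj : Function.Injective (Int.castRingHom R) := GN_inj n hn0
  -- the maps
  have hf : ∀ l r : ℕ, l ∣ n → r ∣ n → ∃ f : RR l r →+* R, True := by
    intro l r hl hr
    refine ⟨IsLocalization.Away.lift (S := RR l r) (((l * r : ℕ) : ℤ)) (g := Int.castRingHom R) ?_,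
      trivial⟩
    rw [map_natCast, Nat.cast_mul]
    exact (GN_unit n l hl).mul (GN_unit n r hr)
  obtain ⟨f, -⟩ := hf p q hpn hqn
  obtain ⟨QQ, c, hc, hden, hgap⟩ := hTP p q hp hq (hn4 p hp hpn) (hn4 q hq hqn) hne
  refine ⟨QQ.image (GN_J f), c / (QQ.card + 1), by positivity, ?_⟩
  intro M hM hMf _ v hv
  obtain ⟨w, hw1, hw2, hw3⟩ := GN_transfer (GN_J f) QQ c M hgap v
  -- `w` is constant
  let I : Subgroup (unitary ℍ[R]) :=
    { carrier := {x | ∀ y : unitary ℍ[R] ⧸ M, w ((x : unitary ℍ[R] ⧸ M) * y) = w y}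
      one_mem' := by intro y; simp
      mul_mem' := by
        intro a b ha hb y
        have h1 : (((a * b : unitary ℍ[R]) : unitary ℍ[R] ⧸ M)) * y =
          (a : unitary ℍ[R] ⧸ M) * ((b : unitary ℍ[R] ⧸ M) * y) := by
          rw [QuotientGroup.mk_mul, mul_assoc]
        rw [h1]
        exact (ha _).trans (hb _)
      inv_mem' := by
        intro a ha y
        have h1 := ha ((a⁻¹ : unitary ℍ[R]) * y)
        rw [QuotientGroup.mk_inv] at *
        rw [mul_inv_cancel_left] at h1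
        exact h1.symm }
  have hIp : ∀ x : unitary ℍ[R], (∃ (i : ℕ) (α : ℍ[ℤ]),
      ((p ^ i : ℕ) : ℍ[R]) * (x : ℍ[R]) = GN_c R α) → x ∈ I := by
    rintro x ⟨i, α, h⟩
    obtain ⟨s, -, rfl⟩ := GN_lift f hinj p (dvd_mul_right p q) (GN_unit n p hpn) x i α h
    intro y
    exact hw1 s y
  have hI : ∀ l : ℕ, l.Prime → l ∣ n → ∀ x : unitary ℍ[R], (∃ (i : ℕ) (α : ℍ[ℤ]),
      ((l ^ i : ℕ) : ℍ[R]) * (x : ℍ[R]) = GN_c R α) → x ∈ I := by
    intro l hl hln x hx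
    by_cases hlp : l = p
    · subst hlp
      exact hIp x hx
    obtain ⟨f', -⟩ := hf p l hpn hln
    obtain ⟨QQ', c', hc', hden', hgap'⟩ := hTP p l hp hl (hn4 p hp hpn) (hn4 l hl hln)
      (Ne.symm hlp)
    obtain ⟨w', hw1', -, hw3'⟩ := GN_transfer (GN_J f') QQ' c' M hgap' w
    have h1 : ∑ s ∈ QQ', ∑ x, ‖w ((GN_J f' s : unitary ℍ[R] ⧸ M) * x) - w x‖ ^ 2 = 0 := by
      refine Finset.sum_eq_zero fun s hs => Finset.sum_eq_zero fun y _ => ?_
      obtain ⟨i, α, h⟩ := hden' s hs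
      have h2 : GN_J f' s ∈ I := hIp _ ⟨i, α, GN_J_den f' (p ^ i) s α h⟩
      rw [h2 y, sub_self]
      simp
    rw [h1] at hw3'
    have h2 : ∑ x, ‖w x - w' x‖ ^ 2 = 0 := by
      have h3 : 0 ≤ ∑ x, ‖w x - w' x‖ ^ 2 := Finset.sum_nonneg fun _ _ => sq_nonneg _
      nlinarith
    have h3 : ∀ x, w x = w' x := by
      intro x
      have h4 := (Finset.sum_eq_zero_iff_of_nonneg (fun x _ => sq_nonneg _)).1 h2 x
        (Finset.mem_univ x)
      have h5 : ‖w x - w' x‖ = 0 := by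
        simpa using h4
      exact sub_eq_zero.1 (norm_eq_zero.1 h5)
    obtain ⟨i, α, h⟩ := hx
    obtain ⟨s, -, rfl⟩ := GN_lift f' hinj l (dvd_mul_left l p) (GN_unit n l hln) x i α h
    intro y
    rw [h3, h3]
    exact hw1' s y
  have hall : ∀ x : unitary ℍ[R], x ∈ I := by
    intro x
    obtain ⟨K, α, h⟩ := GN_denom n (x : ℍ[R])
    refine GN_gen n hex hn4 I p hp hpn hI (n ^ K) (by positivity) ?_ α
      (GN_norm hinj (n ^ K) α x h) x h
    intro l hl hlK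
    exact hl.dvd_of_dvd_pow hlK
  have hconst : ∀ x, w x = w 1 := by
    intro x
    obtain ⟨g, rfl⟩ := QuotientGroup.mk_surjective x
    have := hall g 1
    rwa [mul_one] at this
  have hw0 : ∀ x, w x = 0 := by
    have h1 := hw2 hv
    rw [Finset.sum_congr rfl fun x _ => hconst x, Finset.sum_const, nsmul_eq_mul] at h1
    have h2 : ((Finset.univ : Finset (unitary ℍ[R] ⧸ M)).card : ℂ) ≠ 0 := by
      rw [Finset.card_univ]
      exact_mod_cast Fintype.card_ne_zero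
    intro x
    rw [hconst x]
    exact (mul_eq_zero.1 h1).resolve_left h2
  simp only [hw0, sub_zero] at hw3
  set S : ℝ := ∑ s ∈ QQ.image (GN_J f), ∑ x, ‖v ((s : unitary ℍ[R] ⧸ M) * x) - v x‖ ^ 2 with hS
  have hS0 : 0 ≤ S := Finset.sum_nonneg fun _ _ => Finset.sum_nonneg fun _ _ => sq_nonneg _
  have h1 : ∑ s ∈ QQ, ∑ x, ‖v ((GN_J f s : unitary ℍ[R] ⧸ M) * x) - v x‖ ^ 2 ≤
      ∑ s ∈ QQ, S := by
    refine Finset.sum_le_sum fun s hs => ?_
    exact Finset.single_le_sum (f := fun s : unitary ℍ[R] =>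
      ∑ x, ‖v ((s : unitary ℍ[R] ⧸ M) * x) - v x‖ ^ 2)
      (fun s _ => Finset.sum_nonneg fun _ _ => sq_nonneg _) (Finset.mem_image_of_mem _ hs)
  rw [Finset.sum_const, nsmul_eq_mul] at h1
  rw [div_mul_eq_mul_div, div_le_iff₀ (by positivity)]
  calc c * ∑ x, ‖v x‖ ^ 2 ≤ QQ.card * S := hw3.trans h1
    _ ≤ S * (QQ.card + 1) := by nlinarith

end main

end TauQ
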