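import Mathlib
import Pool.Agent.Work.MP_972ac7_tq.Interface

/-!
Block LK: the finite group attached to a normal subgroup of finite index of `GG p q`
(compare `MP_972ac7_al_tau/link.lean`).
-/

open scoped Quaternion BigOperators Matrix ComplexOrder

namespace TauQ

/-- the quotient representation -/
def LK_rep {A B : Type} {h : VH A B} {Γ : Type} [Group Γ] (r : Rep h Γ) (K : Subgroup Γ)
    [K.Normal] (hA : K ≤ r.chiA.ker) (hB : K ≤ r.chiB.ker) : Rep h (Γ ⧸ K) where
  al a := QuotientGroup.mk' K (r.al a)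
  be b := QuotientGroup.mk' K (r.be b)
  al_inv a := by rw [r.al_inv, map_inv]
  be_inv b := by rw [r.be_inv, map_inv]
  comm a b := by rw [← map_mul, r.comm, map_mul]
  chiA := QuotientGroup.lift K r.chiA hA
  chiB := QuotientGroup.lift K r.chiB hB
  chiA_al a := by
    rw [QuotientGroup.mk'_apply, QuotientGroup.lift_mk]; exact r.chiA_al a
  chiA_be b := by
    rw [QuotientGroup.mk'_apply, QuotientGroup.lift_mk]; exact r.chiA_be b
  chiB_al a := by
    rw [QuotientGroup.mk'_apply, QuotientGroup.lift_mk]; exact r.chiB_al a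
  chiB_be b := by
    rw [QuotientGroup.mk'_apply, QuotientGroup.lift_mk]; exact r.chiB_be b
  gen := by
    have h1 : (Subgroup.closure (Set.range r.al ∪ Set.range r.be)).map (QuotientGroup.mk' K) =
        ⊤ := by
      rw [r.gen]
      exact Subgroup.map_top_of_surjective _ (QuotientGroup.mk'_surjective K)
    rw [MonoidHom.map_closure, Set.image_union, ← Set.range_comp, ← Set.range_comp] at h1
    exact h1

theorem LK_thm (hhat : Stmt_hat) : SQ_LK := by
  intro p q hpp hqq hp4 hq4 hpq h hQ N hN hNf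
  obtain ⟨Γ, _, r, ι, hι, hrange, -, hA, -⟩ := hhat p q hpp hqq hp4 hq4 hpq h hQ
  let N1 : Subgroup (G1 p q) := N.subgroupOf (G1 p q)
  have hN1f : N1.FiniteIndex := by
    have : (N.subgroupOf (G1 p q)).FiniteIndex := inferInstance
    exact this
  let K0 : Subgroup Γ := N1.map ι
  have hK0r : K0 ≤ ι.range := by
    rintro _ ⟨y, -, rfl⟩
    exact ⟨y, rfl⟩
  have hK0f : K0.FiniteIndex := by
    constructor
    change (N1.map ι).index ≠ 0
    rw [Subgroup.index_map_of_injective _ hι, hrange]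
    refine mul_ne_zero hN1f.index_ne_zero ?_
    have h1 : (r.chiA.ker).FiniteIndex := Subgroup.finiteIndex_ker r.chiA
    have h2 : (r.chiB.ker).FiniteIndex := Subgroup.finiteIndex_ker r.chiB
    exact Subgroup.index_inf_ne_zero h1.index_ne_zero h2.index_ne_zero
  let K : Subgroup Γ := K0.normalCore
  have hKn : K.Normal := Subgroup.normalCore_normal K0
  have hKf : K.FiniteIndex := by
    have : (K0.normalCore).FiniteIndex := inferInstance
    exact this
  have hKK0 : K ≤ K0 := Subgroup.normalCore_le K0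
  have hKr : K ≤ r.chiA.ker ⊓ r.chiB.ker := by
    rw [← hrange]; exact hKK0.trans hK0r
  have hfin : Finite (Γ ⧸ K) := Subgroup.finite_quotient_of_finiteIndex
  let r' : Rep h (Γ ⧸ K) := LK_rep r K (hKr.trans inf_le_left) (hKr.trans inf_le_right)
  let π : Γ →* Γ ⧸ K := QuotientGroup.mk' K
  have hπs : Function.Surjective π := QuotientGroup.mk'_surjective K
  have hchiA : ∀ g : Γ, r'.chiA (π g) = r.chiA g := fun g => rfl
  have hchiB : ∀ g : Γ, r'.chiB (π g) = r.chiB g := fun g => rfl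
  let rQ : G1 p q →* Γ ⧸ K := π.comp ι
  have hrQ : rQ.range = r'.chiA.ker ⊓ r'.chiB.ker := by
    ext z
    obtain ⟨g, rfl⟩ := hπs z
    rw [Subgroup.mem_inf, MonoidHom.mem_ker, MonoidHom.mem_ker, hchiA, hchiB]
    constructor
    · rintro ⟨γ, hγ⟩
      have h1 : π (ι γ) = π g := hγ
      have h2 : ι γ ∈ r.chiA.ker ⊓ r.chiB.ker := by rw [← hrange]; exact ⟨γ, rfl⟩
      rw [← hchiA, ← hchiB, ← h1, hchiA, hchiB]
      exact ⟨h2.1, h2.2⟩
    · rintro ⟨h1, h2⟩
      have h3 : g ∈ ι.range := by rw [hrange]; exact ⟨h1, h2⟩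
      obtain ⟨γ, rfl⟩ := h3
      exact ⟨γ, rfl⟩
  refine ⟨Γ ⧸ K, inferInstance, Fintype.ofFinite _, r', rQ, hrQ, ?_, ?_⟩
  · intro a' a
    obtain ⟨γ, h1, h2⟩ := hA a' a
    refine ⟨γ, h1, ?_⟩
    change π (ι γ) = π (r.al a') * π (r.al a)
    rw [h2, map_mul]
  · intro γ hγ
    have h1 : ι γ ∈ K := (QuotientGroup.eq_one_iff (ι γ)).mp hγ
    obtain ⟨n, hn, hn'⟩ := hKK0 h1
    have h2 : n = γ := hι hn'
    rw [← h2]
    exact hn

end TauQ
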