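import Mathlib
import Pool.Agent.Work.MP_972ac7_tq.Interface

/-!
# Block NU: no eigenvalue near the top satisfies the trace bound at a large level
-/

open scoped Quaternion BigOperators Matrix ComplexOrder

namespace TauQ

lemma NU_totient (p i : ℕ) (hp : p.Prime) (h : 2 ≤ p ^ i) : ((p ^ i : ℕ) : ℝ) / 2 ≤
    ((p ^ i).totient : ℝ) := by
  obtain _ | n := i
  · simp at h
  · rw [Nat.totient_prime_pow_succ hp]
    have hp2 := hp.two_le
    have h1 : p ^ (n + 1) ≤ 2 * (p ^ n * (p - 1)) := by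
      obtain ⟨m, rfl⟩ : ∃ m, p = m + 1 := ⟨p - 1, by omega⟩
      rw [pow_succ, Nat.add_sub_cancel]
      have : (m + 1) ≤ 2 * m := by omega
      calc (m + 1) ^ n * (m + 1) ≤ (m + 1) ^ n * (2 * m) := Nat.mul_le_mul_left _ this
        _ = 2 * ((m + 1) ^ n * m) := by ring
    have h2 : ((p ^ (n + 1) : ℕ) : ℝ) ≤ 2 * ((p ^ n * (p - 1) : ℕ) : ℝ) := by exact_mod_cast h1
    linarith

/-- the analytic core -/
lemma NU_core (a A μ t κ x E C Y m φM : ℝ) (j : ℕ) (hμ : 0 < μ) (ht : 0 < t) (hκ : κ = 2 / t)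
    (hx : 0 ≤ x) (hE : E = Real.exp (1 / (4 * κ))) (hC : 0 < C) (hY0 : 0 ≤ Y)
    (hm : m = Real.exp x) (hj1 : κ * x ≤ j) (hj2 : (j : ℝ) ≤ κ * x + 1) (ha0 : 0 ≤ a)
    (ha : a ≤ Real.exp (-t) * μ) (hA0 : 0 ≤ A) (hA : A ≤ Real.exp (1 / (8 * κ)) * μ)
    (hY : Y ≤ E * Real.exp (x / 4)) (hφ : m / 2 ≤ φM)
    (htr : φM * μ ^ (2 * j) ≤ 2 * (m ^ 3 * (a ^ (2 * j) * (2 + C * Y / m) +
      C * Y / m ^ 3 * A ^ (2 * j)))) :
    Real.exp (x / 2) ≤ 2 * (4 + 2 * C * E + 2 * C * E ^ 2) := by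
  have hκ0 : 0 < κ := by rw [hκ]; positivity
  have hE1 : 1 ≤ E := by rw [hE]; exact Real.one_le_exp (by positivity)
  have hm1 : 1 ≤ m := by rw [hm]; exact Real.one_le_exp hx
  have hm0 : 0 < m := by linarith
  have hP : 0 < μ ^ (2 * j) := by positivity
  have e1 : a ^ (2 * j) ≤ Real.exp (-(4 * x)) * μ ^ (2 * j) := by
    have h1 : a ^ (2 * j) ≤ (Real.exp (-t) * μ) ^ (2 * j) := pow_le_pow_left₀ ha0 ha _
    rw [mul_pow, ← Real.exp_nat_mul] at h1
    refine h1.trans (mul_le_mul_of_nonneg_right (Real.exp_le_exp.2 ?_) hP.le)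
    push_cast
    have h2 : κ * t = 2 := by rw [hκ]; field_simp
    have h3 : κ * x * t ≤ j * t := mul_le_mul_of_nonneg_right hj1 ht.le
    nlinarith
  have hjb : 2 * (j : ℝ) * (1 / (8 * κ)) ≤ x / 4 + 1 / (4 * κ) := by
    have h4 : 2 * (j : ℝ) * (1 / (8 * κ)) = (j : ℝ) / (4 * κ) := by field_simp; ring
    have h5 : x / 4 + 1 / (4 * κ) = (κ * x + 1) / (4 * κ) := by field_simp
    rw [h4, h5]
    exact div_le_div_of_nonneg_right hj2 (by positivity)
  have e2 : A ^ (2 * j) ≤ E * Real.exp (x / 4) * μ ^ (2 * j) := by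
    have h1 : A ^ (2 * j) ≤ (Real.exp (1 / (8 * κ)) * μ) ^ (2 * j) := pow_le_pow_left₀ hA0 hA _
    rw [mul_pow, ← Real.exp_nat_mul] at h1
    refine h1.trans (mul_le_mul_of_nonneg_right ?_ hP.le)
    rw [hE, ← Real.exp_add]
    apply Real.exp_le_exp.2
    push_cast
    linarith
  -- the main inequality divided by the power
  have h6 : m ^ 3 * Real.exp (-(4 * x)) = 1 / m := by
    rw [hm, ← Real.exp_nat_mul, ← Real.exp_add, one_div, ← Real.exp_neg]
    congr 1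
    push_cast
    ring
  have h7 : φM * μ ^ (2 * j) ≤ (2 * (1 / m * (2 + C * Y / m)) +
      2 * (C * Y * (E * Real.exp (x / 4)))) * μ ^ (2 * j) := by
    refine htr.trans ?_
    have h8 : m ^ 3 * (a ^ (2 * j) * (2 + C * Y / m)) ≤
        (1 / m * (2 + C * Y / m)) * μ ^ (2 * j) := by
      have h9 : a ^ (2 * j) * (2 + C * Y / m) ≤
          (Real.exp (-(4 * x)) * μ ^ (2 * j)) * (2 + C * Y / m) :=
        mul_le_mul_of_nonneg_right e1 (by positivity)
      have h10 := mul_le_mul_of_nonneg_left h9 (by positivity : (0 : ℝ) ≤ m ^ 3)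
      refine h10.trans (le_of_eq ?_)
      rw [← h6]
      ring
    have h11 : m ^ 3 * (C * Y / m ^ 3 * A ^ (2 * j)) ≤
        (C * Y * (E * Real.exp (x / 4))) * μ ^ (2 * j) := by
      have h12 : m ^ 3 * (C * Y / m ^ 3 * A ^ (2 * j)) = C * Y * A ^ (2 * j) := by
        field_simp
      rw [h12]
      have h13 := mul_le_mul_of_nonneg_left e2 (by positivity : (0 : ℝ) ≤ C * Y)
      refine h13.trans (le_of_eq ?_)
      ring
    have h14 : 2 * (m ^ 3 * (a ^ (2 * j) * (2 + C * Y / m) + C * Y / m ^ 3 * A ^ (2 * j))) =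
        2 * (m ^ 3 * (a ^ (2 * j) * (2 + C * Y / m))) +
        2 * (m ^ 3 * (C * Y / m ^ 3 * A ^ (2 * j))) := by ring
    rw [h14]
    linarith
  have h15 : φM ≤ 2 * (1 / m * (2 + C * Y / m)) + 2 * (C * Y * (E * Real.exp (x / 4))) :=
    le_of_mul_le_mul_right h7 hP
  have hs : Real.exp x = Real.exp (x / 2) * Real.exp (x / 2) := by
    rw [← Real.exp_add]; congr 1; ring
  have hs' : Real.exp (x / 4) * Real.exp (x / 4) = Real.exp (x / 2) := by
    rw [← Real.exp_add]; congr 1; ring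
  have hq1 : 1 ≤ Real.exp (x / 4) := Real.one_le_exp (by positivity)
  have hq2 : Real.exp (x / 4) ≤ Real.exp (x / 2) := Real.exp_le_exp.2 (by linarith)
  have hq3 : 1 ≤ Real.exp (x / 2) := Real.one_le_exp (by positivity)
  have h16 : 1 / m ≤ 1 := by rw [div_le_one hm0]; exact hm1
  have h17 : C * Y / m ≤ C * Y := div_le_self (by positivity) hm1
  have h18 : 1 / m * (2 + C * Y / m) ≤ 2 + C * Y := by
    calc 1 / m * (2 + C * Y / m) ≤ 1 * (2 + C * Y / m) :=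
          mul_le_mul_of_nonneg_right h16 (by positivity)
      _ ≤ 2 + C * Y := by linarith
  have h19 : C * Y ≤ C * E * Real.exp (x / 2) := by
    have h20 : C * Y ≤ C * (E * Real.exp (x / 4)) := mul_le_mul_of_nonneg_left hY hC.le
    have h21 : C * (E * Real.exp (x / 4)) ≤ C * (E * Real.exp (x / 2)) := by gcongr
    linarith
  have h22 : C * Y * (E * Real.exp (x / 4)) ≤ C * E ^ 2 * Real.exp (x / 2) := by
    have h23 : C * Y * (E * Real.exp (x / 4)) ≤ C * (E * Real.exp (x / 4)) * (E * Real.exp (x / 4)) := by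
      gcongr
    refine h23.trans (le_of_eq ?_)
    rw [← hs']
    ring
  have h24 : m / 2 ≤ (4 + 2 * C * E + 2 * C * E ^ 2) * Real.exp (x / 2) := by nlinarith
  rw [hm, hs] at h24
  have h25 : Real.exp (x / 2) / 2 * Real.exp (x / 2) ≤
      (4 + 2 * C * E + 2 * C * E ^ 2) * Real.exp (x / 2) := by linarith
  have h26 := le_of_mul_le_mul_right h25 (by positivity)
  linarith

theorem NU_thm (h1 : SQ_WC) : SQ_NU := by
  intro q hq hq4
  have hq5 : (5 : ℝ) ≤ q := by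
    have : 5 ≤ q := by
      have := hq.two_le
      omega
    exact_mod_cast this
  set A : ℝ := ((q : ℝ) + 1) ^ 2 with hA
  set D : ℝ := ((q : ℝ) - 1) ^ 2 / 2 with hD
  have hD0 : 0 < D := by rw [hD]; nlinarith
  set ρ : ℝ := 4 * q + D with hρ
  have hρA : A - D = ρ := by rw [hA, hρ, hD]; ring
  have hρ0 : 0 < ρ := by rw [hρ]; linarith
  have hA0 : 0 < A := by rw [hA]; positivity
  set t : ℝ := Real.log (ρ / (4 * q)) with ht
  have ht0 : 0 < t := by
    rw [ht]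
    apply Real.log_pos
    rw [lt_div_iff₀ (by linarith)]
    rw [hρ]
    linarith
  have hte : Real.exp (-t) * ρ = 4 * q := by
    rw [Real.exp_neg, ht, Real.exp_log (by positivity)]
    have : (q : ℝ) ≠ 0 := by linarith
    field_simp
  set κ : ℝ := 2 / t with hκ
  have hκ0 : 0 < κ := by positivity
  have hlq : 0 < Real.log q := Real.log_pos (by linarith)
  set η : ℝ := 1 / (8 * κ * Real.log q) with hη
  have hη0 : 0 < η := by positivity
  obtain ⟨C, hC, hWC⟩ := h1 η hη0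
  set E : ℝ := Real.exp (1 / (4 * κ)) with hE
  set B : ℝ := 2 * (4 + 2 * C * E + 2 * C * E ^ 2) with hB
  have hexp1 : Real.exp (-(1 / (8 * κ))) < 1 := by
    rw [Real.exp_lt_one_iff]
    have : 0 < 1 / (8 * κ) := by positivity
    linarith
  refine ⟨min D (A * (1 - Real.exp (-(1 / (8 * κ))))), ⌈B ^ 2⌉₊ + 2, ?_, ?_⟩
  · exact lt_min hD0 (mul_pos hA0 (by linarith))
  intro p i hp hp2 hpq hL μ hμ hall
  have hM2 : 2 ≤ p ^ i := by omega
  have hM0 : 0 < p ^ i := by omega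
  have hμρ : ρ ≤ μ := by
    have := min_le_left D (A * (1 - Real.exp (-(1 / (8 * κ)))))
    linarith
  have hμ0 : 0 < μ := by linarith
  have hμA : A * Real.exp (-(1 / (8 * κ))) ≤ μ := by
    have := min_le_right D (A * (1 - Real.exp (-(1 / (8 * κ)))))
    nlinarith
  have hAμ : A ≤ Real.exp (1 / (8 * κ)) * μ := by
    have h2 := mul_le_mul_of_nonneg_left hμA (Real.exp_pos (1 / (8 * κ))).le
    have h3 : Real.exp (1 / (8 * κ)) * (A * Real.exp (-(1 / (8 * κ)))) = A := by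
      rw [mul_left_comm, ← Real.exp_add]
      simp
    linarith
  have haμ : 4 * (q : ℝ) ≤ Real.exp (-t) * μ := by
    rw [← hte]
    exact mul_le_mul_of_nonneg_left hμρ (Real.exp_pos _).le
  have hMr : (1 : ℝ) ≤ ((p ^ i : ℕ) : ℝ) := by exact_mod_cast hM0
  set x : ℝ := Real.log ((p ^ i : ℕ) : ℝ) with hx
  have hx0 : 0 ≤ x := Real.log_nonneg hMr
  have hMx : ((p ^ i : ℕ) : ℝ) = Real.exp x := (Real.exp_log (by linarith)).symm
  set j : ℕ := ⌈κ * x⌉₊ with hj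
  have hj1 : κ * x ≤ j := Nat.le_ceil _
  have hj2 : (j : ℝ) ≤ κ * x + 1 := (Nat.ceil_lt_add_one (by positivity)).le
  have hcop : Nat.Coprime (p ^ i) (2 * q) := by
    apply Nat.Coprime.pow_left
    apply Nat.Coprime.mul_right
    · exact (Nat.coprime_primes hp Nat.prime_two).2 hp2
    · exact (Nat.coprime_primes hp hq).2 hpq
  have hW := hWC q (p ^ i) (2 * j) hq hq4 hM0 hcop
  have h4j : 2 * (2 * j) = 4 * j := by ring
  have htr := hall j
  have hφ := NU_totient p i hp hM2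
  set Y : ℝ := ((q : ℝ) ^ (2 * j)) ^ η with hY
  have hY0 : 0 ≤ Y := by positivity
  have hYb : Y ≤ E * Real.exp (x / 4) := by
    rw [hY, Real.rpow_def_of_pos (by positivity), Real.log_pow, hE, ← Real.exp_add]
    apply Real.exp_le_exp.2
    push_cast
    have h5 : 2 * (j : ℝ) * Real.log q * η = (j : ℝ) / (4 * κ) := by
      rw [hη]
      field_simp
      ring
    rw [h5]
    have h6 : 1 / (4 * κ) + x / 4 = (κ * x + 1) / (4 * κ) := by field_simp; ring
    rw [h6]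
    exact div_le_div_of_nonneg_right hj2 (by positivity)
  have hApow : ((q : ℝ) + 1) ^ (2 * (2 * j)) = A ^ (2 * j) := by
    rw [hA, ← pow_mul]
  have htr2 : ((p ^ i).totient : ℝ) * μ ^ (2 * j) ≤ 2 * (((p ^ i : ℕ) : ℝ) ^ 3 *
      ((4 * (q : ℝ)) ^ (2 * j) * (2 + C * Y / ((p ^ i : ℕ) : ℝ)) +
        C * Y / ((p ^ i : ℕ) : ℝ) ^ 3 * A ^ (2 * j))) := by
    refine htr.trans ?_
    have h7 : (WW q (p ^ i) (4 * j) : ℝ) ≤ (4 * (q : ℝ)) ^ (2 * j) *
        (2 + C * Y / ((p ^ i : ℕ) : ℝ)) + C * Y / ((p ^ i : ℕ) : ℝ) ^ 3 * A ^ (2 * j) := by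
      rw [← hApow, ← h4j]
      exact hW
    gcongr
  have hfin := NU_core (4 * q) A μ t κ x E C Y ((p ^ i : ℕ) : ℝ) ((p ^ i).totient : ℝ) j hμ0 ht0
    hκ hx0 hE hC hY0 hMx hj1 hj2 (by linarith) haμ hA0.le hAμ hYb hφ htr2
  have h8 : ((p ^ i : ℕ) : ℝ) ≤ B ^ 2 := by
    have h9 : ((p ^ i : ℕ) : ℝ) = Real.exp (x / 2) ^ 2 := by
      rw [hMx, ← Real.exp_nat_mul]
      congr 1
      push_cast
      ring
    rw [h9]
    exact pow_le_pow_left₀ (Real.exp_pos _).le hfin 2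
  have h10 : B ^ 2 ≤ (⌈B ^ 2⌉₊ : ℝ) := Nat.le_ceil _
  have h11 : ((⌈B ^ 2⌉₊ + 2 : ℕ) : ℝ) ≤ ((p ^ i : ℕ) : ℝ) := by exact_mod_cast hL
  push_cast at h11 h8
  linarith

end TauQ
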