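import Mathlib
import Pool.Agent.Work.MP_972ac7_tq.Interface

/-!
# Block QG of the property tau theorem for all finite quotients (MP_972ac7_al)
-/

set_option autoImplicit false

open scoped Quaternion BigOperators InnerProductSpace
open Classical

namespace TauQ

/-- a symmetric operator has an eigenvalue above every value of the Rayleigh quotient -/
lemma QG_rayleigh {E : Type*} [NormedAddCommGroup E] [InnerProductSpace ℂ E]
    [FiniteDimensional ℂ E] (T : E →ₗ[ℂ] E) (hT : T.IsSymmetric) (f : E) (c : ℝ)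
    (h : c * ‖f‖ ^ 2 < (⟪T f, f⟫_ℂ).re) :
    ∃ (μ : ℝ) (v : E), v ≠ 0 ∧ T v = (μ : ℂ) • v ∧ c < μ := by
  by_contra hcon
  push Not at hcon
  set n := Module.finrank ℂ E with hn
  set b := hT.eigenvectorBasis hn.symm with hb
  have hle : ∀ i, hT.eigenvalues hn.symm i ≤ c := fun i =>
    hcon _ (b i) (b.orthonormal.ne_zero i) (hT.apply_eigenvectorBasis hn.symm i)
  have h1 : ⟪T f, f⟫_ℂ = ∑ i, ((hT.eigenvalues hn.symm i * ‖⟪b i, f⟫_ℂ‖ ^ 2 : ℝ) : ℂ) := by
    rw [← b.sum_inner_mul_inner (T f) f]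
    refine Finset.sum_congr rfl fun i _ => ?_
    have h2 : ⟪T f, b i⟫_ℂ = (hT.eigenvalues hn.symm i : ℂ) * ⟪f, b i⟫_ℂ := by
      rw [hT f (b i), hb, hT.apply_eigenvectorBasis hn.symm i, inner_smul_right]
      rfl
    rw [h2, mul_assoc, ← inner_conj_symm f (b i), Complex.conj_mul']
    push_cast
    rfl
  have h2 : (⟪T f, f⟫_ℂ).re = ∑ i, hT.eigenvalues hn.symm i * ‖⟪b i, f⟫_ℂ‖ ^ 2 := by
    rw [h1, ← Complex.ofReal_sum, Complex.ofReal_re]
  have h3 : ∑ i, hT.eigenvalues hn.symm i * ‖⟪b i, f⟫_ℂ‖ ^ 2 ≤ c * ‖f‖ ^ 2 := by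
    rw [← b.sum_sq_norm_inner_right f, Finset.mul_sum]
    exact Finset.sum_le_sum fun i _ => mul_le_mul_of_nonneg_right (hle i) (by positivity)
  linarith

section gen

variable {Z ι : Type} [Fintype Z] [Fintype ι]

/-- the operator `f ↦ ∑ f ∘ τ_i` -/
noncomputable def QG_T (τ : ι → Equiv.Perm Z) : EuclideanSpace ℂ Z →ₗ[ℂ] EuclideanSpace ℂ Z where
  toFun f := WithLp.toLp 2 (fun z => ∑ i, f (τ i z))
  map_add' f g := by
    ext z
    simp [Finset.sum_add_distrib]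
  map_smul' c f := by
    ext z
    simp [Finset.mul_sum]

lemma QG_T_apply (τ : ι → Equiv.Perm Z) (f : EuclideanSpace ℂ Z) (z : Z) :
    QG_T τ f z = ∑ i, f (τ i z) := rfl

lemma QG_inner (f g : EuclideanSpace ℂ Z) :
    ⟪f, g⟫_ℂ = ∑ z, (starRingEnd ℂ) (f z) * g z := by
  rw [PiLp.inner_apply]
  refine Finset.sum_congr rfl fun z _ => ?_
  rw [RCLike.inner_apply, mul_comm]

lemma QG_symm (τ : ι → Equiv.Perm Z) (inv : ι → ι) (h1 : ∀ i, inv (inv i) = i)
    (h2 : ∀ i, τ (inv i) = (τ i)⁻¹) : (QG_T τ).IsSymmetric := by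
  intro f g
  rw [QG_inner, QG_inner]
  have e1 : ∀ z, (starRingEnd ℂ) (QG_T τ f z) * g z = ∑ i, (starRingEnd ℂ) (f (τ i z)) * g z := by
    intro z
    rw [QG_T_apply, map_sum, Finset.sum_mul]
  have e2 : ∀ z, (starRingEnd ℂ) (f z) * QG_T τ g z = ∑ i, (starRingEnd ℂ) (f z) * g (τ i z) := by
    intro z
    rw [QG_T_apply, Finset.mul_sum]
  simp only [e1, e2]
  rw [Finset.sum_comm]
  rw [Finset.sum_comm (f := fun z i => (starRingEnd ℂ) (f z) * g (τ i z))]
  let σ : Equiv.Perm ι := ⟨inv, inv, h1, h1⟩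
  rw [← Equiv.sum_comp σ (fun i => ∑ z, (starRingEnd ℂ) (f z) * g (τ i z))]
  refine Finset.sum_congr rfl fun i _ => ?_
  rw [← Equiv.sum_comp (τ i) (fun z => (starRingEnd ℂ) (f z) * g (τ (σ i) z))]
  refine Finset.sum_congr rfl fun z _ => ?_
  have : τ (σ i) (τ i z) = z := by
    change τ (inv i) (τ i z) = z
    rw [h2]
    exact (τ i).symm_apply_apply z
  rw [this]

lemma QG_norm_sub (a b : ℂ) :
    ‖a - b‖ ^ 2 = ‖a‖ ^ 2 + ‖b‖ ^ 2 - 2 * ((starRingEnd ℂ) a * b).re := by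
  rw [← Complex.normSq_eq_norm_sq, ← Complex.normSq_eq_norm_sq, ← Complex.normSq_eq_norm_sq,
    Complex.normSq_sub]
  have : (a * (starRingEnd ℂ) b).re = ((starRingEnd ℂ) a * b).re := by
    simp
  rw [this]

lemma QG_var (τ : ι → Equiv.Perm Z) (f : Z → ℂ) :
    ∑ i, ∑ z, ‖f (τ i z) - f z‖ ^ 2 = 2 * (Fintype.card ι) * ∑ z, ‖f z‖ ^ 2
      - 2 * (∑ z, (starRingEnd ℂ) (∑ i, f (τ i z)) * f z).re := by
  have h : ∀ i, ∑ z, ‖f (τ i z) - f z‖ ^ 2 = 2 * ∑ z, ‖f z‖ ^ 2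
      - 2 * ∑ z, ((starRingEnd ℂ) (f (τ i z)) * f z).re := by
    intro i
    have e : ∑ z, ‖f (τ i z)‖ ^ 2 = ∑ z, ‖f z‖ ^ 2 :=
      Equiv.sum_comp (τ i) (fun z => ‖f z‖ ^ 2)
    simp only [QG_norm_sub]
    rw [Finset.sum_sub_distrib, Finset.sum_add_distrib, e, ← Finset.mul_sum]
    ring
  simp only [h]
  rw [Finset.sum_sub_distrib, Finset.sum_const, Finset.card_univ, nsmul_eq_mul, ← Finset.mul_sum,
    Finset.sum_comm]
  have e2 : (∑ z, (starRingEnd ℂ) (∑ i, f (τ i z)) * f z).re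
      = ∑ z, ∑ i, ((starRingEnd ℂ) (f (τ i z)) * f z).re := by
    rw [Complex.re_sum]
    refine Finset.sum_congr rfl fun z _ => ?_
    rw [map_sum, Finset.sum_mul, Complex.re_sum]
  rw [e2]
  ring

/-- the functions with zero sum on the classes of `χ` -/
noncomputable def QG_W (χ : Z → ℤˣ) : Submodule ℂ (EuclideanSpace ℂ Z) where
  carrier := {f | ∀ κ, ∑ z, (if χ z = κ then f z else 0) = 0}
  add_mem' := by
    intro f g hf hg
    simp only [Set.mem_ofPred_eq] at hf hg ⊢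
    intro κ
    have e : ∀ z, (if χ z = κ then (f + g) z else 0) =
        (if χ z = κ then f z else 0) + (if χ z = κ then g z else 0) := by
      intro z
      split_ifs
      · rfl
      · simp
    simp only [e]
    rw [Finset.sum_add_distrib, hf κ, hg κ, add_zero]
  zero_mem' := by
    simp
  smul_mem' := by
    intro c f hf
    simp only [Set.mem_ofPred_eq] at hf ⊢
    intro κ
    have e : ∀ z, (if χ z = κ then (c • f) z else 0) = c * (if χ z = κ then f z else 0) := by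
      intro z
      split_ifs
      · rfl
      · simp
    simp only [e]
    rw [← Finset.mul_sum, hf κ, mul_zero]

lemma QG_mem_W (χ : Z → ℤˣ) (f : EuclideanSpace ℂ Z) :
    f ∈ QG_W χ ↔ ∀ κ, ∑ z, (if χ z = κ then f z else 0) = 0 := Iff.rfl

lemma QG_T_mem (τ : ι → Equiv.Perm Z) (χ : Z → ℤˣ) (hχ : ∀ i z, χ (τ i z) = χ z) :
    ∀ f ∈ QG_W χ, QG_T τ f ∈ QG_W χ := by
  intro f hf
  rw [QG_mem_W] at hf ⊢
  intro κ
  have e : ∀ z, (if χ z = κ then QG_T τ f z else 0) = ∑ i, (if χ (τ i z) = κ then f (τ i z) else 0) := by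
    intro z
    simp only [hχ]
    split_ifs
    · rfl
    · simp
  simp only [e]
  rw [Finset.sum_comm]
  refine Finset.sum_eq_zero fun i _ => ?_
  rw [Equiv.sum_comp (τ i) (fun z => if χ z = κ then f z else 0), hf κ]

/-- failure of the Poincare inequality gives an eigenfunction -/
theorem QG_eigen (τ : ι → Equiv.Perm Z) (inv : ι → ι) (h1 : ∀ i, inv (inv i) = i)
    (h2 : ∀ i, τ (inv i) = (τ i)⁻¹) (χ : Z → ℤˣ) (hχ : ∀ i z, χ (τ i z) = χ z) (f : Z → ℂ)
    (hf : ∀ κ, ∑ z, (if χ z = κ then f z else 0) = 0) (g : ℝ)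
    (h : ∑ i, ∑ z, ‖f (τ i z) - f z‖ ^ 2 < 2 * g * ∑ z, ‖f z‖ ^ 2) :
    ∃ (μ : ℝ) (F : Z → ℂ), F ≠ 0 ∧ (∀ κ, ∑ z, (if χ z = κ then F z else 0) = 0) ∧
      (∀ z, ∑ i, F (τ i z) = (μ : ℂ) * F z) ∧ (Fintype.card ι : ℝ) - g < μ := by
  let f' : QG_W χ := ⟨WithLp.toLp 2 f, hf⟩
  have hsym := (QG_symm τ inv h1 h2).restrict_invariant (QG_T_mem τ χ hχ)
  have hnorm : ‖f'‖ ^ 2 = ∑ z, ‖f z‖ ^ 2 := by
    rw [Submodule.coe_norm]
    exact EuclideanSpace.norm_sq_eq _
  have hinner : ⟪(QG_T τ).restrict (QG_T_mem τ χ hχ) f', f'⟫_ℂ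
      = ∑ z, (starRingEnd ℂ) (∑ i, f (τ i z)) * f z := by
    rw [Submodule.coe_inner, QG_inner]
    rfl
  obtain ⟨μ, v, hv0, hv, hμ⟩ := QG_rayleigh _ hsym f' ((Fintype.card ι : ℝ) - g) (by
    rw [hnorm, hinner]
    have := QG_var τ f
    rw [this] at h
    linarith)
  refine ⟨μ, fun z => (v : EuclideanSpace ℂ Z) z, ?_, v.2, ?_, hμ⟩
  · intro h0
    apply hv0
    apply Subtype.ext
    ext z
    exact congrFun h0 z
  · intro z
    have := congrArg (fun w : QG_W χ => (w : EuclideanSpace ℂ Z) z) hv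
    exact this

end gen

/-- a function invariant under the generators, with zero sum, is zero -/
theorem QG_inv {A B : Type} {h : VH A B} {Q : Type} [Group Q] [Fintype Q] (r : Rep h Q)
    (w : Q → ℂ) (ha : ∀ a x, w (r.al a * x) = w x) (hb : ∀ b x, w (r.be b * x) = w x)
    (hs : ∑ x, w x = 0) : w = 0 := by
  have h1 : ∀ g : Q, ∀ x, w (g * x) = w x := by
    intro g
    have hg : g ∈ Subgroup.closure (Set.range r.al ∪ Set.range r.be) := by
      rw [r.gen]; trivial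
    induction hg using Subgroup.closure_induction with
    | mem g hg =>
      rcases hg with ⟨a, rfl⟩ | ⟨b, rfl⟩
      · exact ha a
      · exact hb b
    | one => intro x; rw [one_mul]
    | mul g g' _ _ i1 i2 => intro x; rw [mul_assoc, i1, i2]
    | inv g _ i1 => intro x; rw [← i1 (g⁻¹ * x), mul_inv_cancel_left]
  have h2 : ∀ x, w x = w 1 := fun x => by
    have := h1 x 1
    rwa [mul_one] at this
  have h3 : (Fintype.card Q : ℂ) * w 1 = 0 := by
    rw [← hs]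
    simp only [h2, Finset.sum_const, Finset.card_univ, nsmul_eq_mul]
  have hQ : (Fintype.card Q : ℂ) ≠ 0 := by exact_mod_cast Fintype.card_ne_zero
  have h4 : w 1 = 0 := by
    rcases mul_eq_zero.1 h3 with h | h
    · exact absurd h hQ
    · exact h
  funext x
  rw [h2 x, h4]; rfl

/-- if `m w(s x) = lam w(x)` then `lam = m` or `lam = -m` -/
theorem QG_pm {Q : Type} [Group Q] [Fintype Q] (s : Q) (w : Q → ℂ) (hw : w ≠ 0) (m lam : ℝ)
    (h : ∀ x, (m : ℂ) * w (s * x) = (lam : ℂ) * w x) : lam = m ∨ lam = -m := by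
  have h1 : ∑ x, ‖w (s * x)‖ ^ 2 = ∑ x, ‖w x‖ ^ 2 :=
    Equiv.sum_comp (Equiv.mulLeft s) (fun x => ‖w x‖ ^ 2)
  have h2 : m ^ 2 * ∑ x, ‖w (s * x)‖ ^ 2 = lam ^ 2 * ∑ x, ‖w x‖ ^ 2 := by
    rw [Finset.mul_sum, Finset.mul_sum]
    refine Finset.sum_congr rfl fun x _ => ?_
    have h3 := congrArg (fun z : ℂ => ‖z‖ ^ 2) (h x)
    simp only [norm_mul, mul_pow, Complex.norm_real, Real.norm_eq_abs, sq_abs] at h3
    exact h3
  rw [h1] at h2
  have h3 : 0 < ∑ x, ‖w x‖ ^ 2 := by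
    obtain ⟨x, hx⟩ := Function.ne_iff.1 hw
    refine Finset.sum_pos' (fun y _ => sq_nonneg _) ⟨x, Finset.mem_univ x, ?_⟩
    have : 0 < ‖w x‖ := norm_pos_iff.2 hx
    positivity
  have h4 : m ^ 2 = lam ^ 2 := mul_right_cancel₀ h3.ne' h2
  rcases sq_eq_sq_iff_eq_or_eq_neg.1 h4.symm with h5 | h5
  · exact Or.inl h5
  · exact Or.inr h5

/-- there is a quaternion in `OO` of norm `q` -/
theorem QG_ne (q : ℕ) (hq : q.Prime) (hq4 : q % 4 = 1) : Nonempty (SS q) := by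
  have hF : Fact q.Prime := ⟨hq⟩
  obtain ⟨a, b, hab⟩ := Nat.Prime.sq_add_sq (p := q) (by omega)
  have key : ∀ a b : ℕ, a ^ 2 + b ^ 2 = q → a % 2 = 1 → b % 2 = 0 → Nonempty (SS q) := by
    intro a b hab ha hb
    have hbz : (2 : ℤ) ∣ (b : ℤ) := by
      have : (2 : ℕ) ∣ b := Nat.dvd_of_mod_eq_zero hb
      exact_mod_cast this
    obtain ⟨c, hc, hc2⟩ : ∃ c : ℤ, c % 4 = 1 ∧ c ^ 2 = (a : ℤ) ^ 2 := by
      have h4 : a % 4 = 1 ∨ a % 4 = 3 := by omega
      rcases h4 with h4 | h4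
      · exact ⟨a, by omega, rfl⟩
      · exact ⟨-a, by omega, by ring⟩
    refine ⟨⟨⟨c, (b : ℤ), 0, 0⟩, ⟨hc, hbz, dvd_zero _, dvd_zero _⟩, ?_⟩⟩
    rw [Quaternion.normSq_def']
    show c ^ 2 + (b : ℤ) ^ 2 + 0 ^ 2 + 0 ^ 2 = (q : ℤ)
    rw [hc2]
    have : ((a ^ 2 + b ^ 2 : ℕ) : ℤ) = (q : ℤ) := by rw [hab]
    push_cast at this
    linarith
  have hpar : (a ^ 2 + b ^ 2) % 2 = 1 := by rw [hab]; omega
  rcases Nat.mod_two_eq_zero_or_one a with ha | ha <;>
    rcases Nat.mod_two_eq_zero_or_one b with hb | hb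
  · exfalso
    have h1 : (a ^ 2) % 2 = 0 := by rw [Nat.pow_mod, ha]
    have h2 : (b ^ 2) % 2 = 0 := by rw [Nat.pow_mod, hb]
    omega
  · exact key b a (by rw [← hab]; ring) hb ha
  · exact key a b hab ha hb
  · exfalso
    have h1 : (a ^ 2) % 2 = 1 := by rw [Nat.pow_mod, ha]
    have h2 : (b ^ 2) % 2 = 1 := by rw [Nat.pow_mod, hb]
    omega

theorem QG_swap {p q : ℕ} (h : VH (SS p) (SS q)) (hQ : IsQVH h) : IsQVH h.swap := by
  refine ⟨hQ.2.1, hQ.1, ?_⟩
  intro b a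
  have e : h.vh ((h.vh.symm (b, a)).1, (h.vh.symm (b, a)).2) = (b, a) := by
    rw [Prod.mk.eta, Equiv.apply_symm_apply]
  have h1 := hQ.2.2 (h.vh.symm (b, a)).1 (h.vh.symm (b, a)).2
  rw [e] at h1
  exact h1.symm

theorem QG_thm (hSI : SQ_SI) (hJ : Stmt_joint) : SQ_QG := by
  intro p q hp hq hp4 hq4 hpq
  obtain ⟨δ1, hδ1, H1⟩ := hSI p q hp hq hp4 hq4 hpq
  obtain ⟨δ2, hδ2, H2⟩ := hSI q p hq hp hq4 hp4 hpq.symm
  obtain ⟨a0⟩ := QG_ne p hp hp4
  obtain ⟨b0⟩ := QG_ne q hq hq4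
  have hm : (1 : ℝ) ≤ Fintype.card (SS p) := by
    have : 0 < Fintype.card (SS p) := Fintype.card_pos_iff.2 ⟨a0⟩
    exact_mod_cast this
  have hn : (1 : ℝ) ≤ Fintype.card (SS q) := by
    have : 0 < Fintype.card (SS q) := Fintype.card_pos_iff.2 ⟨b0⟩
    exact_mod_cast this
  refine ⟨min δ1 1, lt_min hδ1 one_pos, ?_⟩
  intro h hQ Q _ _ r f hf
  by_contra hcon
  push Not at hcon
  obtain ⟨μ, F, hF0, hFz, hFe, hμ⟩ := QG_eigen (fun b : SS q => Equiv.mulLeft (r.be b)) h.invB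
    h.invB_invB (by
      intro b
      ext x
      show r.be (h.invB b) * x = (r.be b)⁻¹ * x
      rw [r.be_inv]) (fun x => r.chiA x) (by
      intro b x
      show r.chiA (r.be b * x) = r.chiA x
      rw [map_mul, r.chiA_be, one_mul]) f hf (min δ1 1) hcon
  have hμ1 : (Fintype.card (SS q) : ℝ) - δ1 ≤ μ := by
    have := min_le_left δ1 (1 : ℝ)
    linarith
  have hμ2 : (Fintype.card (SS q) : ℝ) - 1 < μ := by
    have := min_le_right δ1 (1 : ℝ)
    linarith
  -- sums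
  have hcls : ∀ x, F x = (if r.chiA x = 1 then F x else 0) + (if r.chiA x = -1 then F x else 0) := by
    intro x
    rcases Int.units_eq_one_or (r.chiA x) with e | e <;> rw [e] <;> simp
  have hcls' : ∀ x, (((r.chiA x : ℤˣ) : ℤ) : ℂ) * F x =
      (if r.chiA x = 1 then F x else 0) - (if r.chiA x = -1 then F x else 0) := by
    intro x
    rcases Int.units_eq_one_or (r.chiA x) with e | e <;> rw [e] <;> simp
  have hs : ∑ x, F x = 0 := by
    rw [Finset.sum_congr rfl fun x _ => hcls x, Finset.sum_add_distrib]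
    have e1 := hFz 1
    have e2 := hFz (-1)
    rw [e1, e2, add_zero]
  have hs' : ∑ x, (((r.chiA x : ℤˣ) : ℤ) : ℂ) * F x = 0 := by
    rw [Finset.sum_congr rfl fun x _ => hcls' x, Finset.sum_sub_distrib]
    have e1 := hFz 1
    have e2 := hFz (-1)
    rw [e1, e2, sub_zero]
  obtain ⟨w, lam, hw0, -, hwB, hws, hws', hwA⟩ := hJ (SS p) (SS q) h Q r ⊥ bot_le F (fun _ => 1)
    ((Fintype.card (SS q) : ℝ) - μ) hF0 (by
      intro d hd x
      rw [Subgroup.mem_bot] at hd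
      rw [hd, mul_one, one_mul]) (by
      intro x
      have := hFe x
      rw [show ((Fintype.card (SS q) : ℂ) - (((Fintype.card (SS q) : ℝ) - μ : ℝ) : ℂ)) = (μ : ℂ) by
        push_cast; ring]
      exact this) hs hs'
  have hwB' : ∀ x, ∑ b, w (r.be b * x) = (μ : ℂ) * w x := by
    intro x
    rw [hwB x]
    push_cast
    ring
  have hA1 := H1 h hQ Q r w μ hμ1 hwB'
  have hA2 : ∀ x, ((Fintype.card (SS p) : ℝ) : ℂ) * w (r.al a0 * x) = (lam : ℂ) * w x := by
    intro x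
    rw [← hwA x, Finset.sum_congr rfl fun a _ => hA1 a a0 x, Finset.sum_const, Finset.card_univ,
      nsmul_eq_mul]
    push_cast
    rfl
  -- a function invariant on the left under all al a
  obtain ⟨v, hv0, hvB, hvs, hvA⟩ : ∃ v : Q → ℂ, v ≠ 0 ∧ (∀ x, ∑ b, v (r.be b * x) = (μ : ℂ) * v x) ∧
      ∑ x, v x = 0 ∧ ∀ a x, v (r.al a * x) = v x := by
    have hmR : (Fintype.card (SS p) : ℝ) ≠ 0 :=
      (lt_of_lt_of_le zero_lt_one hm).ne'
    have hmC : ((Fintype.card (SS p) : ℝ) : ℂ) ≠ 0 := Complex.ofReal_ne_zero.2 hmR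
    rcases QG_pm (r.al a0) w hw0 _ lam hA2 with hl | hl
    · refine ⟨w, hw0, hwB', hws, ?_⟩
      intro a x
      rw [hA1 a a0 x]
      have := hA2 x
      rw [hl] at this
      exact mul_left_cancel₀ hmC this
    · refine ⟨fun x => (((r.chiA x : ℤˣ) : ℤ) : ℂ) * w x, ?_, ?_, hws', ?_⟩
      · intro h0
        apply hw0
        funext x
        have h1 := congrFun h0 x
        simp only [Pi.zero_apply, mul_eq_zero] at h1 ⊢
        rcases h1 with h1 | h1
        · rcases Int.units_eq_one_or (r.chiA x) with e | e <;> rw [e] at h1 <;> simp at h1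
        · exact h1
      · intro x
        simp only [map_mul, r.chiA_be, one_mul, ← Finset.mul_sum, hwB']
        ring
      · intro a x
        simp only [map_mul, r.chiA_al, Units.val_mul, Units.val_neg, Units.val_one, Int.cast_mul,
          Int.cast_neg, Int.cast_one]
        rw [hA1 a a0 x]
        have := hA2 x
        rw [hl] at this
        have h3 : w (r.al a0 * x) = - w x := by
          apply mul_left_cancel₀ hmC
          rw [this]
          push_cast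
          ring
        rw [h3]
        ring
  -- the other side
  have hB1 := H2 h.swap (QG_swap h hQ) Q r.swap v (Fintype.card (SS p) : ℝ) (by linarith) (by
    intro x
    show ∑ a, v (r.al a * x) = _
    rw [Finset.sum_congr rfl fun a _ => hvA a x, Finset.sum_const, Finset.card_univ, nsmul_eq_mul]
    push_cast
    rfl)
  have hB1' : ∀ b b' z, v (r.be b * z) = v (r.be b' * z) := hB1
  have hB2 : ∀ x, ((Fintype.card (SS q) : ℝ) : ℂ) * v (r.be b0 * x) = (μ : ℂ) * v x := by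
    intro x
    rw [← hvB x, Finset.sum_congr rfl fun b _ => hB1' b b0 x, Finset.sum_const, Finset.card_univ,
      nsmul_eq_mul]
    push_cast
    rfl
  rcases QG_pm (r.be b0) v hv0 _ μ hB2 with hl | hl
  · apply hv0
    refine QG_inv r v hvA ?_ hvs
    intro b x
    rw [hB1' b b0 x]
    have := hB2 x
    rw [hl] at this
    have hnR : (Fintype.card (SS q) : ℝ) ≠ 0 :=
      (lt_of_lt_of_le zero_lt_one hn).ne'
    have hnC : ((Fintype.card (SS q) : ℝ) : ℂ) ≠ 0 := Complex.ofReal_ne_zero.2 hnR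
    exact mul_left_cancel₀ hnC this
  · linarith

end TauQ
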