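import Mathlib
import Pool.Agent.Work.MP_972ac7_tq.Interface

/-! # SI: near-top `B`-eigenfunctions on finite quotients (MP_972ac7, note 2900, by helper74) -/

open scoped Quaternion BigOperators Matrix ComplexOrder

namespace TauQ

theorem SI_fib {X W : Type} [Fintype X] [Fintype W] (θ : X → W) (c : ℕ)
    (hc : ∀ w, Nat.card {x // θ x = w} = c) (f : W → ℂ) :
    ∑ x, f (θ x) = c * ∑ w, f w := by
  classical
  rw [Finset.mul_sum, ← Finset.sum_fiberwise' Finset.univ θ f]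
  refine Finset.sum_congr rfl fun w _ => ?_
  rw [Finset.sum_const, nsmul_eq_mul]
  congr 2
  rw [← hc w, Nat.card_eq_fintype_card, Fintype.card_subtype]

theorem SI_energy {Z ι : Type} [Fintype Z] [Fintype ι] (τ : ι → Equiv.Perm Z) (F : Z → ℂ)
    (lam : ℝ) (hF : ∀ z, ∑ b, F (τ b z) = (lam : ℂ) * F z) :
    ∑ b, ∑ z, ‖F (τ b z) - F z‖ ^ 2 = 2 * (Fintype.card ι - lam) * ∑ z, ‖F z‖ ^ 2 := by
  have h1 : ∀ b, ∑ z, ‖F (τ b z) - F z‖ ^ 2 = 2 * ∑ z, ‖F z‖ ^ 2 -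
      2 * ∑ z, (F (τ b z) * (starRingEnd ℂ) (F z)).re := by
    intro b
    have h2 : ∑ z, ‖F (τ b z)‖ ^ 2 = ∑ z, ‖F z‖ ^ 2 :=
      Equiv.sum_comp (τ b) (fun z => ‖F z‖ ^ 2)
    have h3 : ∀ z, ‖F (τ b z) - F z‖ ^ 2 = ‖F (τ b z)‖ ^ 2 + ‖F z‖ ^ 2 -
        2 * (F (τ b z) * (starRingEnd ℂ) (F z)).re := by
      intro z
      rw [Complex.sq_norm, Complex.sq_norm, Complex.sq_norm, Complex.normSq_sub]
    rw [Finset.sum_congr rfl fun z _ => h3 z, Finset.sum_sub_distrib, Finset.sum_add_distrib, h2,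
      ← Finset.mul_sum]
    ring
  rw [Finset.sum_congr rfl fun b _ => h1 b, Finset.sum_sub_distrib, Finset.sum_const,
    Finset.card_univ, nsmul_eq_mul, ← Finset.mul_sum, Finset.sum_comm]
  have h4 : ∀ z, ∑ b, (F (τ b z) * (starRingEnd ℂ) (F z)).re = lam * ‖F z‖ ^ 2 := by
    intro z
    rw [← Complex.re_sum, ← Finset.sum_mul, hF z, mul_assoc, Complex.mul_conj,
      ← Complex.ofReal_mul, Complex.ofReal_re, Complex.sq_norm]
  rw [Finset.sum_congr rfl fun z _ => h4 z, ← Finset.mul_sum]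
  ring

theorem SI_thm (hLA : SQ_LA) (hWD : SQ_WD) (hAC : SQ_AC) (hTG : SQ_TG) (hcard : Stmt_card) :
    SQ_SI := by
  classical
  intro p q hp hq hp4 hq4 hpq
  obtain ⟨g, O, hg, hgap⟩ := hTG p q hp hq hp4 hq4 hpq
  have hn := hcard q hq hq4
  have hm := hcard p hp hp4
  obtain ⟨n, hnn⟩ : ∃ n : ℝ, n = Fintype.card (SS q) := ⟨_, rfl⟩
  have hn0 : 0 < n := by
    rw [hnn, hn]
    positivity
  refine ⟨min n (g / (8 * n)), lt_min hn0 (by positivity), ?_⟩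
  intro h hh Q _ _ r v lam hlam hv
  rw [← hnn] at hlam
  by_contra hcon
  push Not at hcon
  obtain ⟨a₀, a₁, z₀, hne⟩ := hcon
  -- the parameter
  obtain ⟨R, hR⟩ : ∃ R : ℕ, R = 4 * (Fintype.card Q * O) + 1 := ⟨_, rfl⟩
  have : NeZero (p ^ (R + 1)) := ⟨pow_ne_zero _ hp.ne_zero⟩
  have hM : Nat.Coprime q (p ^ (R + 1)) :=
    Nat.Coprime.pow_right _ ((Nat.coprime_primes hq hp).2 hpq.symm)
  obtain ⟨N, hN1, hN2, hN3⟩ := hWD (SS p) (SS q) h (by rw [hm]; have := hp.two_le; omega) R Q r v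
    (lam : ℂ) hv ⟨a₀, a₁, z₀, hne⟩
  obtain ⟨θ, c, hc, hθ, hfib⟩ := hAC p q hp hq hp4 hq4 hpq h hh (R + 1) hM (Nat.succ_pos _)
  obtain ⟨o, ho, hφ⟩ := hgap (R + 1) hM
  -- the functions
  obtain ⟨G, hG⟩ : ∃ G : Fin R → unitary ℍ[ZMod (p ^ (R + 1))] × Q → ℂ,
    G = fun i z => N i (θ z.1, z.2) := ⟨_, rfl⟩
  have hGsum : ∀ i j, ∑ z, G i z * (starRingEnd ℂ) (G j z) =
      c * ∑ z, N i z * (starRingEnd ℂ) (N j z) := by
    intro i j
    rw [hG]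
    simp only
    rw [Fintype.sum_prod_type_right, Fintype.sum_prod_type_right, Finset.mul_sum]
    refine Finset.sum_congr rfl fun y _ => ?_
    exact SI_fib θ c hfib (fun w => N i (w, y) * (starRingEnd ℂ) (N j (w, y)))
  have hnorm : ∀ (Z : Type) [Fintype Z] (F : Z → ℂ), ∑ z, F z * (starRingEnd ℂ) (F z) =
      ((∑ z, ‖F z‖ ^ 2 : ℝ) : ℂ) := by
    intro Z _ F
    push_cast
    refine Finset.sum_congr rfl fun z _ => ?_
    rw [Complex.mul_conj, Complex.normSq_eq_norm_sq]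
    push_cast
    rfl
  have hs : ∀ i, 0 < ∑ z, ‖G i z‖ ^ 2 := by
    intro i
    have h1 := hGsum i i
    rw [hnorm, hnorm] at h1
    have h2 : ∑ z, ‖G i z‖ ^ 2 = c * ∑ z, ‖N i z‖ ^ 2 := by exact_mod_cast h1
    rw [h2]
    refine mul_pos (by exact_mod_cast hc) ?_
    obtain ⟨z, hz⟩ := Function.ne_iff.1 (hN2 i)
    refine Finset.sum_pos' (fun _ _ => by positivity) ⟨z, Finset.mem_univ _, ?_⟩
    have : N i z ≠ 0 := hz
    positivity
  obtain ⟨τ, hτ⟩ : ∃ τ : SS q × SS q → Equiv.Perm (unitary ℍ[ZMod (p ^ (R + 1))] × Q),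
    τ = fun b => Equiv.prodCongr (Equiv.mulLeft (uM (p ^ (R + 1)) hM b.1 b.2))
      (Equiv.mulLeft (r.be b.1 * r.be b.2)) := ⟨_, rfl⟩
  have hGeig : ∀ i z, ∑ b, G i (τ b z) = ((lam ^ 2 : ℝ) : ℂ) * G i z := by
    intro i z
    have h1 : ∀ b : SS q × SS q, G i (τ b z) =
        N i (h.act (R + 1) b.1 (h.act (R + 1) b.2 (θ z.1)), r.be b.1 * (r.be b.2 * z.2)) := by
      intro b
      rw [hG, hτ]
      show N i (θ (uM (p ^ (R + 1)) hM b.1 b.2 * z.1), (r.be b.1 * r.be b.2) * z.2) = _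
      rw [hθ, mul_assoc]
    rw [Finset.sum_congr rfl fun b _ => h1 b, Fintype.sum_prod_type_right]
    simp only
    have h2 : ∀ b : SS q, ∑ b' : SS q,
        N i (h.act (R + 1) b' (h.act (R + 1) b (θ z.1)), r.be b' * (r.be b * z.2)) =
        (lam : ℂ) * N i (h.act (R + 1) b (θ z.1), r.be b * z.2) := fun b => hN3 i _ _
    rw [Finset.sum_congr rfl fun b _ => h2 b, ← Finset.mul_sum, hN3 i, hG]
    push_cast
    ring
  obtain ⟨F, hF⟩ : ∃ F : Fin R → unitary ℍ[ZMod (p ^ (R + 1))] × Q → ℂ,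
    F = fun i z => (((√(∑ z, ‖G i z‖ ^ 2))⁻¹ : ℝ) : ℂ) * G i z := ⟨_, rfl⟩
  have hFeig : ∀ i z, ∑ b, F i (τ b z) = ((lam ^ 2 : ℝ) : ℂ) * F i z := by
    intro i z
    rw [hF]
    simp only
    rw [← Finset.mul_sum, hGeig]
    ring
  have hForth : ∀ i j, ∑ z, F i z * (starRingEnd ℂ) (F j z) = if i = j then ((1 : ℝ) : ℂ) else 0 := by
    intro i j
    have h1 : ∑ z, F i z * (starRingEnd ℂ) (F j z) = (((√(∑ z, ‖G i z‖ ^ 2))⁻¹ : ℝ) : ℂ) *
        (((√(∑ z, ‖G j z‖ ^ 2))⁻¹ : ℝ) : ℂ) * ∑ z, G i z * (starRingEnd ℂ) (G j z) := by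
      rw [Finset.mul_sum]
      refine Finset.sum_congr rfl fun z _ => ?_
      rw [hF]
      simp only
      rw [map_mul, Complex.conj_ofReal]
      ring
    rw [h1]
    split_ifs with hij
    · subst hij
      rw [hnorm, ← Complex.ofReal_mul, ← Complex.ofReal_mul]
      congr 1
      rw [← mul_inv, Real.mul_self_sqrt (hs i).le]
      exact inv_mul_cancel₀ (hs i).ne'
    · rw [hGsum, hN1 i j hij, mul_zero, mul_zero]
  have hcι : (Fintype.card (SS q × SS q) : ℝ) = n ^ 2 := by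
    rw [Fintype.card_prod, hnn]
    push_cast
    ring
  have hF1 : ∀ i, ∑ z, ‖F i z‖ ^ 2 = 1 := by
    intro i
    have h1 := hForth i i
    rw [hnorm, if_pos rfl] at h1
    exact_mod_cast h1
  have hen : ∀ i, ∑ b, ∑ z, ‖F i (τ b z) - F i z‖ ^ 2 = 2 * (n ^ 2 - lam ^ 2) * 1 := by
    intro i
    rw [SI_energy τ (F i) (lam ^ 2) (hFeig i), hcι, hF1]
  have hε0 : 0 ≤ n ^ 2 - lam ^ 2 := by
    have h1 := hen ⟨0, by omega⟩
    have h2 : 0 ≤ ∑ b, ∑ z, ‖F ⟨0, by omega⟩ (τ b z) - F ⟨0, by omega⟩ z‖ ^ 2 :=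
      Finset.sum_nonneg fun _ _ => Finset.sum_nonneg fun _ _ => by positivity
    rw [h1] at h2
    linarith
  have hεg : n ^ 2 - lam ^ 2 ≤ g / 4 := by
    have h1 : min n (g / (8 * n)) ≤ n := min_le_left _ _
    have h2 : min n (g / (8 * n)) ≤ g / (8 * n) := min_le_right _ _
    obtain ⟨d, hd⟩ : ∃ d, d = min n (g / (8 * n)) := ⟨_, rfl⟩
    rw [← hd] at h1 h2 hlam
    have h3 : d * (8 * n) ≤ g := by
      rwa [le_div_iff₀ (by positivity)] at h2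
    have h4 : 0 ≤ n - d := by linarith
    have h5 : (n - d) ^ 2 ≤ lam ^ 2 := pow_le_pow_left₀ h4 hlam 2
    nlinarith [sq_nonneg d]
  have hfinal := hLA (unitary ℍ[ZMod (p ^ (R + 1))]) Q (SS q × SS q)
    (fun b => Equiv.mulLeft (uM (p ^ (R + 1)) hM b.1 b.2)) τ O o g 1 (n ^ 2 - lam ^ 2) R F
    (by
      intro b z
      rw [hτ]
      rfl)
    (fun b x => ho b.1 b.2 x) hg one_pos hε0 (by linarith)
    (by
      intro φ hφ0
      rw [Fintype.sum_prod_type]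
      exact hφ φ hφ0)
    hForth (fun i => (hen i).le)
  have h1 : (1 / 4 : ℝ) ≤ (1 - 2 * (n ^ 2 - lam ^ 2) / g) ^ 2 := by
    have h2 : 2 * (n ^ 2 - lam ^ 2) / g ≤ 1 / 2 := by
      rw [div_le_iff₀ hg]
      linarith
    nlinarith
  have h2 : (R : ℝ) * (1 / 4) ≤ Fintype.card Q * O :=
    (mul_le_mul_of_nonneg_left h1 (Nat.cast_nonneg _)).trans hfinal
  rw [hR] at h2
  push_cast at h2
  linarith

end TauQ
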