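import Mathlib
import Pool.Agent.Work.MP_972ac7_tq.Interface

/-!
# Block WC: words of length `2k` whose product is a scalar modulo `M`, with binomials
-/

open scoped Quaternion BigOperators

namespace TauQ

/-- the product of a word -/
noncomputable def WC_pr {q L : ℕ} (w : Fin L → SS q) : ℍ[ℤ] :=
  (List.ofFn fun i => (w i).val).prod

lemma WC_norm_pr {q L : ℕ} (w : Fin L → SS q) : Quaternion.normSq (WC_pr w) = (q : ℤ) ^ L := by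
  unfold WC_pr
  rw [map_list_prod, List.map_ofFn, List.prod_ofFn]
  simp only [Function.comp_apply, SS.norm, Finset.prod_const, Finset.card_univ, Fintype.card_fin]

lemma WC_finite (n : ℕ) (P : ℍ[ℤ] → Prop) :
    Finite {α : ℍ[ℤ] // Quaternion.normSq α = (n : ℤ) ∧ P α} := by
  have hb : ∀ (x : ℤ), x ^ 2 ≤ (n : ℤ) → x ∈ Set.Icc (-(n : ℤ)) n := by
    intro x hx
    constructor <;> nlinarith [sq_nonneg (x - 1), sq_nonneg (x + 1), sq_nonneg x]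
  let f : {α : ℍ[ℤ] // Quaternion.normSq α = (n : ℤ) ∧ P α} →
      (Set.Icc (-(n : ℤ)) n) × (Set.Icc (-(n : ℤ)) n) × (Set.Icc (-(n : ℤ)) n) ×
      (Set.Icc (-(n : ℤ)) n) := fun a =>
    have h := a.2.1
    have e := Quaternion.normSq_def' a.1
    ⟨⟨a.1.re, hb _ (by rw [e] at h; nlinarith [sq_nonneg a.1.imI, sq_nonneg a.1.imJ, sq_nonneg a.1.imK])⟩,
     ⟨a.1.imI, hb _ (by rw [e] at h; nlinarith [sq_nonneg a.1.re, sq_nonneg a.1.imJ, sq_nonneg a.1.imK])⟩,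
     ⟨a.1.imJ, hb _ (by rw [e] at h; nlinarith [sq_nonneg a.1.imI, sq_nonneg a.1.re, sq_nonneg a.1.imK])⟩,
     ⟨a.1.imK, hb _ (by rw [e] at h; nlinarith [sq_nonneg a.1.imI, sq_nonneg a.1.imJ, sq_nonneg a.1.re])⟩⟩
  refine Finite.of_injective f ?_
  intro a b hab
  simp only [f, Prod.mk.injEq, Subtype.mk.injEq] at hab
  apply Subtype.ext
  exact Quaternion.ext _ _ hab.1 hab.2.1 hab.2.2.1 hab.2.2.2

lemma WC_natCast_mul (n : ℕ) (x : ℍ[ℤ]) : ((n : ℍ[ℤ]) * x).re = n * x.re ∧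
    ((n : ℍ[ℤ]) * x).imI = n * x.imI ∧ ((n : ℍ[ℤ]) * x).imJ = n * x.imJ ∧
    ((n : ℍ[ℤ]) * x).imK = n * x.imK := by
  refine ⟨?_, ?_, ?_, ?_⟩ <;> simp

lemma WC_decomp {q : ℕ} (hq : 2 ≤ q) (k : ℕ) : ∀ g : ℍ[ℤ],
    Quaternion.normSq g = (q : ℤ) ^ (2 * k) → ∃ s : ℕ, s ≤ k ∧ ∃ γ : ℍ[ℤ],
      (∀ δ : ℍ[ℤ], γ ≠ (q : ℍ[ℤ]) * δ) ∧ g = ((q ^ s : ℕ) : ℍ[ℤ]) * γ ∧
      Quaternion.normSq γ = (q : ℤ) ^ (2 * (k - s)) := by
  have hqz : (0 : ℤ) < q := by exact_mod_cast (by omega : 0 < q)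
  induction k with
  | zero =>
    intro g hg
    refine ⟨0, le_rfl, g, ?_, by simp, hg⟩
    intro δ hδ
    rw [hδ, map_mul, Quaternion.normSq_natCast, mul_zero, pow_zero] at hg
    have h1 : ((q : ℤ) ^ 2) ∣ 1 := ⟨_, hg.symm⟩
    have h2 := Int.le_of_dvd one_pos h1
    have h3 : (2 : ℤ) ≤ q := by exact_mod_cast hq
    nlinarith
  | succ k ih =>
    intro g hg
    by_cases h : ∃ δ : ℍ[ℤ], g = (q : ℍ[ℤ]) * δ
    · obtain ⟨δ, hδ⟩ := h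
      have h1 : Quaternion.normSq δ = (q : ℤ) ^ (2 * k) := by
        rw [hδ, map_mul, Quaternion.normSq_natCast] at hg
        have h2 : (q : ℤ) ^ (2 * (k + 1)) = (q : ℤ) ^ 2 * (q : ℤ) ^ (2 * k) := by ring
        rw [h2] at hg
        exact mul_left_cancel₀ (by positivity) hg
      obtain ⟨s, hs, γ, h3, h4, h5⟩ := ih δ h1
      refine ⟨s + 1, by omega, γ, h3, ?_, ?_⟩
      · rw [hδ, h4, ← mul_assoc, pow_succ, Nat.cast_mul, (Nat.cast_commute q ((q ^ s : ℕ) : ℍ[ℤ])).eq]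
      · rw [h5]
        congr 2
        omega
    · push Not at h
      exact ⟨0, Nat.zero_le _, g, h, by simp, hg⟩

lemma WC_sum (q k : ℕ) (hq : 2 ≤ q) (C η : ℝ) (hC : 0 < C) (hη : 0 < η) (M : ℕ) (hM : 0 < M) :
    ∑ s ∈ Finset.range (k + 1), ((2 * k).choose s : ℝ) * (q : ℝ) ^ s *
      (2 + C * ((q : ℝ) ^ (k - s) / (M : ℝ) ^ 2 + 1) * ((q : ℝ) ^ (k - s) / M) *
        ((q : ℝ) ^ (k - s)) ^ η) ≤
      (4 * q) ^ k * (2 + C * ((q : ℝ) ^ k) ^ η / M) +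
      C * ((q : ℝ) ^ k) ^ η / (M : ℝ) ^ 3 * ((q : ℝ) + 1) ^ (2 * k) := by
  have hq1 : (1 : ℝ) ≤ q := by exact_mod_cast (by omega : 1 ≤ q)
  have hM1 : (0 : ℝ) < M := by exact_mod_cast hM
  have hterm : ∀ s ∈ Finset.range (k + 1), ((2 * k).choose s : ℝ) * (q : ℝ) ^ s *
      (2 + C * ((q : ℝ) ^ (k - s) / (M : ℝ) ^ 2 + 1) * ((q : ℝ) ^ (k - s) / M) *
        ((q : ℝ) ^ (k - s)) ^ η) ≤
      ((2 * k).choose s : ℝ) * ((q : ℝ) ^ k * (2 + C * ((q : ℝ) ^ k) ^ η / M)) +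
      C * ((q : ℝ) ^ k) ^ η / (M : ℝ) ^ 3 * ((q : ℝ) ^ (2 * k - s) * ((2 * k).choose s : ℝ)) := by
    intro s hs
    have hsk : s ≤ k := by
      rw [Finset.mem_range] at hs
      omega
    have hqk : (q : ℝ) ^ (k - s) ≤ (q : ℝ) ^ k := pow_le_pow_right₀ hq1 (Nat.sub_le _ _)
    have hqs : (q : ℝ) ^ s ≤ (q : ℝ) ^ k := pow_le_pow_right₀ hq1 hsk
    have hη1 : ((q : ℝ) ^ (k - s)) ^ η ≤ ((q : ℝ) ^ k) ^ η :=
      Real.rpow_le_rpow (by positivity) hqk hη.le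
    have e1 : (q : ℝ) ^ s * (q : ℝ) ^ (k - s) = (q : ℝ) ^ k := by
      rw [← pow_add]
      congr 1
      omega
    have e2 : (q : ℝ) ^ (2 * k - s) = (q : ℝ) ^ k * (q : ℝ) ^ (k - s) := by
      rw [← pow_add]
      congr 1
      omega
    have hch : (0 : ℝ) ≤ ((2 * k).choose s : ℝ) := Nat.cast_nonneg _
    have h1 : (q : ℝ) ^ s *
        (2 + C * ((q : ℝ) ^ (k - s) / (M : ℝ) ^ 2 + 1) * ((q : ℝ) ^ (k - s) / M) *
          ((q : ℝ) ^ (k - s)) ^ η) ≤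
        (q : ℝ) ^ k * (2 + C * ((q : ℝ) ^ k) ^ η / M) +
        C * ((q : ℝ) ^ k) ^ η / (M : ℝ) ^ 3 * (q : ℝ) ^ (2 * k - s) := by
      have e3 : (q : ℝ) ^ s *
        (2 + C * ((q : ℝ) ^ (k - s) / (M : ℝ) ^ 2 + 1) * ((q : ℝ) ^ (k - s) / M) *
          ((q : ℝ) ^ (k - s)) ^ η) = 2 * (q : ℝ) ^ s +
          (C * (((q : ℝ) ^ s * (q : ℝ) ^ (k - s)) / M +
            ((q : ℝ) ^ s * (q : ℝ) ^ (k - s)) * (q : ℝ) ^ (k - s) / (M : ℝ) ^ 3)) *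
          ((q : ℝ) ^ (k - s)) ^ η := by
        field_simp
        ring
      rw [e3, e1, e2]
      have h2 : (C * ((q : ℝ) ^ k / M + (q : ℝ) ^ k * (q : ℝ) ^ (k - s) / (M : ℝ) ^ 3)) *
          ((q : ℝ) ^ (k - s)) ^ η ≤
          (C * ((q : ℝ) ^ k / M + (q : ℝ) ^ k * (q : ℝ) ^ (k - s) / (M : ℝ) ^ 3)) *
          ((q : ℝ) ^ k) ^ η := mul_le_mul_of_nonneg_left hη1 (by positivity)
      have h3 : (q : ℝ) ^ k * (2 + C * ((q : ℝ) ^ k) ^ η / M) +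
        C * ((q : ℝ) ^ k) ^ η / (M : ℝ) ^ 3 * ((q : ℝ) ^ k * (q : ℝ) ^ (k - s)) =
        2 * (q : ℝ) ^ k + (C * ((q : ℝ) ^ k / M + (q : ℝ) ^ k * (q : ℝ) ^ (k - s) / (M : ℝ) ^ 3)) *
          ((q : ℝ) ^ k) ^ η := by
        ring
      rw [h3]
      linarith
    calc ((2 * k).choose s : ℝ) * (q : ℝ) ^ s *
      (2 + C * ((q : ℝ) ^ (k - s) / (M : ℝ) ^ 2 + 1) * ((q : ℝ) ^ (k - s) / M) *
        ((q : ℝ) ^ (k - s)) ^ η) = ((2 * k).choose s : ℝ) * ((q : ℝ) ^ s *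
        (2 + C * ((q : ℝ) ^ (k - s) / (M : ℝ) ^ 2 + 1) * ((q : ℝ) ^ (k - s) / M) *
          ((q : ℝ) ^ (k - s)) ^ η)) := by ring
      _ ≤ ((2 * k).choose s : ℝ) * ((q : ℝ) ^ k * (2 + C * ((q : ℝ) ^ k) ^ η / M) +
        C * ((q : ℝ) ^ k) ^ η / (M : ℝ) ^ 3 * (q : ℝ) ^ (2 * k - s)) :=
          mul_le_mul_of_nonneg_left h1 hch
      _ = _ := by ring
  refine (Finset.sum_le_sum hterm).trans ?_
  rw [Finset.sum_add_distrib, ← Finset.sum_mul, ← Finset.mul_sum]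
  have hsub : Finset.range (k + 1) ⊆ Finset.range (2 * k + 1) := by
    intro x hx
    rw [Finset.mem_range] at hx ⊢
    omega
  have hA : ∑ s ∈ Finset.range (k + 1), ((2 * k).choose s : ℝ) ≤ 4 ^ k := by
    have h1 : ∑ s ∈ Finset.range (k + 1), ((2 * k).choose s : ℝ) ≤
        ∑ s ∈ Finset.range (2 * k + 1), ((2 * k).choose s : ℝ) :=
      Finset.sum_le_sum_of_subset_of_nonneg hsub (fun _ _ _ => Nat.cast_nonneg _)
    refine h1.trans (le_of_eq ?_)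
    have h2 := Nat.sum_range_choose (2 * k)
    have h3 : (∑ s ∈ Finset.range (2 * k + 1), ((2 * k).choose s : ℝ)) = ((2 ^ (2 * k) : ℕ) : ℝ) := by
      rw [← h2]
      push_cast
      rfl
    rw [h3, pow_mul]
    push_cast
    norm_num
  have hB : ∑ s ∈ Finset.range (k + 1), (q : ℝ) ^ (2 * k - s) * ((2 * k).choose s : ℝ) ≤
      ((q : ℝ) + 1) ^ (2 * k) := by
    have h1 : ∑ s ∈ Finset.range (k + 1), (q : ℝ) ^ (2 * k - s) * ((2 * k).choose s : ℝ) ≤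
        ∑ s ∈ Finset.range (2 * k + 1), (q : ℝ) ^ (2 * k - s) * ((2 * k).choose s : ℝ) :=
      Finset.sum_le_sum_of_subset_of_nonneg hsub (fun _ _ _ => by positivity)
    refine h1.trans (le_of_eq ?_)
    rw [add_comm (q : ℝ) 1, add_pow]
    apply Finset.sum_congr rfl
    intro s _
    rw [one_pow, one_mul]
  have h5 : (4 * (q : ℝ)) ^ k = 4 ^ k * (q : ℝ) ^ k := mul_pow _ _ _
  have h6 : (∑ s ∈ Finset.range (k + 1), ((2 * k).choose s : ℝ)) *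
      ((q : ℝ) ^ k * (2 + C * ((q : ℝ) ^ k) ^ η / M)) ≤
      4 ^ k * ((q : ℝ) ^ k * (2 + C * ((q : ℝ) ^ k) ^ η / M)) :=
    mul_le_mul_of_nonneg_right hA (by positivity)
  have h7 : C * ((q : ℝ) ^ k) ^ η / (M : ℝ) ^ 3 *
      ∑ s ∈ Finset.range (k + 1), (q : ℝ) ^ (2 * k - s) * ((2 * k).choose s : ℝ) ≤
      C * ((q : ℝ) ^ k) ^ η / (M : ℝ) ^ 3 * ((q : ℝ) + 1) ^ (2 * k) :=
    mul_le_mul_of_nonneg_left hB (by positivity)
  rw [h5]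
  calc _ ≤ 4 ^ k * ((q : ℝ) ^ k * (2 + C * ((q : ℝ) ^ k) ^ η / M)) +
      C * ((q : ℝ) ^ k) ^ η / (M : ℝ) ^ 3 * ((q : ℝ) + 1) ^ (2 * k) := add_le_add h6 h7
    _ = _ := by ring

theorem WC_thm (h1 : SQ_WK) (h2 : Stmt_count) : SQ_WC := by
  intro η hη
  obtain ⟨C, hC, hcount⟩ := h2 η hη
  refine ⟨C, hC, ?_⟩
  intro q M k hq hq4 hM hMq
  have hq2 : 2 ≤ q := hq.two_le
  have hcopq : Nat.Coprime M q := Nat.Coprime.coprime_mul_left_right hMq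
  -- the sets
  let T : ℕ → Type := fun s => {α : ℍ[ℤ] // Quaternion.normSq α = (q : ℤ) ^ (2 * (k - s)) ∧
      (M : ℤ) ∣ α.imI ∧ (M : ℤ) ∣ α.imJ ∧ (M : ℤ) ∣ α.imK}
  have hTfin : ∀ s, Finite (T s) := by
    intro s
    have := WC_finite (q ^ (2 * (k - s))) (fun α => (M : ℤ) ∣ α.imI ∧ (M : ℤ) ∣ α.imJ ∧
      (M : ℤ) ∣ α.imK)
    push_cast at this
    exact this
  let Bt : (s : ℕ) → T s → Type := fun s γ => {w : Fin (2 * k) → SS q //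
    (∀ δ : ℍ[ℤ], γ.1 ≠ (q : ℍ[ℤ]) * δ) ∧ WC_pr w = ((q ^ s : ℕ) : ℍ[ℤ]) * γ.1}
  have hBcard : ∀ (s : ℕ) (γ : T s), Nat.card (Bt s γ) ≤ (2 * k).choose s * q ^ s := by
    intro s γ
    by_cases hprim : ∀ δ : ℍ[ℤ], γ.1 ≠ (q : ℍ[ℤ]) * δ
    · have h3 := h1 q hq hq4 (2 * k) s γ.1 hprim
      refine le_trans ?_ h3
      exact Nat.card_le_card_of_injective
        (fun w : Bt s γ => (⟨w.1, w.2.2⟩ : {w : Fin (2 * k) → SS q //
          (List.ofFn fun i => (w i).val).prod = ((q ^ s : ℕ) : ℍ[ℤ]) * γ.1}))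
        (by
          intro a b hab
          have hab' : a.1 = b.1 := by
            have h5 := congrArg (fun z : {w : Fin (2 * k) → SS q //
              (List.ofFn fun i => (w i).val).prod = ((q ^ s : ℕ) : ℍ[ℤ]) * γ.1} => z.1) hab
            exact h5
          exact Subtype.ext hab')
    · have : IsEmpty (Bt s γ) := ⟨fun w => hprim w.2.1⟩
      rw [Nat.card_of_isEmpty]
      exact Nat.zero_le _
  have hfinT : ∀ s : Fin (k + 1), Fintype (T s) := fun s => by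
    have := hTfin s
    exact Fintype.ofFinite _
  -- the injection
  have hexist : ∀ w : {w : Fin (2 * k) → SS q // (M : ℤ) ∣ (WC_pr w).imI ∧
      (M : ℤ) ∣ (WC_pr w).imJ ∧ (M : ℤ) ∣ (WC_pr w).imK},
      ∃ x : (Σ s : Fin (k + 1), Σ γ : T s, Bt s γ), x.2.2.1 = w.1 := by
    rintro ⟨w, hw1, hw2, hw3⟩
    obtain ⟨s, hs, γ, h3, h4, h5⟩ := WC_decomp hq2 k (WC_pr w) (WC_norm_pr w)
    have hcop : IsCoprime (M : ℤ) ((q ^ s : ℕ) : ℤ) :=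
      Nat.Coprime.isCoprime (Nat.Coprime.pow_right s hcopq)
    obtain ⟨-, c1, c2, c3⟩ := WC_natCast_mul (q ^ s) γ
    rw [h4, c1] at hw1
    rw [h4, c2] at hw2
    rw [h4, c3] at hw3
    exact ⟨⟨⟨s, by omega⟩, ⟨γ, h5, hcop.dvd_of_dvd_mul_left hw1, hcop.dvd_of_dvd_mul_left hw2,
      hcop.dvd_of_dvd_mul_left hw3⟩, ⟨w, h3, h4⟩⟩, rfl⟩
  choose f hf using hexist
  have hinj : Function.Injective f := by
    intro a b hab
    apply Subtype.ext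
    rw [← hf a, ← hf b, hab]
  have hfin2 : ∀ s : Fin (k + 1), Finite (Σ γ : T s, Bt s γ) := by
    intro s
    have := hTfin s
    infer_instance
  have hle : WW q M (2 * k) ≤ ∑ s : Fin (k + 1), Nat.card (T s) * ((2 * k).choose s * q ^ (s : ℕ)) := by
    have e1 : WW q M (2 * k) ≤ Nat.card (Σ s : Fin (k + 1), Σ γ : T s, Bt s γ) :=
      Nat.card_le_card_of_injective f hinj
    refine e1.trans ?_
    rw [Nat.card_sigma]
    apply Finset.sum_le_sum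
    intro s _
    have hF := hfinT s
    rw [Nat.card_sigma]
    refine (Finset.sum_le_card_nsmul _ _ ((2 * k).choose s * q ^ (s : ℕ)) (fun γ _ => hBcard s γ)).trans ?_
    rw [smul_eq_mul, Finset.card_univ, Nat.card_eq_fintype_card]
  have hle2 : (WW q M (2 * k) : ℝ) ≤ ∑ s : Fin (k + 1), ((2 * k).choose (s : ℕ) : ℝ) * (q : ℝ) ^ (s : ℕ) *
      (2 + C * ((q : ℝ) ^ (k - (s : ℕ)) / (M : ℝ) ^ 2 + 1) * ((q : ℝ) ^ (k - (s : ℕ)) / M) *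
        ((q : ℝ) ^ (k - (s : ℕ))) ^ η) := by
    have h6 : (WW q M (2 * k) : ℝ) ≤
        ((∑ s : Fin (k + 1), Nat.card (T s) * ((2 * k).choose s * q ^ (s : ℕ)) : ℕ) : ℝ) := by
      exact_mod_cast hle
    refine h6.trans ?_
    rw [Nat.cast_sum]
    apply Finset.sum_le_sum
    intro s _
    push_cast
    rw [mul_comm]
    apply mul_le_mul_of_nonneg_left _ (by positivity)
    exact hcount q M (k - s) hq2 hM hMq
  refine hle2.trans ?_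
  rw [Fin.sum_univ_eq_sum_range (fun s => ((2 * k).choose s : ℝ) * (q : ℝ) ^ s *
      (2 + C * ((q : ℝ) ^ (k - s) / (M : ℝ) ^ 2 + 1) * ((q : ℝ) ^ (k - s) / M) *
        ((q : ℝ) ^ (k - s)) ^ η)) (k + 1)]
  exact WC_sum q k hq2 C η hC hη M hM

end TauQ
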