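import Mathlib
import Pool.Agent.Work.MP_972ac7_tq.Interface

/-!
# Block LA (helper87): the multiplicity lemma
-/

open scoped Quaternion BigOperators Matrix ComplexOrder

namespace TauQ

/-! ### Averages over the classes -/

section classes

variable {X : Type} [Fintype X] {O : ℕ}

/-- the sum over a class -/
noncomputable def LA_cs (o : X → Fin O) (f : X → ℂ) (j : Fin O) : ℂ :=
  ∑ x, if o x = j then f x else 0

/-- the size of a class -/
def LA_nn (o : X → Fin O) (j : Fin O) : ℕ := (Finset.univ.filter fun x => o x = j).card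

/-- the average over the class of `x` -/
noncomputable def LA_av (o : X → Fin O) (f : X → ℂ) (x : X) : ℂ :=
  LA_cs o f (o x) / LA_nn o (o x)

lemma LA_nn_pos (o : X → Fin O) (x : X) : 0 < LA_nn o (o x) := by
  unfold LA_nn
  exact Finset.card_pos.2 ⟨x, by simp⟩

lemma LA_class_sum (o : X → Fin O) (c : Fin O → ℂ) (φ : X → ℂ) :
    ∑ x, c (o x) * φ x = ∑ j, c j * LA_cs o φ j := by
  unfold LA_cs
  simp_rw [Finset.mul_sum]
  rw [Finset.sum_comm]
  apply Finset.sum_congr rfl
  intro x _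
  simp

lemma LA_cs_sub_av (o : X → Fin O) (f : X → ℂ) (j : Fin O) :
    LA_cs o (fun x => f x - LA_av o f x) j = 0 := by
  have h1 : ∀ x, (if o x = j then f x - LA_av o f x else 0) =
      (if o x = j then f x else 0) - (if o x = j then LA_cs o f j / LA_nn o j else 0) := by
    intro x
    by_cases h : o x = j
    · simp [h, LA_av]
    · simp [h]
  have h0 : LA_cs o (fun x => f x - LA_av o f x) j =
      LA_cs o f j - ∑ x, (if o x = j then LA_cs o f j / LA_nn o j else 0) := by
    conv_lhs => unfold LA_cs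
    rw [Finset.sum_congr rfl (fun x _ => h1 x), Finset.sum_sub_distrib]
    rfl
  have h2 : ∑ x, (if o x = j then LA_cs o f j / (LA_nn o j : ℂ) else 0) =
      (LA_nn o j : ℂ) * (LA_cs o f j / LA_nn o j) := by
    rw [← Finset.sum_filter, Finset.sum_const, nsmul_eq_mul]
    rfl
  rw [h0, h2]
  by_cases h3 : LA_nn o j = 0
  · have h4 : LA_cs o f j = 0 := by
      unfold LA_cs
      apply Finset.sum_eq_zero
      intro x _
      rw [if_neg]
      intro h5
      have := LA_nn_pos o x
      rw [h5] at this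
      omega
    rw [h4]
    simp
  · have h4 : (LA_nn o j : ℂ) ≠ 0 := by exact_mod_cast h3
    field_simp
    ring

lemma LA_orth (o : X → Fin O) (f : X → ℂ) :
    ∑ x, (starRingEnd ℂ) (LA_av o f x) * (f x - LA_av o f x) = 0 := by
  have h := LA_class_sum o (fun j => (starRingEnd ℂ) (LA_cs o f j / LA_nn o j))
    (fun x => f x - LA_av o f x)
  simp only [LA_cs_sub_av, mul_zero, Finset.sum_const_zero] at h
  exact h

lemma LA_orth2 (o : X → Fin O) (f : X → ℂ) :
    ∑ x, (starRingEnd ℂ) (LA_av o f x) * f x = ((∑ x, ‖LA_av o f x‖ ^ 2 : ℝ) : ℂ) := by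
  have h := LA_orth o f
  have h2 : ∀ x, (starRingEnd ℂ) (LA_av o f x) * (f x - LA_av o f x) =
      (starRingEnd ℂ) (LA_av o f x) * f x - ((‖LA_av o f x‖ ^ 2 : ℝ) : ℂ) := by
    intro x
    rw [mul_sub, ← Complex.normSq_eq_norm_sq, Complex.normSq_eq_conj_mul_self]
  rw [Finset.sum_congr rfl (fun x _ => h2 x), Finset.sum_sub_distrib, sub_eq_zero] at h
  rw [h]
  push_cast
  rfl

lemma LA_pyth (o : X → Fin O) (f : X → ℂ) :
    ∑ x, ‖f x‖ ^ 2 = ∑ x, ‖LA_av o f x‖ ^ 2 + ∑ x, ‖f x - LA_av o f x‖ ^ 2 := by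
  have h := congrArg Complex.re (LA_orth2 o f)
  rw [Complex.ofReal_re, Complex.re_sum] at h
  have h2 : ∀ x, ‖f x - LA_av o f x‖ ^ 2 =
      ‖f x‖ ^ 2 + ‖LA_av o f x‖ ^ 2 - 2 * ((starRingEnd ℂ) (LA_av o f x) * f x).re := by
    intro x
    rw [← Complex.normSq_eq_norm_sq, ← Complex.normSq_eq_norm_sq, ← Complex.normSq_eq_norm_sq]
    simp only [Complex.normSq_apply, Complex.sub_re, Complex.sub_im, Complex.mul_re,
      Complex.conj_re, Complex.conj_im]
    ring
  rw [Finset.sum_congr rfl (fun x _ => h2 x), Finset.sum_sub_distrib, Finset.sum_add_distrib,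
    ← Finset.mul_sum, h]
  ring

lemma LA_jensen (o : X → Fin O) (f : X → ℂ) (x : X) :
    ‖LA_av o f x‖ ^ 2 ≤ 1 / (LA_nn o (o x) : ℝ) * ∑ x', ‖f x'‖ ^ 2 := by
  set j := o x with hj
  have hn : (0 : ℝ) < (LA_nn o j : ℝ) := by exact_mod_cast LA_nn_pos o x
  have h1 : ‖LA_cs o f j‖ ^ 2 ≤ (LA_nn o j : ℝ) * ∑ x', ‖f x'‖ ^ 2 := by
    unfold LA_cs
    rw [← Finset.sum_filter]
    calc ‖∑ x' ∈ Finset.univ.filter (fun x => o x = j), f x'‖ ^ 2
        ≤ (∑ x' ∈ Finset.univ.filter (fun x => o x = j), ‖f x'‖) ^ 2 := by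
          apply pow_le_pow_left₀ (norm_nonneg _)
          exact norm_sum_le _ _
      _ ≤ (LA_nn o j : ℝ) * ∑ x' ∈ Finset.univ.filter (fun x => o x = j), ‖f x'‖ ^ 2 :=
          sq_sum_le_card_mul_sum_sq
      _ ≤ (LA_nn o j : ℝ) * ∑ x', ‖f x'‖ ^ 2 := by
          apply mul_le_mul_of_nonneg_left _ hn.le
          apply Finset.sum_le_sum_of_subset_of_nonneg (Finset.filter_subset _ _)
          intro i _ _
          positivity
  have h2 : ‖LA_av o f x‖ ^ 2 = 1 / (LA_nn o j : ℝ) * (1 / (LA_nn o j : ℝ) * ‖LA_cs o f j‖ ^ 2) := by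
    unfold LA_av
    rw [← hj, norm_div, div_pow, Complex.norm_natCast]
    field_simp
  rw [h2]
  apply mul_le_mul_of_nonneg_left _ (by positivity)
  rw [one_div, inv_mul_le_iff₀ hn]
  exact h1

lemma LA_inv_sum (o : X → Fin O) : ∑ x : X, 1 / (LA_nn o (o x) : ℝ) ≤ O := by
  have h : ∑ x : X, 1 / (LA_nn o (o x) : ℝ) =
      ∑ j : Fin O, ∑ x : X, (if o x = j then 1 / (LA_nn o j : ℝ) else 0) := by
    rw [Finset.sum_comm]
    apply Finset.sum_congr rfl
    intro x _
    simp
  rw [h]
  calc ∑ j : Fin O, ∑ x : X, (if o x = j then 1 / (LA_nn o j : ℝ) else 0)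
      ≤ ∑ j : Fin O, (1 : ℝ) := by
        apply Finset.sum_le_sum
        intro j _
        rw [← Finset.sum_filter, Finset.sum_const, nsmul_eq_mul]
        show (LA_nn o j : ℝ) * (1 / (LA_nn o j : ℝ)) ≤ 1
        by_cases h : LA_nn o j = 0
        · simp [h]
        · have : (LA_nn o j : ℝ) ≠ 0 := by exact_mod_cast h
          rw [mul_one_div, div_self this]
    _ = O := by simp

end classes

/-! ### Matrices -/

lemma LA_hs_nonneg {m n : Type} [Fintype m] [Fintype n] (A : Matrix m n ℂ) : 0 ≤ hs A := by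
  unfold hs
  exact Finset.sum_nonneg fun i _ => Finset.sum_nonneg fun j _ => by positivity

lemma LA_hs_trace {m n : Type} [Fintype m] [Fintype n] (A : Matrix m n ℂ) :
    (A * Aᴴ).trace.re = hs A := by
  unfold hs
  rw [Matrix.trace, Complex.re_sum]
  apply Finset.sum_congr rfl
  intro i _
  rw [Matrix.diag_apply, Matrix.mul_apply, Complex.re_sum]
  apply Finset.sum_congr rfl
  intro j _
  rw [Matrix.conjTranspose_apply, Complex.star_def, Complex.mul_conj, Complex.ofReal_re,
    Complex.normSq_eq_norm_sq]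

lemma LA_mulVec_sq {m n : Type} [Fintype m] [Fintype n] (R : Matrix m n ℂ) (u : n → ℂ) :
    ∑ i, ‖(R.mulVec u) i‖ ^ 2 = (star u ⬝ᵥ ((Rᴴ * R).mulVec u)).re := by
  rw [← Matrix.mulVec_mulVec, Matrix.dotProduct_mulVec, ← Matrix.star_mulVec, dotProduct,
    Complex.re_sum]
  apply Finset.sum_congr rfl
  intro i _
  rw [Pi.star_apply, Complex.star_def, ← Complex.normSq_eq_conj_mul_self, Complex.ofReal_re,
    Complex.normSq_eq_norm_sq]

/-- Bessel's equality for orthogonal functions -/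
lemma LA_bessel {Z : Type} [Fintype Z] (L : ℕ) (κ : ℝ) (F : Fin L → Z → ℂ)
    (hF : ∀ i j, ∑ z, F i z * (starRingEnd ℂ) (F j z) = if i = j then (κ : ℂ) else 0)
    (u : Fin L → ℂ) :
    ∑ z, ‖∑ i, (starRingEnd ℂ) (F i z) * u i‖ ^ 2 = κ * ∑ i, ‖u i‖ ^ 2 := by
  have h : ((∑ z, ‖∑ i, (starRingEnd ℂ) (F i z) * u i‖ ^ 2 : ℝ) : ℂ) =
      ((κ * ∑ i, ‖u i‖ ^ 2 : ℝ) : ℂ) := by
    have h1 : ∀ z, ((‖∑ i, (starRingEnd ℂ) (F i z) * u i‖ ^ 2 : ℝ) : ℂ) =
        ∑ i, ∑ j, (u i * (starRingEnd ℂ) (u j)) * (F j z * (starRingEnd ℂ) (F i z)) := by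
      intro z
      rw [← Complex.normSq_eq_norm_sq, ← Complex.mul_conj, map_sum, Finset.sum_mul_sum]
      apply Finset.sum_congr rfl
      intro i _
      apply Finset.sum_congr rfl
      intro j _
      rw [map_mul, Complex.conj_conj]
      ring
    rw [Complex.ofReal_sum, Finset.sum_congr rfl (fun z _ => h1 z), Finset.sum_comm]
    have h2 : ∀ i, ∑ z, ∑ j, (u i * (starRingEnd ℂ) (u j)) * (F j z * (starRingEnd ℂ) (F i z)) =
        (κ : ℂ) * ((‖u i‖ ^ 2 : ℝ) : ℂ) := by
      intro i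
      rw [Finset.sum_comm]
      have h3 : ∀ j, ∑ z, (u i * (starRingEnd ℂ) (u j)) * (F j z * (starRingEnd ℂ) (F i z)) =
          if j = i then (u i * (starRingEnd ℂ) (u j)) * (κ : ℂ) else 0 := by
        intro j
        rw [← Finset.mul_sum, hF j i]
        split_ifs <;> simp
      rw [Finset.sum_congr rfl (fun j _ => h3 j), Finset.sum_ite_eq']
      rw [if_pos (Finset.mem_univ i), Complex.mul_conj, Complex.normSq_eq_norm_sq]
      ring
    rw [Finset.sum_congr rfl (fun i _ => h2 i), ← Finset.mul_sum]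
    push_cast
    rfl
  exact_mod_cast h

/-- the multiplicity lemma -/
theorem LA_thm (hMX : SQ_MX) : SQ_LA := by
  intro X Y ι _ _ _ u τ O o g κ ε L F hτ ho hg hκ hε h2ε hgap hF hvar
  obtain ⟨mx1, mx2, mx3⟩ := hMX
  -- the matrices
  set A : X → Matrix (Fin L) Y ℂ := fun x => Matrix.of fun i y => F i (x, y) with hA
  have hPex : ∀ x, ∃ P : Matrix (Fin L) (Fin L) ℂ, P.PosSemidef ∧ P * P = A x * (A x)ᴴ :=
    fun x => mx1 L _ (Matrix.posSemidef_self_mul_conjTranspose (A x))
  choose P hP hPP using hPex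
  set C : X → Matrix (Fin L) (Fin L) ℂ := fun x => Matrix.of fun i j =>
    LA_av o (fun x' => P x' i j) x with hC
  have hCij : ∀ x i j, C x i j = LA_av o (fun x' => P x' i j) x := fun x i j => rfl
  -- norms of the functions
  have hFn : ∀ i, ∑ z, ‖F i z‖ ^ 2 = κ := by
    intro i
    have h1 := hF i i
    rw [if_pos rfl] at h1
    have h2 : ((∑ z, ‖F i z‖ ^ 2 : ℝ) : ℂ) = (κ : ℂ) := by
      rw [← h1, Complex.ofReal_sum]
      apply Finset.sum_congr rfl
      intro z _
      rw [Complex.mul_conj, Complex.normSq_eq_norm_sq]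
    exact_mod_cast h2
  have hhsA : ∑ x, hs (A x) = L * κ := by
    unfold hs
    rw [Finset.sum_comm]
    have h1 : ∀ i, ∑ x, ∑ y, ‖A x i y‖ ^ 2 = κ := by
      intro i
      rw [← hFn i, Fintype.sum_prod_type]
      rfl
    rw [Finset.sum_congr rfl (fun i _ => h1 i)]
    simp
  have hPH : ∀ x, (P x)ᴴ = P x := fun x => (hP x).isHermitian
  have hhsP : ∀ x, hs (P x) = hs (A x) := by
    intro x
    rw [← LA_hs_trace, ← LA_hs_trace, hPH x, hPP x]
  have sw : ∀ H : X → Matrix (Fin L) (Fin L) ℂ, ∑ x, hs (H x) =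
      ∑ i, ∑ j, ∑ x, ‖H x i j‖ ^ 2 := by
    intro H
    unfold hs
    rw [Finset.sum_comm]
    apply Finset.sum_congr rfl
    intro i _
    rw [Finset.sum_comm]
  -- variation of `P`
  have hvarP : ∑ b, ∑ x, hs (P (u b x) - P x) ≤ 4 * L * ε * κ := by
    have h1 : ∀ b x, hs (P (u b x) - P x) ≤
        2 * ∑ i, ∑ y, ‖F i (τ b (x, y)) - F i (x, y)‖ ^ 2 := by
      intro b x
      have hσ : Function.Bijective (fun y : Y => (τ b (x, y)).2) := by
        apply Function.Injective.bijective_of_finite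
        intro y y' hyy
        have e1 : τ b (x, y) = τ b (x, y') := by
          apply Prod.ext
          · rw [hτ, hτ]
          · exact hyy
        have e2 := (τ b).injective e1
        exact congrArg Prod.snd e2
      have hτ2 : ∀ y, τ b (x, y) = (u b x, (τ b (x, y)).2) := by
        intro y
        apply Prod.ext
        · exact hτ b (x, y)
        · rfl
      set A' : Matrix (Fin L) Y ℂ := Matrix.of fun i y => F i (τ b (x, y)) with hA'
      have e1 : A (u b x) * (A (u b x))ᴴ = A' * A'ᴴ := by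
        ext i j
        rw [Matrix.mul_apply, Matrix.mul_apply]
        have e2 : ∀ y, A' i y * A'ᴴ y j = (fun y' => A (u b x) i y' * (A (u b x))ᴴ y' j)
            ((τ b (x, y)).2) := by
          intro y
          simp only [Matrix.conjTranspose_apply, hA', hA, Matrix.of_apply]
          rw [← hτ2 y]
        rw [Finset.sum_congr rfl (fun y _ => e2 y)]
        exact (Function.Bijective.sum_comp hσ
          (fun y' => A (u b x) i y' * (A (u b x))ᴴ y' j)).symm
      have e3 := mx2 L Y A' (A x) (P (u b x)) (P x) (hP _) (hP _) (by rw [hPP, e1]) (hPP x)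
      exact e3
    calc ∑ b, ∑ x, hs (P (u b x) - P x)
        ≤ ∑ b, ∑ x, 2 * ∑ i, ∑ y, ‖F i (τ b (x, y)) - F i (x, y)‖ ^ 2 :=
          Finset.sum_le_sum fun b _ => Finset.sum_le_sum fun x _ => h1 b x
      _ = 2 * ∑ i, ∑ b, ∑ z, ‖F i (τ b z) - F i z‖ ^ 2 := by
          have e : ∀ b, ∑ x, 2 * ∑ i, ∑ y, ‖F i (τ b (x, y)) - F i (x, y)‖ ^ 2 =
              2 * ∑ i, ∑ z, ‖F i (τ b z) - F i z‖ ^ 2 := by
            intro b
            rw [← Finset.mul_sum, Finset.sum_comm]
            congr 1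
            apply Finset.sum_congr rfl
            intro i _
            rw [Fintype.sum_prod_type]
          rw [Finset.sum_congr rfl (fun b _ => e b), ← Finset.mul_sum, Finset.sum_comm]
      _ ≤ 2 * ∑ i : Fin L, 2 * ε * κ := by
          apply mul_le_mul_of_nonneg_left _ (by norm_num)
          exact Finset.sum_le_sum fun i _ => hvar i
      _ = 4 * L * ε * κ := by
          rw [Finset.sum_const, Finset.card_univ, Fintype.card_fin, nsmul_eq_mul]
          ring
  -- the gap
  have hgapP : 2 * g * ∑ x, hs (P x - C x) ≤ ∑ b, ∑ x, hs (P (u b x) - P x) := by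
    have h1 : ∀ i j, 2 * g * ∑ x, ‖P x i j - C x i j‖ ^ 2 ≤
        ∑ b, ∑ x, ‖P (u b x) i j - P x i j‖ ^ 2 := by
      intro i j
      have h2 := hgap (fun x => P x i j - LA_av o (fun x' => P x' i j) x)
        (LA_cs_sub_av o (fun x' => P x' i j))
      have h3 : ∀ b x, ‖(P (u b x) i j - LA_av o (fun x' => P x' i j) (u b x)) -
          (P x i j - LA_av o (fun x' => P x' i j) x)‖ ^ 2 = ‖P (u b x) i j - P x i j‖ ^ 2 := by
        intro b x
        have : LA_av o (fun x' => P x' i j) (u b x) = LA_av o (fun x' => P x' i j) x := by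
          unfold LA_av
          rw [ho b x]
        rw [this]
        congr 2
        ring
      rw [Finset.sum_congr rfl (fun b _ => Finset.sum_congr rfl (fun x _ => h3 b x))] at h2
      exact h2
    rw [sw (fun x => P x - C x), Finset.mul_sum]
    have e1 : ∑ b, ∑ x, hs (P (u b x) - P x) =
        ∑ i, ∑ j, ∑ b, ∑ x, ‖P (u b x) i j - P x i j‖ ^ 2 := by
      rw [Finset.sum_congr rfl (fun b _ => sw (fun x => P (u b x) - P x)), Finset.sum_comm]
      apply Finset.sum_congr rfl
      intro i _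
      rw [Finset.sum_comm]
      rfl
    rw [e1]
    apply Finset.sum_le_sum
    intro i _
    rw [Finset.mul_sum]
    apply Finset.sum_le_sum
    intro j _
    exact h1 i j
  have hPC : ∑ x, hs (P x - C x) ≤ 2 * ε / g * (L * κ) := by
    have h1 : 2 * g * ∑ x, hs (P x - C x) ≤ 4 * L * ε * κ := le_trans hgapP hvarP
    have h2 : 2 * ε / g * (L * κ) = 4 * L * ε * κ / (2 * g) := by
      field_simp
      ring
    rw [h2, le_div_iff₀ (by positivity)]
    linarith
  have hpyth : ∑ x, hs (P x) = ∑ x, hs (C x) + ∑ x, hs (P x - C x) := by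
    rw [sw P, sw C, sw (fun x => P x - C x), ← Finset.sum_add_distrib]
    apply Finset.sum_congr rfl
    intro i _
    rw [← Finset.sum_add_distrib]
    apply Finset.sum_congr rfl
    intro j _
    exact LA_pyth o (fun x => P x i j)
  -- `C` is Hermitian
  have hCH : ∀ x i j, C x j i = (starRingEnd ℂ) (C x i j) := by
    intro x i j
    rw [hCij, hCij]
    have h1 : ∀ x', P x' j i = (starRingEnd ℂ) (P x' i j) := by
      intro x'
      conv_lhs => rw [← hPH x']
      rw [Matrix.conjTranspose_apply, Complex.star_def]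
    unfold LA_av LA_cs
    rw [map_div₀, map_sum, Complex.conj_natCast]
    congr 1
    apply Finset.sum_congr rfl
    intro x' _
    show (if o x' = o x then P x' j i else 0) =
      (starRingEnd ℂ) (if o x' = o x then P x' i j else 0)
    by_cases hx : o x' = o x
    · rw [if_pos hx, if_pos hx, h1 x']
    · rw [if_neg hx, if_neg hx, map_zero]
  have hT : ∑ x, (P x * C x).trace.re = ∑ x, hs (C x) := by
    rw [sw C, ← Complex.re_sum]
    have h1 : ∑ x, (P x * C x).trace =
        ∑ i, ∑ j, ∑ x, (starRingEnd ℂ) (LA_av o (fun x' => P x' i j) x) * P x i j := by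
      have h2 : ∀ x, (P x * C x).trace =
          ∑ i, ∑ j, (starRingEnd ℂ) (LA_av o (fun x' => P x' i j) x) * P x i j := by
        intro x
        rw [Matrix.trace]
        apply Finset.sum_congr rfl
        intro i _
        rw [Matrix.diag_apply, Matrix.mul_apply]
        apply Finset.sum_congr rfl
        intro j _
        rw [hCH x i j, hCij]
        ring
      rw [Finset.sum_congr rfl (fun x _ => h2 x), Finset.sum_comm]
      apply Finset.sum_congr rfl
      intro i _
      rw [Finset.sum_comm]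
    rw [h1]
    have h3 : ∀ i j, ∑ x, (starRingEnd ℂ) (LA_av o (fun x' => P x' i j) x) * P x i j =
        ((∑ x, ‖C x i j‖ ^ 2 : ℝ) : ℂ) := fun i j => LA_orth2 o (fun x' => P x' i j)
    rw [Finset.sum_congr rfl (fun i _ => Finset.sum_congr rfl (fun j _ => h3 i j))]
    rw [← Complex.ofReal_re (∑ i, ∑ j, ∑ x, ‖C x i j‖ ^ 2)]
    congr 1
    push_cast
    rfl
  -- the norm of `C`
  have hCu : ∀ x (v : Fin L → ℂ), ∑ i, ‖((C x).mulVec v) i‖ ^ 2 ≤
      κ / (LA_nn o (o x) : ℝ) * ∑ i, ‖v i‖ ^ 2 := by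
    intro x v
    have h1 : ∀ i, ((C x).mulVec v) i = LA_av o (fun x' => ((P x').mulVec v) i) x := by
      intro i
      rw [Matrix.mulVec, dotProduct]
      unfold LA_av LA_cs
      have e1 : ∀ x', (if o x' = o x then ((P x').mulVec v) i else 0) =
          ∑ j, (if o x' = o x then P x' i j else 0) * v j := by
        intro x'
        split_ifs
        · rw [Matrix.mulVec, dotProduct]
        · simp
      rw [Finset.sum_congr rfl (fun x' _ => e1 x'), Finset.sum_comm, Finset.sum_div]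
      apply Finset.sum_congr rfl
      intro j _
      rw [hCij, ← Finset.sum_mul]
      unfold LA_av LA_cs
      ring
    have h2 : ∑ x', ∑ i, ‖((P x').mulVec v) i‖ ^ 2 = κ * ∑ i, ‖v i‖ ^ 2 := by
      have e1 : ∀ x', ∑ i, ‖((P x').mulVec v) i‖ ^ 2 = ∑ y, ‖((A x')ᴴ.mulVec v) y‖ ^ 2 := by
        intro x'
        rw [LA_mulVec_sq, LA_mulVec_sq, hPH x', hPP x', Matrix.conjTranspose_conjTranspose]
      rw [Finset.sum_congr rfl (fun x' _ => e1 x'), ← LA_bessel L κ F hF v,
        Fintype.sum_prod_type]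
      rfl
    calc ∑ i, ‖((C x).mulVec v) i‖ ^ 2
        ≤ ∑ i, 1 / (LA_nn o (o x) : ℝ) * ∑ x', ‖((P x').mulVec v) i‖ ^ 2 := by
          apply Finset.sum_le_sum
          intro i _
          rw [h1 i]
          exact LA_jensen o (fun x' => ((P x').mulVec v) i) x
      _ = κ / (LA_nn o (o x) : ℝ) * ∑ i, ‖v i‖ ^ 2 := by
          rw [← Finset.mul_sum, Finset.sum_comm, h2]
          ring
  -- conclusion
  have hTle : (∑ x, hs (C x)) ^ 2 ≤ (κ * Fintype.card Y * O) * (L * κ) := by
    rw [← hT]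
    have h1 := Finset.sum_sq_le_sum_mul_sum_of_sq_le_mul Finset.univ
      (r := fun x => (P x * C x).trace.re)
      (f := fun x => κ / (LA_nn o (o x) : ℝ) * Fintype.card Y) (g := fun x => hs (A x))
      (fun x _ => by positivity) (fun x _ => LA_hs_nonneg _)
      (fun x _ => mx3 L Y (A x) (P x) (C x) _ (hP x) (hPP x) (by positivity) (hCu x))
    refine le_trans h1 ?_
    rw [hhsA]
    apply mul_le_mul_of_nonneg_right _ (by positivity)
    have h2 : ∑ x, κ / (LA_nn o (o x) : ℝ) * Fintype.card Y =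
        κ * Fintype.card Y * ∑ x, 1 / (LA_nn o (o x) : ℝ) := by
      rw [Finset.mul_sum]
      apply Finset.sum_congr rfl
      intro x _
      ring
    rw [h2]
    exact mul_le_mul_of_nonneg_left (LA_inv_sum o) (by positivity)
  have hhsP' : ∑ x, hs (P x) = L * κ := by
    rw [← hhsA]
    exact Finset.sum_congr rfl fun x _ => hhsP x
  have h1 : (1 - 2 * ε / g) * (L * κ) ≤ ∑ x, hs (C x) := by
    have e : (1 - 2 * ε / g) * (L * κ) = L * κ - 2 * ε / g * (L * κ) := by ring
    rw [e]
    linarith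
  have h0 : 0 ≤ 1 - 2 * ε / g := by
    rw [sub_nonneg, div_le_one hg]
    exact h2ε
  have h2 : ((1 - 2 * ε / g) * (L * κ)) ^ 2 ≤ (κ * Fintype.card Y * O) * (L * κ) :=
    le_trans (pow_le_pow_left₀ (by positivity) h1 2) hTle
  rcases Nat.eq_zero_or_pos L with hL | hL
  · rw [hL]
    simp only [Nat.cast_zero, zero_mul]
    positivity
  · have hLR : (0 : ℝ) < L := by exact_mod_cast hL
    have h3 : (L * κ ^ 2) * ((L : ℝ) * (1 - 2 * ε / g) ^ 2) ≤
        (L * κ ^ 2) * (Fintype.card Y * O) := by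
      calc (L * κ ^ 2) * ((L : ℝ) * (1 - 2 * ε / g) ^ 2) =
          ((1 - 2 * ε / g) * (L * κ)) ^ 2 := by ring
        _ ≤ (κ * Fintype.card Y * O) * (L * κ) := h2
        _ = (L * κ ^ 2) * (Fintype.card Y * O) := by ring
    exact le_of_mul_le_mul_left h3 (by positivity)

end TauQ
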