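import Mathlib
import Pool.Agent.Work.MP_972ac7_tq.Interface

/-!
# Block MX: square roots of positive matrices (helper46)
-/

open scoped Quaternion BigOperators Matrix ComplexOrder

namespace TauQ

section MX

variable {m k : Type} [Fintype m] [Fintype k]

lemma MX_hs_nonneg (X : Matrix m k ℂ) : 0 ≤ hs X := by
  unfold hs
  positivity

lemma MX_tr (X Y : Matrix m k ℂ) :
    (X * Yᴴ).trace.re = ∑ i, ∑ j, (X i j * (starRingEnd ℂ) (Y i j)).re := by
  simp only [Matrix.trace, Matrix.diag_apply, Matrix.mul_apply, Matrix.conjTranspose_apply,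
    Complex.re_sum]
  rfl

lemma MX_hs_tr (X : Matrix m k ℂ) : hs X = (X * Xᴴ).trace.re := by
  rw [MX_tr]
  unfold hs
  refine Finset.sum_congr rfl fun i _ => Finset.sum_congr rfl fun j _ => ?_
  rw [Complex.mul_conj, Complex.ofReal_re, Complex.normSq_eq_norm_sq]

lemma MX_hs_sub (X Y : Matrix m k ℂ) : hs (X - Y) = hs X + hs Y - 2 * (X * Yᴴ).trace.re := by
  rw [MX_tr]
  unfold hs
  rw [Finset.mul_sum, ← Finset.sum_add_distrib, ← Finset.sum_sub_distrib]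
  refine Finset.sum_congr rfl fun i _ => ?_
  rw [Finset.mul_sum, ← Finset.sum_add_distrib, ← Finset.sum_sub_distrib]
  refine Finset.sum_congr rfl fun j _ => ?_
  rw [Matrix.sub_apply, ← Complex.normSq_eq_norm_sq, ← Complex.normSq_eq_norm_sq,
    ← Complex.normSq_eq_norm_sq, Complex.normSq_sub]

lemma MX_diag {L : ℕ} (P : Matrix (Fin L) (Fin L) ℂ) (hP : P.PosSemidef) :
    ∃ (U : Matrix (Fin L) (Fin L) ℂ) (d : Fin L → ℝ), U * Uᴴ = 1 ∧ Uᴴ * U = 1 ∧ (∀ i, 0 ≤ d i) ∧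
      P = U * Matrix.diagonal (fun i => (d i : ℂ)) * Uᴴ := by
  refine ⟨(hP.1.eigenvectorUnitary : Matrix _ _ ℂ), hP.1.eigenvalues, ?_, ?_,
    hP.eigenvalues_nonneg, ?_⟩
  · rw [← Matrix.star_eq_conjTranspose]
    exact Unitary.coe_mul_star_self _
  · rw [← Matrix.star_eq_conjTranspose]
    exact Unitary.coe_star_mul_self _
  · conv_lhs => rw [hP.1.spectral_theorem]
    rw [Unitary.conjStarAlgAut_apply]
    rfl

/-- Bessel inequality for a matrix with orthogonal rows -/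
lemma MX_bessel {L : ℕ} (X : Matrix m k ℂ) (B : Matrix (Fin L) k ℂ) (e : Fin L → ℝ)
    (hB : B * Bᴴ = Matrix.diagonal (fun i => ((e i : ℂ)) ^ 2)) :
    ∑ i, ∑ j, ‖(X * Bᴴ) i j‖ ^ 2 / e j ^ 2 ≤ hs X := by
  set G := X * Bᴴ with hG
  set C : Matrix m (Fin L) ℂ := fun i j => G i j / (e j : ℂ) ^ 2 with hC
  have h0 := MX_hs_nonneg (X - C * B)
  rw [MX_hs_sub, Matrix.conjTranspose_mul, ← Matrix.mul_assoc, ← hG, MX_hs_tr (C * B),
    Matrix.conjTranspose_mul, Matrix.mul_assoc C B, ← Matrix.mul_assoc B, hB,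
    ← Matrix.mul_assoc C, MX_tr, MX_tr] at h0
  have e1 : ∑ i, ∑ j, ((C * Matrix.diagonal (fun i => ((e i : ℂ)) ^ 2)) i j *
      (starRingEnd ℂ) (C i j)).re = ∑ i, ∑ j, ‖G i j‖ ^ 2 / e j ^ 2 := by
    refine Finset.sum_congr rfl fun i _ => Finset.sum_congr rfl fun j _ => ?_
    rw [Matrix.mul_diagonal, hC]
    by_cases he : e j = 0
    · simp [he]
    · have he' : (e j : ℂ) ≠ 0 := by exact_mod_cast he
      have : G i j / (e j : ℂ) ^ 2 * (e j : ℂ) ^ 2 * (starRingEnd ℂ) (G i j / (e j : ℂ) ^ 2) =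
          ((‖G i j‖ ^ 2 / e j ^ 2 : ℝ) : ℂ) := by
        rw [map_div₀, map_pow, Complex.conj_ofReal, div_mul_cancel₀ _ (pow_ne_zero 2 he'),
          ← mul_div_assoc, Complex.mul_conj, Complex.normSq_eq_norm_sq]
        push_cast
        ring
      rw [this, Complex.ofReal_re]
  have e2 : ∑ i, ∑ j, (G i j * (starRingEnd ℂ) (C i j)).re =
      ∑ i, ∑ j, ‖G i j‖ ^ 2 / e j ^ 2 := by
    refine Finset.sum_congr rfl fun i _ => Finset.sum_congr rfl fun j _ => ?_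
    rw [hC]
    have : G i j * (starRingEnd ℂ) (G i j / (e j : ℂ) ^ 2) =
        ((‖G i j‖ ^ 2 / e j ^ 2 : ℝ) : ℂ) := by
      rw [map_div₀, map_pow, Complex.conj_ofReal, ← mul_div_assoc, Complex.mul_conj,
        Complex.normSq_eq_norm_sq]
      push_cast
      ring
    rw [this, Complex.ofReal_re]
  rw [e1, e2] at h0
  linarith

lemma MX_one (L : ℕ) (M : Matrix (Fin L) (Fin L) ℂ) (hM : M.PosSemidef) :
    ∃ P : Matrix (Fin L) (Fin L) ℂ, P.PosSemidef ∧ P * P = M := by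
  obtain ⟨U, d, h1, h2, h3, h4⟩ := MX_diag M hM
  refine ⟨U * Matrix.diagonal (fun i => ((Real.sqrt (d i) : ℝ) : ℂ)) * Uᴴ, ?_, ?_⟩
  · refine Matrix.PosSemidef.mul_mul_conjTranspose_same ?_ U
    refine Matrix.PosSemidef.diagonal ?_
    intro i
    show (0 : ℂ) ≤ ((Real.sqrt (d i) : ℝ) : ℂ)
    exact_mod_cast Real.sqrt_nonneg _
  · have e : U * Matrix.diagonal (fun i => ((Real.sqrt (d i) : ℝ) : ℂ)) * Uᴴ *
        (U * Matrix.diagonal (fun i => ((Real.sqrt (d i) : ℝ) : ℂ)) * Uᴴ) =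
        U * (Matrix.diagonal (fun i => ((Real.sqrt (d i) : ℝ) : ℂ)) * (Uᴴ * U) *
          Matrix.diagonal (fun i => ((Real.sqrt (d i) : ℝ) : ℂ))) * Uᴴ := by
      simp only [Matrix.mul_assoc]
    rw [e, h2, Matrix.mul_one, Matrix.diagonal_mul_diagonal, h4]
    congr 3
    funext i
    rw [← Complex.ofReal_mul, Real.mul_self_sqrt (h3 i)]

lemma MX_rows {L : ℕ} (P U : Matrix (Fin L) (Fin L) ℂ) (d : Fin L → ℝ) (A : Matrix (Fin L) k ℂ)
    (h2 : Uᴴ * U = 1) (h4 : P = U * Matrix.diagonal (fun i => (d i : ℂ)) * Uᴴ)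
    (hA : P * P = A * Aᴴ) :
    (Uᴴ * A) * (Uᴴ * A)ᴴ = Matrix.diagonal (fun i => ((d i : ℂ)) ^ 2) := by
  rw [Matrix.conjTranspose_mul, Matrix.conjTranspose_conjTranspose]
  have e : Uᴴ * A * (Aᴴ * U) = Uᴴ * (A * Aᴴ) * U := by simp only [Matrix.mul_assoc]
  rw [e, ← hA, h4]
  have e2 : Uᴴ * (U * Matrix.diagonal (fun i => (d i : ℂ)) * Uᴴ *
      (U * Matrix.diagonal (fun i => (d i : ℂ)) * Uᴴ)) * U =
      (Uᴴ * U) * Matrix.diagonal (fun i => (d i : ℂ)) * (Uᴴ * U) *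
        Matrix.diagonal (fun i => (d i : ℂ)) * (Uᴴ * U) := by simp only [Matrix.mul_assoc]
  rw [e2, h2, Matrix.mul_one, Matrix.mul_one, Matrix.one_mul, Matrix.diagonal_mul_diagonal]
  congr 1
  funext i
  ring

lemma MX_hs_unit {L : ℕ} (U : Matrix (Fin L) (Fin L) ℂ) (A : Matrix (Fin L) k ℂ)
    (h1 : U * Uᴴ = 1) : hs (Uᴴ * A) = hs A := by
  rw [MX_hs_tr, MX_hs_tr, Matrix.conjTranspose_mul, Matrix.conjTranspose_conjTranspose,
    ← Matrix.mul_assoc, Matrix.trace_mul_comm, ← Matrix.mul_assoc, ← Matrix.mul_assoc, h1,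
    Matrix.one_mul]

lemma MX_row0 {L : ℕ} (B : Matrix (Fin L) k ℂ) (e : Fin L → ℝ)
    (hB : B * Bᴴ = Matrix.diagonal (fun i => ((e i : ℂ)) ^ 2)) (i : Fin L) :
    ∑ y, ‖B i y‖ ^ 2 = e i ^ 2 := by
  have h := congrFun (congrFun hB i) i
  rw [Matrix.mul_apply, Matrix.diagonal_apply_eq] at h
  have h' := congrArg Complex.re h
  rw [Complex.re_sum] at h'
  have e1 : ((e i : ℂ) ^ 2).re = e i ^ 2 := by
    rw [← Complex.ofReal_pow, Complex.ofReal_re]
  rw [e1] at h'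
  rw [← h']
  refine Finset.sum_congr rfl fun y _ => ?_
  rw [Matrix.conjTranspose_apply]
  show _ = (B i y * (starRingEnd ℂ) (B i y)).re
  rw [Complex.mul_conj, Complex.ofReal_re, Complex.normSq_eq_norm_sq]

lemma MX_zero {L : ℕ} (B : Matrix (Fin L) k ℂ) (e : Fin L → ℝ)
    (hB : B * Bᴴ = Matrix.diagonal (fun i => ((e i : ℂ)) ^ 2)) (i : Fin L) (hi : e i = 0) (y : k) :
    B i y = 0 := by
  have h := MX_row0 B e hB i
  rw [hi, zero_pow two_ne_zero, Finset.sum_eq_zero_iff_of_nonneg (fun _ _ => by positivity)] at h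
  have := h y (Finset.mem_univ _)
  rwa [sq_eq_zero_iff, norm_eq_zero] at this

lemma MX_pt (G Z : ℂ) (d e : ℝ) (hd : 0 ≤ d) (he : 0 ≤ e) (h : d = 0 ∨ e = 0 → G = 0) :
    4 * (G * (starRingEnd ℂ) Z).re ≤ 2 * (d * e * ‖Z‖ ^ 2) + ‖G‖ ^ 2 / e ^ 2 + ‖G‖ ^ 2 / d ^ 2 := by
  by_cases h0 : d = 0 ∨ e = 0
  · rw [h h0]
    simp only [zero_mul, Complex.zero_re, mul_zero, norm_zero]
    positivity
  · push Not at h0
    have hd' : 0 < d := lt_of_le_of_ne hd (Ne.symm h0.1)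
    have he' : 0 < e := lt_of_le_of_ne he (Ne.symm h0.2)
    have h1 : (G * (starRingEnd ℂ) Z).re ≤ ‖G‖ * ‖Z‖ := by
      refine (Complex.re_le_norm _).trans ?_
      rw [norm_mul, Complex.norm_conj]
    have h2 : 0 ≤ (d * e * ‖Z‖ - ‖G‖) ^ 2 / (d * e) := by positivity
    have h3 : (d * e * ‖Z‖ - ‖G‖) ^ 2 / (d * e) =
        d * e * ‖Z‖ ^ 2 - 2 * (‖G‖ * ‖Z‖) + ‖G‖ ^ 2 / (d * e) := by
      field_simp
      ring
    have h4 : 0 ≤ (‖G‖ / e - ‖G‖ / d) ^ 2 := sq_nonneg _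
    have h5 : (‖G‖ / e - ‖G‖ / d) ^ 2 = ‖G‖ ^ 2 / e ^ 2 + ‖G‖ ^ 2 / d ^ 2 -
        2 * (‖G‖ ^ 2 / (d * e)) := by
      field_simp
      ring
    rw [h3] at h2
    rw [h5] at h4
    linarith

lemma MX_two (L : ℕ) (A B : Matrix (Fin L) k ℂ) (P P' : Matrix (Fin L) (Fin L) ℂ)
    (hP : P.PosSemidef) (hP' : P'.PosSemidef) (hA : P * P = A * Aᴴ) (hB : P' * P' = B * Bᴴ) :
    hs (P - P') ≤ 2 * hs (A - B) := by
  obtain ⟨U, d, hU1, hU2, hd, hU4⟩ := MX_diag P hP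
  obtain ⟨W, e, hW1, hW2, he, hW4⟩ := MX_diag P' hP'
  have hA1 := MX_rows P U d A hU2 hU4 hA
  have hB1 := MX_rows P' W e B hW2 hW4 hB
  have hsP : hs P = hs A := by
    rw [MX_hs_tr, MX_hs_tr, hP.1.eq, hA]
  have hsP' : hs P' = hs B := by
    rw [MX_hs_tr, MX_hs_tr, hP'.1.eq, hB]
  have b1 := MX_bessel (Uᴴ * A) (Wᴴ * B) e hB1
  have b2 := MX_bessel (Wᴴ * B) (Uᴴ * A) d hA1
  rw [MX_hs_unit U A hU1] at b1
  rw [MX_hs_unit W B hW1] at b2
  obtain ⟨A1, hA1d⟩ : ∃ X : Matrix (Fin L) k ℂ, X = Uᴴ * A := ⟨_, rfl⟩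
  obtain ⟨B1, hB1d⟩ : ∃ X : Matrix (Fin L) k ℂ, X = Wᴴ * B := ⟨_, rfl⟩
  rw [← hA1d] at hA1 b1 b2
  rw [← hB1d] at hB1 b1 b2
  obtain ⟨G, hG⟩ : ∃ X : Matrix (Fin L) (Fin L) ℂ, X = A1 * B1ᴴ := ⟨_, rfl⟩
  obtain ⟨Z, hZ⟩ : ∃ X : Matrix (Fin L) (Fin L) ℂ, X = Uᴴ * W := ⟨_, rfl⟩
  rw [← hG] at b1
  have b2' : ∑ i, ∑ j, ‖G i j‖ ^ 2 / d i ^ 2 ≤ hs B := by
    refine le_trans (le_of_eq ?_) b2
    rw [Finset.sum_comm]
    refine Finset.sum_congr rfl fun j _ => Finset.sum_congr rfl fun i _ => ?_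
    have : (B1 * A1ᴴ) j i = star (G i j) := by
      rw [← Matrix.conjTranspose_apply, hG, Matrix.conjTranspose_mul,
        Matrix.conjTranspose_conjTranspose]
    rw [this, norm_star]
  have t1 : (A * Bᴴ).trace.re = ∑ i, ∑ j, (G i j * (starRingEnd ℂ) (Z i j)).re := by
    rw [← MX_tr]
    have hAU : A = U * A1 := by rw [hA1d, ← Matrix.mul_assoc, hU1, Matrix.one_mul]
    have hBW : B = W * B1 := by rw [hB1d, ← Matrix.mul_assoc, hW1, Matrix.one_mul]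
    rw [hAU, hBW, hZ, hG, Matrix.conjTranspose_mul, Matrix.conjTranspose_mul,
      Matrix.conjTranspose_conjTranspose, Matrix.mul_assoc U, Matrix.trace_mul_comm U]
    simp only [Matrix.mul_assoc]
  have t2 : (P * P'ᴴ).trace.re = ∑ i, ∑ j, d i * e j * ‖Z i j‖ ^ 2 := by
    have e1 : (P * P'ᴴ).trace.re = ((Matrix.diagonal (fun i => (d i : ℂ)) * Z *
        Matrix.diagonal (fun i => (e i : ℂ))) * Zᴴ).trace.re := by
      rw [hP'.1.eq, hU4, hW4, hZ, Matrix.conjTranspose_mul, Matrix.conjTranspose_conjTranspose,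
        Matrix.mul_assoc U, Matrix.mul_assoc U, Matrix.trace_mul_comm U]
      simp only [Matrix.mul_assoc]
    rw [e1, MX_tr]
    refine Finset.sum_congr rfl fun i _ => Finset.sum_congr rfl fun j _ => ?_
    rw [Matrix.mul_diagonal, Matrix.diagonal_mul]
    have : (d i : ℂ) * Z i j * (e j : ℂ) * (starRingEnd ℂ) (Z i j) =
        ((d i * e j * ‖Z i j‖ ^ 2 : ℝ) : ℂ) := by
      have h := Complex.mul_conj (Z i j)
      rw [Complex.normSq_eq_norm_sq] at h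
      calc _ = (d i : ℂ) * (e j : ℂ) * (Z i j * (starRingEnd ℂ) (Z i j)) := by ring
        _ = _ := by rw [h]; push_cast; ring
    rw [this, Complex.ofReal_re]
  have key : 4 * (A * Bᴴ).trace.re ≤ 2 * (P * P'ᴴ).trace.re + hs A + hs B := by
    have hpt : ∑ i, ∑ j, 4 * (G i j * (starRingEnd ℂ) (Z i j)).re ≤
        ∑ i, ∑ j, (2 * (d i * e j * ‖Z i j‖ ^ 2) + ‖G i j‖ ^ 2 / e j ^ 2 +
          ‖G i j‖ ^ 2 / d i ^ 2) := by
      refine Finset.sum_le_sum fun i _ => Finset.sum_le_sum fun j _ => ?_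
      refine MX_pt _ _ _ _ (hd i) (he j) ?_
      rintro (h | h)
      · rw [hG, Matrix.mul_apply]
        exact Finset.sum_eq_zero fun y _ => by rw [MX_zero A1 d hA1 i h y, zero_mul]
      · rw [hG, Matrix.mul_apply]
        exact Finset.sum_eq_zero fun y _ => by
          rw [Matrix.conjTranspose_apply, MX_zero B1 e hB1 j h y, star_zero, mul_zero]
    simp only [Finset.sum_add_distrib, ← Finset.mul_sum] at hpt
    rw [t1, t2]
    linarith
  rw [MX_hs_sub P P', MX_hs_sub A B, hsP, hsP']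
  linarith

lemma MX_col {L : ℕ} (C U : Matrix (Fin L) (Fin L) ℂ) (c : ℝ) (hU2 : Uᴴ * U = 1)
    (hC : ∀ u : Fin L → ℂ, ∑ i, ‖(C.mulVec u) i‖ ^ 2 ≤ c * ∑ i, ‖u i‖ ^ 2) (i : Fin L) :
    |((Uᴴ * C * U) i i).re| ≤ Real.sqrt c := by
  have hu : ∑ a, ‖U a i‖ ^ 2 = 1 := by
    have h := congrFun (congrFun hU2 i) i
    rw [Matrix.mul_apply, Matrix.one_apply_eq] at h
    have h' := congrArg Complex.re h
    rw [Complex.re_sum, Complex.one_re] at h'
    rw [← h']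
    refine Finset.sum_congr rfl fun y _ => ?_
    rw [Matrix.conjTranspose_apply]
    show _ = ((starRingEnd ℂ) (U y i) * U y i).re
    rw [mul_comm, Complex.mul_conj, Complex.ofReal_re, Complex.normSq_eq_norm_sq]
  have hCu := hC (fun a => U a i)
  rw [hu, mul_one] at hCu
  have e1 : (Uᴴ * C * U) i i = ∑ a, star (U a i) * (C.mulVec (fun a => U a i)) a := by
    rw [Matrix.mul_assoc, Matrix.mul_apply]
    refine Finset.sum_congr rfl fun a _ => ?_
    rw [Matrix.conjTranspose_apply, Matrix.mul_apply]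
    rfl
  have e2 : ‖(Uᴴ * C * U) i i‖ ^ 2 ≤ c := by
    rw [e1]
    calc ‖∑ a, star (U a i) * (C.mulVec (fun a => U a i)) a‖ ^ 2
        ≤ (∑ a, ‖U a i‖ * ‖(C.mulVec (fun a => U a i)) a‖) ^ 2 := by
          refine pow_le_pow_left₀ (norm_nonneg _) ?_ 2
          refine (norm_sum_le _ _).trans (le_of_eq ?_)
          refine Finset.sum_congr rfl fun a _ => ?_
          rw [norm_mul, norm_star]
      _ ≤ (∑ a, ‖U a i‖ ^ 2) * ∑ a, ‖(C.mulVec (fun a => U a i)) a‖ ^ 2 :=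
          Finset.sum_mul_sq_le_sq_mul_sq _ _ _
      _ ≤ c := by rw [hu, one_mul]; exact hCu
  refine (Complex.abs_re_le_norm _).trans ?_
  exact Real.le_sqrt_of_sq_le e2

lemma MX_three (L : ℕ) (A : Matrix (Fin L) k ℂ)
    (P C : Matrix (Fin L) (Fin L) ℂ) (c : ℝ) (hP : P.PosSemidef) (hA : P * P = A * Aᴴ) (hc : 0 ≤ c)
    (hC : ∀ u : Fin L → ℂ, ∑ i, ‖(C.mulVec u) i‖ ^ 2 ≤ c * ∑ i, ‖u i‖ ^ 2) :
    ((P * C).trace.re) ^ 2 ≤ c * Fintype.card k * hs A := by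
  classical
  obtain ⟨U, d, hU1, hU2, hd, hU4⟩ := MX_diag P hP
  have hA1 := MX_rows P U d A hU2 hU4 hA
  have hs1 := MX_hs_unit U A hU1
  obtain ⟨A1, hA1d⟩ : ∃ X : Matrix (Fin L) k ℂ, X = Uᴴ * A := ⟨_, rfl⟩
  rw [← hA1d] at hA1 hs1
  have hrow := MX_row0 A1 d hA1
  have hsA : hs A = ∑ i, d i ^ 2 := by
    rw [← hs1]
    unfold hs
    exact Finset.sum_congr rfl fun i _ => hrow i
  have hb := MX_bessel (1 : Matrix k k ℂ) A1 d hA1
  rw [Matrix.one_mul] at hb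
  have h1 : hs (1 : Matrix k k ℂ) = Fintype.card k := by
    unfold hs
    rw [← Finset.card_univ, ← nsmul_one, ← Finset.sum_const]
    refine Finset.sum_congr rfl fun i _ => ?_
    rw [Finset.sum_eq_single i]
    · simp
    · intro j _ hj
      rw [Matrix.one_apply_ne (Ne.symm hj)]
      simp
    · simp
  set S : Finset (Fin L) := Finset.univ.filter (fun i => d i ≠ 0) with hS
  have hcard : (S.card : ℝ) ≤ Fintype.card k := by
    rw [← h1]
    refine le_trans (le_of_eq ?_) hb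
    rw [Finset.sum_comm]
    have : ∀ i, ∑ y, ‖A1ᴴ y i‖ ^ 2 / d i ^ 2 = if d i ≠ 0 then (1 : ℝ) else 0 := by
      intro i
      rw [← Finset.sum_div]
      have e : ∑ y, ‖A1ᴴ y i‖ ^ 2 = d i ^ 2 := by
        rw [← hrow i]
        refine Finset.sum_congr rfl fun y _ => ?_
        rw [Matrix.conjTranspose_apply, norm_star]
      rw [e]
      split_ifs with h
      · exact div_self (pow_ne_zero 2 h)
      · push Not at h
        rw [h]; simp
    rw [Finset.sum_congr rfl fun i _ => this i, ← Finset.sum_filter, Finset.sum_const, nsmul_one]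
  have htr : (P * C).trace = ∑ i, (d i : ℂ) * (Uᴴ * C * U) i i := by
    rw [hU4, Matrix.mul_assoc, Matrix.mul_assoc, Matrix.trace_mul_comm]
    have : Matrix.diagonal (fun i => (d i : ℂ)) * (Uᴴ * C) * U =
        Matrix.diagonal (fun i => (d i : ℂ)) * (Uᴴ * C * U) := by simp only [Matrix.mul_assoc]
    rw [this]
    unfold Matrix.trace
    refine Finset.sum_congr rfl fun i _ => ?_
    rw [Matrix.diag_apply, Matrix.diagonal_mul]
  have habs : |(P * C).trace.re| ≤ Real.sqrt c * ∑ i ∈ S, d i := by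
    rw [htr, Complex.re_sum]
    refine (Finset.abs_sum_le_sum_abs _ _).trans ?_
    have e3 : ∑ i, |((d i : ℂ) * (Uᴴ * C * U) i i).re| ≤ ∑ i, Real.sqrt c * d i := by
      refine Finset.sum_le_sum fun i _ => ?_
      rw [Complex.re_ofReal_mul, abs_mul, abs_of_nonneg (hd i), mul_comm]
      exact mul_le_mul_of_nonneg_right (MX_col C U c hU2 hC i) (hd i)
    refine e3.trans (le_of_eq ?_)
    rw [← Finset.mul_sum, hS, Finset.sum_filter]
    congr 1
    refine Finset.sum_congr rfl fun i _ => ?_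
    split_ifs with h
    · rfl
    · push Not at h
      exact h
  have hcs : (∑ i ∈ S, d i) ^ 2 ≤ (S.card : ℝ) * ∑ i ∈ S, d i ^ 2 := sq_sum_le_card_mul_sum_sq
  have hle : ∑ i ∈ S, d i ^ 2 ≤ hs A := by
    rw [hsA]
    exact Finset.sum_le_sum_of_subset_of_nonneg (Finset.filter_subset _ _)
      (fun _ _ _ => sq_nonneg _)
  calc ((P * C).trace.re) ^ 2 = |(P * C).trace.re| ^ 2 := (sq_abs _).symm
    _ ≤ (Real.sqrt c * ∑ i ∈ S, d i) ^ 2 := pow_le_pow_left₀ (abs_nonneg _) habs 2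
    _ = c * (∑ i ∈ S, d i) ^ 2 := by rw [mul_pow, Real.sq_sqrt hc]
    _ ≤ c * ((S.card : ℝ) * ∑ i ∈ S, d i ^ 2) := mul_le_mul_of_nonneg_left hcs hc
    _ ≤ c * (Fintype.card k * hs A) := by
        refine mul_le_mul_of_nonneg_left ?_ hc
        exact mul_le_mul hcard hle (Finset.sum_nonneg fun _ _ => sq_nonneg _) (Nat.cast_nonneg _)
    _ = c * Fintype.card k * hs A := by ring

end MX

theorem MX_thm : SQ_MX :=
  ⟨fun L M hM => MX_one L M hM,
    fun L _ _ A B P P' hP hP' hA hB => MX_two L A B P P' hP hP' hA hB,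
    fun L _ _ A P C c hP hA hc hC => MX_three L A P C c hP hA hc hC⟩

end TauQ
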