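import Mathlib
import Pool.Agent.Work.MP_972ac7_tq.Interface

/-!
# Block TG: uniform gap at all levels `p^R` (helper84)
-/

set_option autoImplicit false
set_option linter.unusedSectionVars false

open scoped Quaternion BigOperators Matrix ComplexOrder

namespace TauQ

section TGred

variable {M M' : ℕ} [NeZero M] [NeZero M']

/-- reduction of quaternions -/
def TG_r (hd : M' ∣ M) : ℍ[ZMod M] →+* ℍ[ZMod M'] := qmap (ZMod.castHom hd (ZMod M'))

/-- reduction of quaternions of norm one -/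
def TG_rU (hd : M' ∣ M) : unitary ℍ[ZMod M] →* unitary ℍ[ZMod M'] where
  toFun x := ⟨TG_r hd x, (mem_unitary_iff _).2 (by
    rw [TG_r, normSq_qmap, (mem_unitary_iff _).1 x.2, map_one])⟩
  map_one' := Subtype.ext (map_one _)
  map_mul' x y := Subtype.ext (map_mul _ _ _)

lemma TG_rU_val (hd : M' ∣ M) (x : unitary ℍ[ZMod M]) :
    ((TG_rU hd x : unitary ℍ[ZMod M']) : ℍ[ZMod M']) = TG_r hd x := rfl

lemma TG_inv (hd : M' ∣ M) {q : ℕ} (hM : Nat.Coprime q M) :
    ZMod.castHom hd (ZMod M') ((q : ZMod M)⁻¹) = (q : ZMod M')⁻¹ := by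
  have h1 := ZMod.coe_mul_inv_eq_one q hM
  have h2 := ZMod.coe_mul_inv_eq_one q (Nat.Coprime.coprime_dvd_right hd hM)
  have h3 := congrArg (ZMod.castHom hd (ZMod M')) h1
  rw [map_mul, map_one, map_natCast] at h3
  calc ZMod.castHom hd (ZMod M') ((q : ZMod M)⁻¹)
      = ((q : ZMod M') * (q : ZMod M')⁻¹) * ZMod.castHom hd (ZMod M') ((q : ZMod M)⁻¹) := by
        rw [h2, one_mul]
    _ = (q : ZMod M')⁻¹ * ((q : ZMod M') * ZMod.castHom hd (ZMod M') ((q : ZMod M)⁻¹)) := by ring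
    _ = (q : ZMod M')⁻¹ := by rw [h3, mul_one]

lemma TG_r_smul (hd : M' ∣ M) (c : ZMod M) (x : ℍ[ZMod M]) :
    TG_r hd (c • x) = ZMod.castHom hd (ZMod M') c • TG_r hd x := by
  ext <;> simp only [TG_r, qmap_re, qmap_imI, qmap_imJ, qmap_imK, Quaternion.re_smul,
    Quaternion.imI_smul, Quaternion.imJ_smul, Quaternion.imK_smul, smul_eq_mul, map_mul]

lemma TG_r_redM (hd : M' ∣ M) (x : ℍ[ℤ]) : TG_r hd (redM M x) = redM M' x := by
  ext <;> simp only [TG_r, redM, qmap_re, qmap_imI, qmap_imJ, qmap_imK, eq_intCast, map_intCast]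

lemma TG_rU_uM (hd : M' ∣ M) {q : ℕ} (hM : Nat.Coprime q M) (hM' : Nat.Coprime q M')
    (b' b : SS q) : TG_rU hd (uM M hM b' b) = uM M' hM' b' b := by
  apply Subtype.ext
  rw [TG_rU_val]
  show TG_r hd (((q : ZMod M)⁻¹) • redM M (b'.val * b.val)) =
    ((q : ZMod M')⁻¹) • redM M' (b'.val * b.val)
  rw [TG_r_smul, TG_r_redM, TG_inv hd hM]

lemma TG_div (hd : M' ∣ M) (a : ZMod M) (h : ZMod.castHom hd (ZMod M') a = 0) :
    ∃ b : ZMod M, a = (M' : ZMod M) * b := by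
  have h1 : ((a.val : ℕ) : ZMod M') = 0 := by
    rw [← h, ← map_natCast (ZMod.castHom hd (ZMod M')), ZMod.natCast_val, ZMod.cast_id', id]
  rw [ZMod.natCast_eq_zero_iff] at h1
  obtain ⟨k, hk⟩ := h1
  refine ⟨(k : ZMod M), ?_⟩
  rw [← Nat.cast_mul, ← hk, ZMod.natCast_val, ZMod.cast_id', id]

lemma TG_ker (hd : M' ∣ M) (x : unitary ℍ[ZMod M]) (h : TG_rU hd x = 1) :
    ∃ y : ℍ[ZMod M], (x : ℍ[ZMod M]) = 1 + (M' : ℍ[ZMod M]) * y := by
  have h1 : TG_r hd (x : ℍ[ZMod M]) = 1 := by rw [← TG_rU_val, h]; rfl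
  have h2 : TG_r hd ((x : ℍ[ZMod M]) - 1) = 0 := by rw [map_sub, h1, map_one, sub_self]
  obtain ⟨a, ha⟩ := TG_div hd ((x : ℍ[ZMod M]) - 1).re (congrArg (fun y => y.re) h2)
  obtain ⟨b, hb⟩ := TG_div hd ((x : ℍ[ZMod M]) - 1).imI (congrArg (fun y => y.imI) h2)
  obtain ⟨c, hc⟩ := TG_div hd ((x : ℍ[ZMod M]) - 1).imJ (congrArg (fun y => y.imJ) h2)
  obtain ⟨d, hd'⟩ := TG_div hd ((x : ℍ[ZMod M]) - 1).imK (congrArg (fun y => y.imK) h2)
  refine ⟨mk4 a b c d, ?_⟩
  have e : (M' : ℍ[ZMod M]) * mk4 a b c d = (M' : ZMod M) • mk4 a b c d := by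
    rw [Algebra.smul_def, map_natCast]
  rw [← sub_eq_iff_eq_add', e]
  ext
  · rw [ha]; simp
  · rw [hb]; simp
  · rw [hc]; simp
  · rw [hd']; simp

end TGred

section TGfin

/-- the gap for one finite group, on the functions with zero sums on the orbits -/
theorem TG_finite (hgap : Stmt_gapS) (U ι : Type) [Group U] [Fintype U] [Fintype ι] (u : ι → U) :
    ∃ (g : ℝ) (o : U → Fin (Fintype.card U)), 0 < g ∧ (∀ i x, o (u i * x) = o x) ∧
      ∀ φ : U → ℂ, (∀ j, ∑ x, (if o x = j then φ x else 0) = 0) →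
        2 * g * ∑ x, ‖φ x‖ ^ 2 ≤ ∑ i, ∑ x, ‖φ (u i * x) - φ x‖ ^ 2 := by
  classical
  set H : Subgroup U := Subgroup.closure (Set.range u) with hH
  have huH : ∀ i, u i ∈ H := fun i => Subgroup.subset_closure (Set.mem_range_self i)
  let s : ι → H := fun i => ⟨u i, huH i⟩
  have hs : Subgroup.closure (Set.range s) = ⊤ := by
    have h1 := Subgroup.closure_closure_coe_preimage (k := Set.range u)
    have h2 : (((↑) : Subgroup.closure (Set.range u) → U) ⁻¹' Set.range u) = Set.range s := by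
      ext x
      simp only [Set.mem_preimage, Set.mem_range]
      constructor
      · rintro ⟨i, hi⟩
        exact ⟨i, Subtype.ext hi⟩
      · rintro ⟨i, hi⟩
        exact ⟨i, congrArg Subtype.val hi⟩
    rw [h2] at h1
    exact h1
  obtain ⟨g, hg, hG⟩ := hgap H ι s hs
  let o : U → Fin (Fintype.card U) := fun x =>
    Fintype.equivFin U (Quotient.out (Quotient.mk (QuotientGroup.rightRel H) x))
  have ho : ∀ x y, o x = o y ↔ x * y⁻¹ ∈ H := by
    intro x y
    show Fintype.equivFin U _ = Fintype.equivFin U _ ↔ _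
    rw [(Fintype.equivFin U).injective.eq_iff, Quotient.out_inj, Quotient.eq,
      QuotientGroup.rightRel_apply]
    rw [← H.inv_mem_iff, mul_inv_rev, inv_inv]
  refine ⟨g, o, hg, ?_, ?_⟩
  · intro i x
    rw [ho, mul_inv_cancel_right]
    exact huH i
  · intro φ hφ
    have hzero : ∀ x0 : U, ∑ y : H, φ (y * x0) = 0 := by
      intro x0
      rw [← hφ (o x0)]
      rw [← Equiv.sum_comp (Equiv.mulRight x0) (fun x => if o x = o x0 then φ x else 0)]
      simp only [Equiv.coe_mulRight, ho, mul_inv_cancel_right]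
      rw [← Finset.sum_filter]
      symm
      exact Finset.sum_subtype (Finset.univ.filter fun y : U => y ∈ H) (by simp)
        (fun y => φ (y * x0))
    have hsum : ∑ x0 : U, (2 * g * ∑ y : H, ‖φ (y * x0)‖ ^ 2) ≤
        ∑ x0 : U, ∑ i, ∑ y : H, ‖φ (s i * y * x0) - φ (y * x0)‖ ^ 2 := by
      apply Finset.sum_le_sum
      intro x0 _
      exact hG (fun y => φ (y * x0)) (hzero x0)
    have hL : ∑ x0 : U, (2 * g * ∑ y : H, ‖φ (y * x0)‖ ^ 2) =
        Fintype.card H * (2 * g * ∑ x, ‖φ x‖ ^ 2) := by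
      rw [← Finset.mul_sum, Finset.sum_comm]
      have : ∀ y : H, ∑ x0 : U, ‖φ (y * x0)‖ ^ 2 = ∑ x, ‖φ x‖ ^ 2 := by
        intro y
        exact Equiv.sum_comp (Equiv.mulLeft (y : U)) (fun x => ‖φ x‖ ^ 2)
      rw [Finset.sum_congr rfl fun y _ => this y, Finset.sum_const, Finset.card_univ,
        nsmul_eq_mul]
      ring
    have hR : ∑ x0 : U, ∑ i, ∑ y : H, ‖φ (s i * y * x0) - φ (y * x0)‖ ^ 2 =
        Fintype.card H * ∑ i, ∑ x, ‖φ (u i * x) - φ x‖ ^ 2 := by
      rw [Finset.sum_comm, Finset.mul_sum]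
      apply Finset.sum_congr rfl
      intro i _
      rw [Finset.sum_comm]
      have : ∀ y : H, ∑ x0 : U, ‖φ (s i * y * x0) - φ (y * x0)‖ ^ 2 =
          ∑ x, ‖φ (u i * x) - φ x‖ ^ 2 := by
        intro y
        rw [← Equiv.sum_comp (Equiv.mulLeft (y : U)) (fun x => ‖φ (u i * x) - φ x‖ ^ 2)]
        apply Finset.sum_congr rfl
        intro x0 _
        simp only [Equiv.coe_mulLeft, mul_assoc]
        rfl
      rw [Finset.sum_congr rfl fun y _ => this y, Finset.sum_const, Finset.card_univ,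
        nsmul_eq_mul]
    rw [hL, hR] at hsum
    have hc : (0 : ℝ) < Fintype.card H := by exact_mod_cast Fintype.card_pos
    exact le_of_mul_le_mul_left hsum hc

end TGfin

section TGspec

/-- the Rayleigh quotient is at most the largest eigenvalue -/
theorem TG_spec {E : Type} [NormedAddCommGroup E] [InnerProductSpace ℂ E]
    [FiniteDimensional ℂ E] (T : E →ₗ[ℂ] E) (hT : T.IsSymmetric) (c : ℝ)
    (h : ∀ (μ : ℝ) (v : E), v ≠ 0 → T v = (μ : ℂ) • v → μ ≤ c) (x : E) :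
    (inner ℂ (T x) x : ℂ).re ≤ c * ‖x‖ ^ 2 := by
  classical
  obtain ⟨n, hn⟩ : ∃ n, Module.finrank ℂ E = n := ⟨_, rfl⟩
  let b := hT.eigenvectorBasis hn
  have hb : ∀ i, T (b i) = ((hT.eigenvalues hn i : ℝ) : ℂ) • b i :=
    fun i => hT.apply_eigenvectorBasis hn i
  have hb0 : ∀ i, b i ≠ 0 := fun i => b.orthonormal.ne_zero i
  have hle : ∀ i, hT.eigenvalues hn i ≤ c := fun i => h _ _ (hb0 i) (hb i)
  have h1 : (inner ℂ (T x) x : ℂ) =
      ∑ i, ((hT.eigenvalues hn i : ℝ) : ℂ) * ((‖(inner ℂ (b i) x : ℂ)‖ ^ 2 : ℝ) : ℂ) := by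
    rw [← b.sum_inner_mul_inner]
    apply Finset.sum_congr rfl
    intro i _
    rw [hT x (b i), hb, inner_smul_right, mul_assoc]
    congr 1
    rw [← inner_conj_symm x (b i), Complex.conj_mul']
    push_cast
    ring
  rw [h1, Complex.re_sum]
  have h2 : ‖x‖ ^ 2 = ∑ i, ‖(inner ℂ (b i) x : ℂ)‖ ^ 2 := (b.sum_sq_norm_inner_right x).symm
  rw [h2, Finset.mul_sum]
  apply Finset.sum_le_sum
  intro i _
  rw [← Complex.ofReal_mul, Complex.ofReal_re]
  exact mul_le_mul_of_nonneg_right (hle i) (sq_nonneg _)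

variable {U ι : Type} [Group U] [Fintype U] [Fintype ι]

/-- the averaging operator -/
noncomputable def TG_T (u : ι → U) : EuclideanSpace ℂ U →ₗ[ℂ] EuclideanSpace ℂ U where
  toFun φ := WithLp.toLp 2 (fun x => ∑ i, φ (u i * x))
  map_add' φ ψ := by
    ext x
    simp [Finset.sum_add_distrib]
  map_smul' c φ := by
    ext x
    simp [Finset.mul_sum]

lemma TG_T_apply (u : ι → U) (φ : EuclideanSpace ℂ U) (x : U) :
    TG_T u φ x = ∑ i, φ (u i * x) := rfl

lemma TG_T_symm (u : ι → U) (σ : ι → ι) (hσ : ∀ i, σ (σ i) = i) (hu : ∀ i, u (σ i) = (u i)⁻¹) :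
    (TG_T u).IsSymmetric := by
  intro φ ψ
  simp only [PiLp.inner_apply, RCLike.inner_apply, TG_T_apply, map_sum, Finset.mul_sum,
    Finset.sum_mul]
  let e : ι ≃ ι := ⟨σ, σ, hσ, hσ⟩
  have hL : ∑ y, ∑ i, ψ y * (starRingEnd ℂ) (φ (u i * y)) =
      ∑ i, ∑ y, ψ y * (starRingEnd ℂ) (φ (u (σ i) * y)) := by
    rw [Finset.sum_comm]
    exact (Equiv.sum_comp e (fun i => ∑ y, ψ y * (starRingEnd ℂ) (φ (u i * y)))).symm
  have hR : ∑ x, ∑ i, ψ (u i * x) * (starRingEnd ℂ) (φ x) =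
      ∑ i, ∑ x, ψ (u i * x) * (starRingEnd ℂ) (φ x) := Finset.sum_comm
  refine hL.trans (Eq.trans ?_ hR.symm)
  apply Finset.sum_congr rfl
  intro i _
  rw [← Equiv.sum_comp (Equiv.mulLeft (u i))]
  apply Finset.sum_congr rfl
  intro x _
  show ψ (u i * x) * (starRingEnd ℂ) (φ (u (σ i) * (u i * x))) = _
  rw [hu, inv_mul_cancel_left]

/-- zero sums on the classes -/
def TG_Z {O : ℕ} (o : U → Fin O) : Submodule ℂ (EuclideanSpace ℂ U) where
  carrier := {φ | ∀ j, ∑ x, (if o x = j then φ x else 0) = 0}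
  zero_mem' := by intro j; simp
  add_mem' := by
    intro φ ψ hφ hψ j
    have : ∀ x, (if o x = j then (φ + ψ) x else 0) =
        (if o x = j then φ x else 0) + (if o x = j then ψ x else 0) := by
      intro x
      split_ifs <;> simp
    rw [Finset.sum_congr rfl fun x _ => this x, Finset.sum_add_distrib, hφ j, hψ j, add_zero]
  smul_mem' := by
    intro c φ hφ j
    have : ∀ x, (if o x = j then (c • φ) x else 0) = c * (if o x = j then φ x else 0) := by
      intro x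
      split_ifs <;> simp
    rw [Finset.sum_congr rfl fun x _ => this x, ← Finset.mul_sum, hφ j, mul_zero]

lemma TG_inv' {O : ℕ} (o : U → Fin O) (u : ι → U) (ho : ∀ i x, o (u i * x) = o x) :
    ∀ φ ∈ TG_Z o, TG_T u φ ∈ TG_Z o := by
  intro φ hφ j
  have h1 : ∀ x, (if o x = j then TG_T u φ x else 0) =
      ∑ i, (if o (u i * x) = j then φ (u i * x) else 0) := by
    intro x
    rw [TG_T_apply]
    split_ifs with h
    · apply Finset.sum_congr rfl
      intro i _
      rw [if_pos (by rw [ho]; exact h)]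
    · symm
      apply Finset.sum_eq_zero
      intro i _
      rw [if_neg (by rw [ho]; exact h)]
  rw [Finset.sum_congr rfl fun x _ => h1 x, Finset.sum_comm]
  apply Finset.sum_eq_zero
  intro i _
  exact (Equiv.sum_comp (Equiv.mulLeft (u i)) (fun x => if o x = j then φ x else 0)).trans (hφ j)

lemma TG_energy (u : ι → U) (φ : U → ℂ) :
    ∑ i, ∑ x, ‖φ (u i * x) - φ x‖ ^ 2 =
      2 * Fintype.card ι * ∑ x, ‖φ x‖ ^ 2 -
        2 * (∑ x, (starRingEnd ℂ) (∑ i, φ (u i * x)) * φ x).re := by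
  have h1 : ∀ i x, ‖φ (u i * x) - φ x‖ ^ 2 =
      ‖φ (u i * x)‖ ^ 2 + ‖φ x‖ ^ 2 - 2 * ((starRingEnd ℂ) (φ (u i * x)) * φ x).re := by
    intro i x
    rw [← Complex.normSq_eq_norm_sq, ← Complex.normSq_eq_norm_sq, ← Complex.normSq_eq_norm_sq,
      Complex.normSq_sub]
    congr 2
    simp only [Complex.mul_re, Complex.conj_re, Complex.conj_im]
    ring
  have h2 : ∀ i, ∑ x, ‖φ (u i * x)‖ ^ 2 = ∑ x, ‖φ x‖ ^ 2 := fun i =>
    Equiv.sum_comp (Equiv.mulLeft (u i)) (fun x => ‖φ x‖ ^ 2)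
  have h3 : (∑ x, (starRingEnd ℂ) (∑ i, φ (u i * x)) * φ x).re =
      ∑ i, ∑ x, ((starRingEnd ℂ) (φ (u i * x)) * φ x).re := by
    rw [Complex.re_sum, Finset.sum_comm]
    apply Finset.sum_congr rfl
    intro x _
    rw [map_sum, Finset.sum_mul, Complex.re_sum]
  rw [h3]
  simp only [h1, Finset.sum_sub_distrib, Finset.sum_add_distrib, h2, Finset.sum_const,
    Finset.card_univ, nsmul_eq_mul, ← Finset.mul_sum]
  ring

/-- the gap from the eigenvalues -/
theorem TG_gap {O : ℕ} (o : U → Fin O) (u : ι → U) (ho : ∀ i x, o (u i * x) = o x)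
    (σ : ι → ι) (hσ : ∀ i, σ (σ i) = i) (hu : ∀ i, u (σ i) = (u i)⁻¹) (g : ℝ)
    (h : ∀ (μ : ℝ) (f : U → ℂ), f ≠ 0 → (∀ j, ∑ x, (if o x = j then f x else 0) = 0) →
      (∀ x, ∑ i, f (u i * x) = (μ : ℂ) * f x) → μ ≤ Fintype.card ι - g)
    (φ : U → ℂ) (hφ : ∀ j, ∑ x, (if o x = j then φ x else 0) = 0) :
    2 * g * ∑ x, ‖φ x‖ ^ 2 ≤ ∑ i, ∑ x, ‖φ (u i * x) - φ x‖ ^ 2 := by
  have hZ := TG_inv' o u ho
  have hs := (TG_T_symm u σ hσ hu).restrict_invariant hZ
  have h1 := TG_spec (E := TG_Z o) ((TG_T u).restrict hZ) hs (Fintype.card ι - g) (by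
    intro μ v hv hTv
    refine h μ (fun x => v.1 x) ?_ ?_ ?_
    · intro h0
      apply hv
      apply Subtype.ext
      ext x
      exact congrFun h0 x
    · intro j
      exact v.2 j
    · intro x
      have h2 := congrArg (fun w : TG_Z o => w.1 x) hTv
      have h3 : TG_T u v.1 x = (μ : ℂ) * v.1 x := by simpa using h2
      exact h3)
    ⟨WithLp.toLp 2 φ, hφ⟩
  have h2 : ‖(⟨WithLp.toLp 2 φ, hφ⟩ : TG_Z o)‖ ^ 2 = ∑ x, ‖φ x‖ ^ 2 := by
    rw [Submodule.coe_norm, EuclideanSpace.norm_sq_eq]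
  have h3 : (inner ℂ ((TG_T u).restrict hZ ⟨WithLp.toLp 2 φ, hφ⟩)
      (⟨WithLp.toLp 2 φ, hφ⟩ : TG_Z o) : ℂ) =
      ∑ x, (starRingEnd ℂ) (∑ i, φ (u i * x)) * φ x := by
    rw [Submodule.coe_inner, PiLp.inner_apply]
    apply Finset.sum_congr rfl
    intro x _
    rw [RCLike.inner_apply, mul_comm]
    rfl
  rw [h2, h3] at h1
  rw [TG_energy]
  linarith

end TGspec

/-- the statement at one level -/
def TG_P (p q R : ℕ) (g : ℝ) (O : ℕ) : Prop :=
  ∀ [NeZero (p ^ R)] (hM : Nat.Coprime q (p ^ R)),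
    ∃ o : unitary ℍ[ZMod (p ^ R)] → Fin O,
      (∀ (b' b : SS q) (x : unitary ℍ[ZMod (p ^ R)]), o (uM (p ^ R) hM b' b * x) = o x) ∧
      ∀ φ : unitary ℍ[ZMod (p ^ R)] → ℂ, (∀ j, ∑ x, (if o x = j then φ x else 0) = 0) →
        2 * g * ∑ x, ‖φ x‖ ^ 2 ≤
          ∑ b' : SS q, ∑ b : SS q, ∑ x, ‖φ (uM (p ^ R) hM b' b * x) - φ x‖ ^ 2

lemma TG_mono {p q R : ℕ} {g g' : ℝ} {O O' : ℕ} (h : TG_P p q R g O) (hg : g' ≤ g)
    (hO : O ≤ O') : TG_P p q R g' O' := by
  intro _ hM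
  obtain ⟨o, h1, h2⟩ := h hM
  refine ⟨fun x => Fin.castLE hO (o x), ?_, ?_⟩
  · intro b' b x
    show Fin.castLE hO (o _) = Fin.castLE hO (o x)
    rw [h1]
  · intro φ hφ
    have h3 := h2 φ (by
      intro j
      refine Eq.trans ?_ (hφ (Fin.castLE hO j))
      apply Finset.sum_congr rfl
      intro x _
      simp only [(Fin.castLE_injective hO).eq_iff])
    have h4 : 0 ≤ ∑ x, ‖φ x‖ ^ 2 := Finset.sum_nonneg fun _ _ => sq_nonneg _
    refine le_trans ?_ h3
    nlinarith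

lemma TG_one (hgap : Stmt_gapS) (p q R : ℕ) (hp : p.Prime) :
    ∃ (g : ℝ) (O : ℕ), 0 < g ∧ TG_P p q R g O := by
  have : NeZero (p ^ R) := ⟨(pow_pos hp.pos R).ne'⟩
  by_cases hM : Nat.Coprime q (p ^ R)
  · obtain ⟨g, o, hg, h1, h2⟩ := TG_finite hgap (unitary ℍ[ZMod (p ^ R)]) (SS q × SS q)
      (fun i => uM (p ^ R) hM i.1 i.2)
    refine ⟨g, Fintype.card (unitary ℍ[ZMod (p ^ R)]), hg, ?_⟩
    intro _ hM'
    refine ⟨o, fun b' b x => h1 (b', b) x, fun φ hφ => ?_⟩
    have h3 := h2 φ hφ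
    rw [Fintype.sum_prod_type] at h3
    exact h3
  · refine ⟨1, 0, one_pos, ?_⟩
    intro _ hM'
    exact absurd hM' hM

lemma TG_many (hgap : Stmt_gapS) (p q : ℕ) (hp : p.Prime) (r : ℕ) :
    ∃ (g : ℝ) (O : ℕ), 0 < g ∧ ∀ R, R ≤ r → TG_P p q R g O := by
  induction r with
  | zero =>
    obtain ⟨g, O, hg, h⟩ := TG_one hgap p q 0 hp
    refine ⟨g, O, hg, fun R hR => ?_⟩
    obtain rfl : R = 0 := by omega
    exact h
  | succ r ih =>
    obtain ⟨g, O, hg, h⟩ := ih
    obtain ⟨g', O', hg', h'⟩ := TG_one hgap p q (r + 1) hp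
    refine ⟨min g g', max O O', lt_min hg hg', fun R hR => ?_⟩
    rcases Nat.lt_or_ge r R with hlt | hge
    · obtain rfl : R = r + 1 := by omega
      exact TG_mono h' (min_le_right _ _) (le_max_right _ _)
    · exact TG_mono (h R hge) (min_le_left _ _) (le_max_left _ _)

/-- the conjugate letter -/
def TG_star {q : ℕ} (b : SS q) : SS q := ⟨star b.val, OO_star b.mem, by
  rw [Quaternion.normSq_star]; exact b.norm⟩

lemma TG_star_val {q : ℕ} (b : SS q) : (TG_star b).val = star b.val := rfl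

lemma TG_star_star {q : ℕ} (b : SS q) : TG_star (TG_star b) = b := SS.ext (by
  rw [TG_star_val, TG_star_val, star_star])

lemma TG_uM_star {q M : ℕ} (hM : Nat.Coprime q M) (b' b : SS q) :
    uM M hM (TG_star b) (TG_star b') = (uM M hM b' b)⁻¹ := by
  apply Subtype.ext
  show ((q : ZMod M)⁻¹) • redM M ((TG_star b).val * (TG_star b').val) =
    star (((q : ZMod M)⁻¹) • redM M (b'.val * b.val))
  rw [TG_star_val, TG_star_val, ← star_mul, redM, qmap_star]
  ext <;> simp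

/-- lifting the gap from the level `p^r` -/
lemma TG_lift (hSP : SQ_SP) (hcard : Stmt_card) (p q r R : ℕ) (hp : p.Prime) (hq : q.Prime)
    (hp4 : p % 4 = 1) (hq4 : q % 4 = 1) (hpq : p ≠ q) (hrR : r ≤ R) (g : ℝ) (O : ℕ)
    (hP : TG_P p q r g O)
    (hNU : ∀ i, r < i → ∀ μ : ℝ, ((q : ℝ) + 1) ^ 2 - g ≤ μ →
      ¬ ∀ j : ℕ, ((p ^ i).totient : ℝ) * μ ^ (2 * j) ≤
        2 * (((p ^ i : ℕ) : ℝ) ^ 3 * (WW q (p ^ i) (4 * j) : ℝ))) :
    TG_P p q R g O := by
  intro hne hM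
  classical
  have hne' : NeZero (p ^ r) := ⟨(pow_pos hp.pos r).ne'⟩
  have hd : p ^ r ∣ p ^ R := pow_dvd_pow p hrR
  have hM' : Nat.Coprime q (p ^ r) := Nat.Coprime.coprime_dvd_right hd hM
  obtain ⟨o, ho1, ho2⟩ := hP hM'
  have hcq : Fintype.card (SS q) = q + 1 := by
    have := hcard q hq hq4
    simpa [Nat.card_eq_fintype_card] using this
  have hcι : (Fintype.card (SS q × SS q) : ℝ) = ((q : ℝ) + 1) ^ 2 := by
    rw [Fintype.card_prod, hcq]
    push_cast
    ring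
  have hoR : ∀ (i : SS q × SS q) (x : unitary ℍ[ZMod (p ^ R)]),
      o (TG_rU hd (uM (p ^ R) hM i.1 i.2 * x)) = o (TG_rU hd x) := by
    intro i x
    rw [map_mul, TG_rU_uM hd hM hM', ho1]
  refine ⟨fun x => o (TG_rU hd x), fun b' b x => hoR (b', b) x, ?_⟩
  intro φ hφ
  have hp2 : p ≠ 2 := by
    rintro rfl
    norm_num at hp4
  have key := TG_gap (U := unitary ℍ[ZMod (p ^ R)]) (ι := SS q × SS q)
    (fun x => o (TG_rU hd x)) (fun i => uM (p ^ R) hM i.1 i.2) hoR
    (fun i => (TG_star i.2, TG_star i.1)) (fun i => by simp only [TG_star_star])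
    (fun i => TG_uM_star hM i.1 i.2) g ?_ φ hφ
  · rw [Fintype.sum_prod_type] at key
    exact key
  · intro μ f hf0 hfz hfT
    rw [hcι]
    by_contra hμ
    rw [not_le] at hμ
    have hfT' : ∀ x, ∑ b' : SS q, ∑ b : SS q, f (uM (p ^ R) hM b' b * x) = (μ : ℂ) * f x := by
      intro x
      rw [← hfT x, Fintype.sum_prod_type]
    -- invariance
    have hinv : ∀ x k : unitary ℍ[ZMod (p ^ R)], TG_rU hd k = 1 → f (x * k) = f x := by
      intro x k hk
      by_contra hne2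
      obtain ⟨i, hi1, -, hi3⟩ := hSP q hq hq4 p R r hp hp2 hrR hM μ f hfT'
        ⟨x, k, TG_ker hd k hk, hne2⟩
      exact hNU i hi1 μ hμ.le hi3
    have hinv2 : ∀ x x' : unitary ℍ[ZMod (p ^ R)], TG_rU hd x = TG_rU hd x' → f x = f x' := by
      intro x x' hxx
      have h1 := hinv x' (x'⁻¹ * x) (by rw [map_mul, map_inv, hxx, inv_mul_cancel])
      rw [mul_inv_cancel_left] at h1
      exact h1
    -- descend
    let F : unitary ℍ[ZMod (p ^ r)] → ℂ := fun y =>
      if h : ∃ x, TG_rU hd x = y then f (Classical.choose h) else 0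
    have hFon : ∀ x, F (TG_rU hd x) = f x := by
      intro x
      have h : ∃ x', TG_rU hd x' = TG_rU hd x := ⟨x, rfl⟩
      show (if h : ∃ x', TG_rU hd x' = TG_rU hd x then f (Classical.choose h) else 0) = f x
      rw [dif_pos h]
      exact hinv2 _ _ (Classical.choose_spec h)
    have hFoff : ∀ y, (¬ ∃ x, TG_rU hd x = y) → F y = 0 := by
      intro y hy
      show (if h : ∃ x', TG_rU hd x' = y then f (Classical.choose h) else 0) = 0
      rw [dif_neg hy]
    have hFT : ∀ y, ∑ i : SS q × SS q, F (uM (p ^ r) hM' i.1 i.2 * y) = (μ : ℂ) * F y := by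
      intro y
      by_cases h : ∃ x, TG_rU hd x = y
      · obtain ⟨x, rfl⟩ := h
        rw [hFon, ← hfT x]
        apply Finset.sum_congr rfl
        intro i _
        rw [← hFon, map_mul, TG_rU_uM hd hM hM']
      · rw [hFoff y h, mul_zero]
        apply Finset.sum_eq_zero
        intro i _
        apply hFoff
        rintro ⟨x, hx⟩
        apply h
        refine ⟨(uM (p ^ R) hM i.1 i.2)⁻¹ * x, ?_⟩
        rw [map_mul, map_inv, hx, TG_rU_uM hd hM hM', inv_mul_cancel_left]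
    -- fibres of the reduction
    have hfib : ∀ (G : unitary ℍ[ZMod (p ^ r)] → ℂ), (∀ y, (¬ ∃ x, TG_rU hd x = y) → G y = 0) →
        (Fintype.card (TG_rU (M := p ^ R) (M' := p ^ r) hd).ker : ℂ) * ∑ y, G y =
          ∑ x, G (TG_rU hd x) := by
      intro G hG
      rw [← Finset.sum_fiberwise (Finset.univ : Finset (unitary ℍ[ZMod (p ^ R)]))
        (fun x => TG_rU hd x), Finset.mul_sum]
      apply Finset.sum_congr rfl
      intro y _
      rw [Finset.sum_congr rfl (g := fun _ => G y) (by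
        intro x hx
        rw [Finset.mem_filter] at hx
        rw [hx.2])]
      rw [Finset.sum_const, nsmul_eq_mul]
      by_cases h : ∃ x, TG_rU hd x = y
      · congr 2
        obtain ⟨x0, hx0⟩ := h
        rw [← Finset.card_univ]
        refine Finset.card_bij (fun (k : (TG_rU (M := p ^ R) (M' := p ^ r) hd).ker) _ =>
          x0 * (k : unitary ℍ[ZMod (p ^ R)])) ?_ ?_ ?_
        · intro k _
          rw [Finset.mem_filter]
          refine ⟨Finset.mem_univ _, ?_⟩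
          have := k.2
          rw [MonoidHom.mem_ker] at this
          rw [map_mul, this, mul_one, hx0]
        · intro k _ k' _ hkk
          exact Subtype.ext (mul_left_cancel hkk)
        · intro x hx
          rw [Finset.mem_filter] at hx
          refine ⟨⟨x0⁻¹ * x, ?_⟩, Finset.mem_univ _, ?_⟩
          · rw [MonoidHom.mem_ker, map_mul, map_inv, hx0, hx.2, inv_mul_cancel]
          · show x0 * (x0⁻¹ * x) = x
            rw [mul_inv_cancel_left]
      · rw [hG y h, mul_zero, mul_zero]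
    have hFz : ∀ j, ∑ y, (if o y = j then F y else 0) = 0 := by
      intro j
      have h1 := hfib (fun y => if o y = j then F y else 0) (by
        intro y hy
        rw [hFoff y hy, ite_self])
      have h2 : ∑ x, (fun y => if o y = j then F y else 0) (TG_rU hd x) = 0 := by
        refine Eq.trans ?_ (hfz j)
        apply Finset.sum_congr rfl
        intro x _
        simp only [hFon]
      rw [h2] at h1
      rcases mul_eq_zero.1 h1 with h3 | h3
      · exfalso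
        have : (Fintype.card (TG_rU (M := p ^ R) (M' := p ^ r) hd).ker : ℂ) ≠ 0 := by
          exact_mod_cast Fintype.card_ne_zero
        exact this h3
      · exact h3
    have hF0 : 0 < ∑ y, ‖F y‖ ^ 2 := by
      obtain ⟨x, hx⟩ : ∃ x, f x ≠ 0 := by
        by_contra hcon
        push Not at hcon
        exact hf0 (funext hcon)
      apply Finset.sum_pos' (fun _ _ => sq_nonneg _)
      refine ⟨TG_rU hd x, Finset.mem_univ _, ?_⟩
      rw [hFon]
      positivity
    have hE := ho2 F hFz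
    have hE2 := TG_energy (U := unitary ℍ[ZMod (p ^ r)]) (ι := SS q × SS q)
      (fun i => uM (p ^ r) hM' i.1 i.2) F
    rw [Fintype.sum_prod_type] at hE2
    rw [hE2, hcι] at hE
    have h5 : (∑ y, (starRingEnd ℂ) (∑ i : SS q × SS q, F (uM (p ^ r) hM' i.1 i.2 * y)) * F y).re
        = μ * ∑ y, ‖F y‖ ^ 2 := by
      have h6 : ∀ y, (starRingEnd ℂ) (∑ i : SS q × SS q, F (uM (p ^ r) hM' i.1 i.2 * y)) * F y =
          ((μ * ‖F y‖ ^ 2 : ℝ) : ℂ) := by
        intro y
        rw [hFT y, map_mul, Complex.conj_ofReal, mul_assoc, Complex.conj_mul']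
        push_cast
        ring
      rw [Finset.sum_congr rfl fun y _ => h6 y, ← Complex.ofReal_sum, Complex.ofReal_re,
        ← Finset.mul_sum]
    rw [h5] at hE
    nlinarith

theorem TG_thm (h1 : SQ_NU) (h2 : SQ_SP) (h3 : Stmt_gapS) (h4 : Stmt_card) : SQ_TG := by
  intro p q hp hq hp4 hq4 hpq
  obtain ⟨g₀, L₀, hg₀, hNU⟩ := h1 q hq hq4
  have hp2 : p ≠ 2 := by
    rintro rfl
    norm_num at hp4
  -- the level `r`
  have hr : ∀ i, L₀ ≤ i → L₀ ≤ p ^ i := fun i hi =>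
    hi.trans (Nat.lt_pow_self hp.one_lt).le
  obtain ⟨g₁, O, hg₁, hP⟩ := TG_many h3 p q hp L₀
  refine ⟨min g₀ g₁, O, lt_min hg₀ hg₁, ?_⟩
  intro R hne hM
  have hfin : TG_P p q R (min g₀ g₁) O := by
    rcases Nat.lt_or_ge L₀ R with hlt | hge
    · refine TG_lift h2 h4 p q L₀ R hp hq hp4 hq4 hpq hlt.le _ O
        (TG_mono (hP L₀ le_rfl) (min_le_right _ _) le_rfl) ?_
      intro i hi μ hμ
      exact hNU p i hp hp2 hpq (hr i hi.le) μ (by
        have := min_le_left g₀ g₁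
        linarith)
    · exact TG_mono (hP R hge) (min_le_right _ _) le_rfl
  exact hfin hM

end TauQ
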