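import Mathlib
import Pool.Agent.Work.MP_972ac7_tq.Interface2

/-!
# Block TP: the gap of a finite set with denominators powers of `p` on all finite quotients
-/

open scoped Quaternion BigOperators Matrix ComplexOrder

namespace TauQ

lemma TP_swap {p q : ℕ} (h : VH (SS p) (SS q)) (hh : IsQVH h) : IsQVH h.swap := by
  obtain ⟨h1, h2, h3⟩ := hh
  refine ⟨h2, h1, ?_⟩
  intro b a
  have e : h.vh ((h.vh.symm (b, a)).1, (h.vh.symm (b, a)).2) = (b, a) := by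
    rw [Prod.mk.eta, Equiv.apply_symm_apply]
  have := h3 (h.vh.symm (b, a)).1 (h.vh.symm (b, a)).2
  rw [e] at this
  exact this.symm

theorem TP_thm (hQG : SQ_QG) (hLK : SQ_LK) (hFP : SQ_FP) (hvh : Stmt_vh) : SQ_TP := by
  intro p q hp hq hp4 hq4 hpq
  obtain ⟨h, hh⟩ := hvh p q hp hq hp4 hq4 hpq
  obtain ⟨δ, hδ, hgap⟩ := hQG q p hq hp hq4 hp4 hpq.symm
  obtain ⟨QQ, hden, hQQ⟩ := hFP p q hp hq hp4 hq4 hpq
  obtain ⟨c, hc, hfin⟩ := hQQ δ hδ
  refine ⟨QQ, c, hc, hden, ?_⟩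
  intro N hN hNf _ v hv
  obtain ⟨Q, _, _, r, rQ, h1, h2, h3⟩ := hLK p q hp hq hp4 hq4 hpq h hh N hN hNf
  exact hfin h hh N Q r rQ h1 h2 h3 (by
    intro f hf
    exact hgap h.swap (TP_swap h hh) Q r.swap f hf) v hv

end TauQ
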