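import Mathlib
import Pool.Agent.Work.MP_972ac7_tq.Interface

/-!
# Block TR: transitivity of the norm one group on singular primitive quaternions
-/

open scoped Quaternion BigOperators Matrix ComplexOrder

namespace TauQ

/-- a nonunit modulo `p^R` is a multiple of `p` -/
lemma TR_nonunit (p R : ℕ) (hp : p.Prime) (z : ZMod (p ^ R)) (hz : ¬ IsUnit z) :
    ∃ y : ZMod (p ^ R), z = (p : ZMod (p ^ R)) * y := by
  have : NeZero (p ^ R) := ⟨pow_ne_zero _ hp.ne_zero⟩
  have h1 : ((z.val : ℕ) : ZMod (p ^ R)) = z := ZMod.natCast_zmod_val z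
  have h2 : ¬ Nat.Coprime z.val (p ^ R) := by
    rw [← ZMod.isUnit_iff_coprime, h1]
    exact hz
  have h3 : p ∣ z.val := by
    by_contra hcon
    exact h2 (Nat.Coprime.pow_right R ((Nat.Prime.coprime_iff_not_dvd hp).2 hcon).symm)
  obtain ⟨y, hy⟩ := h3
  refine ⟨(y : ZMod (p ^ R)), ?_⟩
  rw [← h1, hy]
  push_cast
  ring

/-- factorisation of a singular matrix with a unit entry -/
lemma TR_fac {K : Type} [CommRing K] (W : Matrix (Fin 2) (Fin 2) K) (hdet : W.det = 0)
    (hu : ∃ i j, IsUnit (W i j)) : ∃ (P : Matrix (Fin 2) (Fin 2) K) (r : Fin 2 → K) (k : Fin 2),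
      P.det = 1 ∧ r k = 1 ∧ W = P * Matrix.of ![r, 0] := by
  obtain ⟨i, j, hij⟩ := hu
  obtain ⟨v, hv⟩ := hij.exists_right_inv
  rw [Matrix.det_fin_two] at hdet
  have key : ∀ (P : Matrix (Fin 2) (Fin 2) K) (r : Fin 2 → K), (∀ i l, W i l = P i 0 * r l) →
      W = P * Matrix.of ![r, 0] := by
    intro P r h
    ext i l
    rw [Matrix.mul_apply, Fin.sum_univ_two, h i l]
    simp
  fin_cases i <;> fin_cases j <;> simp only [Fin.zero_eta, Fin.mk_one, Fin.isValue] at hv
  · refine ⟨!![W 0 0, 0; W 1 0, v], ![1, W 0 1 * v], 0, ?_, rfl, key _ _ ?_⟩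
    · rw [Matrix.det_fin_two]
      simp [hv]
    · intro i l
      fin_cases i <;> fin_cases l <;> simp
      · linear_combination (-(W 0 1)) * hv
      · linear_combination v * hdet - W 1 1 * hv
  · refine ⟨!![W 0 1, 0; W 1 1, v], ![W 0 0 * v, 1], 1, ?_, rfl, key _ _ ?_⟩
    · rw [Matrix.det_fin_two]
      simp [hv]
    · intro i l
      fin_cases i <;> fin_cases l <;> simp
      · linear_combination (-(W 0 0)) * hv
      · linear_combination (-v) * hdet - W 1 0 * hv
  · refine ⟨!![W 0 0, -v; W 1 0, 0], ![1, W 1 1 * v], 0, ?_, rfl, key _ _ ?_⟩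
    · rw [Matrix.det_fin_two]
      simp
      linear_combination hv
    · intro i l
      fin_cases i <;> fin_cases l <;> simp
      · linear_combination (-v) * hdet - W 0 1 * hv
      · linear_combination (-(W 1 1)) * hv
  · refine ⟨!![W 0 1, -v; W 1 1, 0], ![W 1 0 * v, 1], 1, ?_, rfl, key _ _ ?_⟩
    · rw [Matrix.det_fin_two]
      simp
      linear_combination hv
    · intro i l
      fin_cases i <;> fin_cases l <;> simp
      · linear_combination v * hdet - W 0 0 * hv
      · linear_combination (-(W 1 0)) * hv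

/-- `g W = W' G` with `det g = 1` -/
lemma TR_mat {K : Type} [CommRing K] (W W' : Matrix (Fin 2) (Fin 2) K) (h : W.det = 0)
    (h' : W'.det = 0) (hu : ∃ i j, IsUnit (W i j)) (hu' : ∃ i j, IsUnit (W' i j)) :
    ∃ g G : Matrix (Fin 2) (Fin 2) K, g.det = 1 ∧ g * W = W' * G := by
  obtain ⟨P, r, k, hP, hr, hW⟩ := TR_fac W h hu
  obtain ⟨P', r', k', hP', hr', hW'⟩ := TR_fac W' h' hu'
  refine ⟨P' * P.adjugate, Matrix.of (fun m => if m = k' then r else 0), ?_, ?_⟩
  · rw [Matrix.det_mul, hP', Matrix.det_adjugate, hP]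
    simp
  · have h1 : P.adjugate * P = 1 := by rw [Matrix.adjugate_mul, hP, one_smul]
    rw [hW, hW', Matrix.mul_assoc, ← Matrix.mul_assoc P.adjugate, h1, Matrix.one_mul,
      Matrix.mul_assoc]
    congr 1
    ext i l
    rw [Matrix.mul_apply, Fin.sum_univ_two]
    fin_cases i
    · fin_cases k'
      · simp only [Fin.zero_eta, Fin.isValue] at hr'
        simp [hr']
      · simp only [Fin.mk_one, Fin.isValue] at hr'
        simp [hr']
    · simp

theorem TR_thm (h1 : Stmt_iso) : SQ_TR := by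
  intro p R hp hp2 _ α β hα hβ hα' hβ'
  have hodd : Odd (p ^ R) := (hp.odd_of_ne_two hp2).pow
  obtain ⟨φ, hφ⟩ := h1 (p ^ R) hodd
  have hunit : ∀ ξ : ℍ[ZMod (p ^ R)], (∀ δ, ξ ≠ (p : ℍ[ZMod (p ^ R)]) * δ) →
      ∃ i j, IsUnit ((φ ξ) i j) := by
    intro ξ hξ
    by_contra hcon
    push Not at hcon
    have h2 : ∀ i j, ∃ y, (φ ξ) i j = (p : ZMod (p ^ R)) * y := fun i j =>
      TR_nonunit p R hp _ (hcon i j)
    choose y hy using h2
    apply hξ (φ.symm (Matrix.of y))
    apply φ.injective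
    rw [map_mul, map_natCast, RingEquiv.apply_symm_apply]
    have h3 : ((p : Matrix (Fin 2) (Fin 2) (ZMod (p ^ R))) * Matrix.of y) = p • Matrix.of y :=
      (nsmul_eq_mul _ _).symm
    rw [h3]
    ext i j
    rw [hy i j, Matrix.smul_apply, nsmul_eq_mul]
    rfl
  obtain ⟨g, G, hg, hgG⟩ := TR_mat (φ α) (φ β) (by rw [hφ, hα]) (by rw [hφ, hβ])
    (hunit α hα') (hunit β hβ')
  have hn : Quaternion.normSq (φ.symm g) = 1 := by
    rw [← hφ, RingEquiv.apply_symm_apply, hg]
  refine ⟨⟨φ.symm g, ?_⟩, φ.symm G, ?_⟩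
  · rw [Unitary.mem_iff]
    rw [Quaternion.star_mul_self, Quaternion.self_mul_star, hn]
    exact ⟨by simp, by simp⟩
  · apply φ.injective
    rw [map_mul, map_mul, RingEquiv.apply_symm_apply, RingEquiv.apply_symm_apply]
    exact hgG

end TauQ
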