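import Mathlib
import Pool.Agent.Work.MP_972ac7_tq.Interface

/-! # Block WD: orthogonal functions on reduced words (helper38) -/

open scoped Quaternion BigOperators Matrix ComplexOrder

namespace TauQ

section WDs

variable {A B : Type} {h : VH A B} {Q : Type} [Group Q]

/-- the word acts on `Q` by the inverse of its product -/
def WD_ev (r : Rep h Q) : List A → Q → Q
  | [], y => y
  | a :: l, y => WD_ev r l ((r.al a)⁻¹ * y)

lemma WD_ev_append (r : Rep h Q) (l l' : List A) : ∀ y : Q,
    WD_ev r (l ++ l') y = WD_ev r l' (WD_ev r l y) := by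
  induction l with
  | nil => intro y; rfl
  | cons a l ih => intro y; exact ih _

lemma WD_ev_snoc (r : Rep h Q) (l : List A) (a : A) (y : Q) :
    WD_ev r (l ++ [a]) y = (r.al a)⁻¹ * WD_ev r l y := by
  rw [WD_ev_append]
  rfl

lemma WD_ev_surj (r : Rep h Q) (l : List A) : ∀ z : Q, ∃ y, WD_ev r l y = z := by
  induction l with
  | nil => intro z; exact ⟨z, rfl⟩
  | cons a l ih =>
    intro z
    obtain ⟨y, hy⟩ := ih z
    refine ⟨r.al a * y, ?_⟩
    show WD_ev r l ((r.al a)⁻¹ * (r.al a * y)) = z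
    rw [inv_mul_cancel_left]
    exact hy

lemma WD_comm (r : Rep h Q) (b : B) (a : A) :
    r.be b * r.al a = r.al (h.vh.symm (b, a)).1 * r.be (h.vh.symm (b, a)).2 := by
  have e : h.vh ((h.vh.symm (b, a)).1, (h.vh.symm (b, a)).2) = (b, a) := by
    rw [Prod.mk.eta, Equiv.apply_symm_apply]
  rw [r.comm, e]

lemma WD_ev_push (r : Rep h Q) (l : List A) : ∀ (b : B) (y : Q),
    WD_ev r (h.push b l).1 (r.be b * y) = r.be (h.push b l).2 * WD_ev r l y := by
  induction l with
  | nil => intro b y; rfl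
  | cons a l ih =>
    intro b y
    simp only [VH.push_cons]
    show WD_ev r (h.push (h.vh.symm (b, a)).2 l).1
      ((r.al (h.vh.symm (b, a)).1)⁻¹ * (r.be b * y)) = _
    have e : (r.al (h.vh.symm (b, a)).1)⁻¹ * (r.be b * y) =
        r.be (h.vh.symm (b, a)).2 * ((r.al a)⁻¹ * y) := by
      have := WD_comm r b a
      rw [inv_mul_eq_iff_eq_mul, ← mul_assoc (r.al _), ← this]
      group
    rw [e, ih]
    rfl

lemma WD_bij [Finite B] (h : VH A B) (l : List A) :
    Function.Bijective (fun b : B => (h.push b l).2) := by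
  rw [← Finite.injective_iff_bijective]
  induction l with
  | nil => intro b b' hb; exact hb
  | cons a l ih =>
    intro b b' hb
    simp only [VH.push_cons] at hb
    have h1 : (h.vh.symm (b, a)).2 = (h.vh.symm (b', a)).2 := ih hb
    have h2 := h.push_inv b a
    have h3 := h.push_inv b' a
    rw [h1] at h2
    rw [h2] at h3
    exact congrArg Prod.snd h3

lemma WD_push_append (h : VH A B) (l l' : List A) : ∀ b : B,
    h.push b (l ++ l') = ((h.push b l).1 ++ (h.push (h.push b l).2 l').1,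
      (h.push (h.push b l).2 l').2) := by
  induction l with
  | nil => intro b; rfl
  | cons a l ih =>
    intro b
    simp only [List.cons_append, VH.push_cons, ih]

lemma WD_push_snoc (h : VH A B) (l : List A) (b : B) (a : A) :
    (h.push b (l ++ [a])).1 = (h.push b l).1 ++ [h.sigma (h.push b l).2 a] := by
  rw [WD_push_append]
  rfl

lemma WD_push_take (h : VH A B) (l : List A) : ∀ (b : B) (k : ℕ),
    (h.push b l).1.take k = (h.push b (l.take k)).1 := by
  induction l with
  | nil => intro b k; simp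
  | cons a l ih =>
    intro b k
    cases k with
    | zero => simp
    | succ k => simp only [List.take_succ_cons, VH.push_cons, ih]

lemma WD_red_iff (h : VH A B) (l : List A) (b : B) : h.Red (h.push b l).1 ↔ h.Red l := by
  constructor
  · intro hl
    have := h.push_red (h.push b l).1 (h.invB b) hl
    rw [h.push_left_inv] at this
    exact this
  · exact h.push_red l b

/-- the eigenvalue equation for one word -/
lemma WD_E [Fintype B] (r : Rep h Q) (v : Q → ℂ) (lam : ℂ)
    (hv : ∀ x, ∑ b, v (r.be b * x) = lam * v x) (l : List A) (y : Q) :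
    ∑ b, v (WD_ev r (h.push b l).1 (r.be b * y)) = lam * v (WD_ev r l y) := by
  rw [← hv]
  simp only [WD_ev_push]
  exact (WD_bij h l).sum_comp (fun b => v (r.be b * WD_ev r l y))

open Classical in
/-- sum over the allowed next letters -/
noncomputable def WD_S [Fintype A] (r : Rep h Q) (v : Q → ℂ) (l : List A) (y : Q) : ℂ :=
  ∑ a, if h.Red (l ++ [a]) then v (WD_ev r (l ++ [a]) y) else 0

lemma WD_SE [Fintype A] [Fintype B] (r : Rep h Q) (v : Q → ℂ) (lam : ℂ)
    (hv : ∀ x, ∑ b, v (r.be b * x) = lam * v x) (l : List A) (y : Q) :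
    ∑ b, WD_S r v (h.push b l).1 (r.be b * y) = lam * WD_S r v l y := by
  classical
  have e1 : ∀ b, WD_S r v (h.push b l).1 (r.be b * y) =
      ∑ a, if h.Red (l ++ [a]) then v (WD_ev r (h.push b (l ++ [a])).1 (r.be b * y)) else 0 := by
    intro b
    unfold WD_S
    rw [← Equiv.sum_comp (h.sigma (h.push b l).2)]
    apply Finset.sum_congr rfl
    intro a _
    rw [← WD_push_snoc]
    by_cases hr : h.Red (l ++ [a])
    · rw [if_pos hr, if_pos ((WD_red_iff h _ b).mpr hr)]
    · rw [if_neg hr, if_neg (fun hc => hr ((WD_red_iff h _ b).mp hc))]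
  simp only [e1]
  rw [Finset.sum_comm]
  unfold WD_S
  rw [Finset.mul_sum]
  apply Finset.sum_congr rfl
  intro a _
  by_cases hr : h.Red (l ++ [a])
  · simp only [if_pos hr]
    exact WD_E r v lam hv (l ++ [a]) y
  · simp only [if_neg hr, Finset.sum_const_zero, mul_zero]

lemma WD_red_snoc (h : VH A B) (l : List A) (c a : A) :
    h.Red (l ++ [c] ++ [a]) ↔ h.Red (l ++ [c]) ∧ a ≠ h.invA c := by
  unfold VH.Red
  rw [List.isChain_append]
  simp

/-- removing the last letter -/
lemma WD_sum [Fintype A] (h : VH A B) (n : ℕ) (F : List A → ℂ) (D : ∀ l, Decidable (h.Red l)) :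
    ∑ w : h.Word (n + 1), F w.1 =
      ∑ w : h.Word n, ∑ a, @ite _ (h.Red (w.1 ++ [a])) (D _) (F (w.1 ++ [a])) 0 := by
  classical
  have e1 : ∀ w : h.Word n, ∑ a, @ite _ (h.Red (w.1 ++ [a])) (D _) (F (w.1 ++ [a])) 0 =
      ∑ a : {a // h.Red (w.1 ++ [a])}, F (w.1 ++ [a.1]) := by
    intro w
    rw [← Finset.sum_filter]
    rw [Finset.sum_subtype (p := fun a => h.Red (w.1 ++ [a]))]
    intro a
    simp
  simp only [e1]
  rw [Finset.sum_sigma']
  have hne : ∀ w : h.Word (n + 1), w.1 ≠ [] := by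
    intro w hw
    have := w.2.1
    rw [hw] at this
    simp at this
  refine Finset.sum_bij' (fun w _ => (⟨⟨w.1.dropLast, ?_⟩, ⟨w.1.getLast (hne w), ?_⟩⟩ :
      (w : h.Word n) × {a // h.Red (w.1 ++ [a])}))
    (fun z _ => (⟨z.1.1 ++ [z.2.1], ?_⟩ : h.Word (n + 1))) ?_ ?_ ?_ ?_ ?_
  · refine ⟨by rw [List.length_dropLast, w.2.1]; rfl, ?_⟩
    have := w.2.2
    rw [← List.dropLast_append_getLast (hne w)] at this
    unfold VH.Red at this
    rw [List.isChain_append] at this
    exact this.1
  · show h.Red (w.1.dropLast ++ [w.1.getLast (hne w)])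
    rw [List.dropLast_append_getLast (hne w)]
    exact w.2.2
  · refine ⟨?_, z.2.2⟩
    rw [List.length_append, z.1.2.1]
    rfl
  · intro w _
    simp
  · intro z _
    simp
  · intro w _
    apply Subtype.ext
    exact List.dropLast_append_getLast (hne w)
  · rintro ⟨⟨l, hl⟩, ⟨a, ha⟩⟩ _
    refine Sigma.subtype_ext ?_ ?_
    · apply Subtype.ext
      show (l ++ [a]).dropLast = l
      simp
    · show (l ++ [a]).getLast _ = a
      simp
  · intro w _
    show F w.1 = F (w.1.dropLast ++ [w.1.getLast (hne w)])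
    rw [List.dropLast_append_getLast (hne w)]

lemma WD_deg [Fintype A] (h : VH A B) (l : List A) (hl : l ≠ []) (hr : h.Red l)
    (D : ∀ l, Decidable (h.Red l)) :
    ∑ a, @ite _ (h.Red (l ++ [a])) (D _) (1 : ℂ) 0 = (Fintype.card A : ℂ) - 1 := by
  classical
  obtain ⟨l', c, rfl⟩ : ∃ l' c, l = l' ++ [c] :=
    ⟨l.dropLast, l.getLast hl, (List.dropLast_append_getLast hl).symm⟩
  have e1 : ∀ a, @ite _ (h.Red (l' ++ [c] ++ [a])) (D _) (1 : ℂ) 0 =
      1 - (if a = h.invA c then 1 else 0) := by
    intro a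
    by_cases ha : a = h.invA c
    · rw [if_pos ha, if_neg (fun hc => ((WD_red_snoc h l' c a).mp hc).2 ha)]
      ring
    · rw [if_neg ha, if_pos ((WD_red_snoc h l' c a).mpr ⟨hr, ha⟩)]
      ring
  simp only [e1]
  rw [Finset.sum_sub_distrib]
  simp

lemma WD_sumk [Fintype A] (h : VH A B) (k : ℕ) (hk : 0 < k) (F : List A → ℂ) (n : ℕ) :
    ∑ w : h.Word (k + n), F (w.1.take k) =
      ((Fintype.card A : ℂ) - 1) ^ n * ∑ w : h.Word k, F w.1 := by
  classical
  induction n with
  | zero =>
    rw [pow_zero, one_mul]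
    apply Finset.sum_congr rfl
    intro w _
    rw [List.take_of_length_le]
    rw [w.2.1]
    rfl
  | succ n ih =>
    have e0 : ∑ w : h.Word (k + (n + 1)), F (w.1.take k) = ∑ w : h.Word (k + n), ∑ a,
        if h.Red (w.1 ++ [a]) then F ((w.1 ++ [a]).take k) else 0 :=
      WD_sum h (k + n) (fun l => F (l.take k)) _
    rw [e0, pow_succ', mul_assoc, ← ih, Finset.mul_sum]
    apply Finset.sum_congr rfl
    intro w _
    have hw : w.1.length = k + n := w.2.1
    have e1 : ∀ a, (w.1 ++ [a]).take k = w.1.take k := by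
      intro a
      rw [List.take_append_of_le_length]
      rw [hw]
      omega
    have e2 : ∀ a, (if h.Red (w.1 ++ [a]) then F ((w.1 ++ [a]).take k) else 0) =
        (if h.Red (w.1 ++ [a]) then (1 : ℂ) else 0) * F (w.1.take k) := by
      intro a
      rw [e1]
      split_ifs <;> simp
    simp only [e2]
    rw [← Finset.sum_mul, WD_deg h w.1 ?_ w.2.2]
    intro h0
    rw [h0] at hw
    simp at hw
    omega

/-- the functions, on all lists -/
noncomputable def WD_N [Fintype A] (r : Rep h Q) (v : Q → ℂ) (i : ℕ) (l : List A) (y : Q) : ℂ :=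
  v (WD_ev r (l.take (i + 2)) y) -
    ((Fintype.card A : ℂ) - 1)⁻¹ * WD_S r v (l.take (i + 1)) y

lemma WD_orth [Fintype A] (r : Rep h Q) (v : Q → ℂ) (hA : ((Fintype.card A : ℂ) - 1) ≠ 0)
    (i j n : ℕ) (hij : i < j) (hj : j + 2 ≤ n) (y : Q) :
    ∑ w : h.Word n, WD_N r v i w.1 y * (starRingEnd ℂ) (WD_N r v j w.1 y) = 0 := by
  classical
  obtain ⟨m, rfl⟩ : ∃ m, n = (j + 2) + m := ⟨n - (j + 2), by omega⟩
  have e1 : ∀ l : List A, WD_N r v i l y * (starRingEnd ℂ) (WD_N r v j l y) =
      (fun l => WD_N r v i l y * (starRingEnd ℂ) (WD_N r v j l y)) (l.take (j + 2)) := by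
    intro l
    simp only [WD_N, List.take_take]
    rw [show min (i + 2) (j + 2) = i + 2 by omega, show min (i + 1) (j + 2) = i + 1 by omega,
      show min (j + 2) (j + 2) = j + 2 by omega, show min (j + 1) (j + 2) = j + 1 by omega]
  have e2 : ∑ w : h.Word (j + 2 + m), WD_N r v i w.1 y * (starRingEnd ℂ) (WD_N r v j w.1 y) =
      ∑ w : h.Word (j + 2 + m),
        (fun l => WD_N r v i l y * (starRingEnd ℂ) (WD_N r v j l y)) (w.1.take (j + 2)) := by
    apply Finset.sum_congr rfl
    intro w _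
    exact e1 w.1
  rw [e2]
  refine (WD_sumk h (j + 2) (by omega)
    (fun l => WD_N r v i l y * (starRingEnd ℂ) (WD_N r v j l y)) m).trans ?_
  have e3 := WD_sum h (j + 1) (fun l => WD_N r v i l y * (starRingEnd ℂ) (WD_N r v j l y))
    (fun _ => Classical.propDecidable _)
  rw [show j + 2 = j + 1 + 1 from rfl, e3]
  apply mul_eq_zero_of_right
  apply Finset.sum_eq_zero
  intro w _
  have hw : w.1.length = j + 1 := w.2.1
  have e4 : ∀ a, WD_N r v i (w.1 ++ [a]) y = WD_N r v i w.1 y := by
    intro a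
    unfold WD_N
    rw [List.take_append_of_le_length (by rw [hw]; omega),
      List.take_append_of_le_length (by rw [hw]; omega)]
  have e5 : ∀ a, WD_N r v j (w.1 ++ [a]) y = v (WD_ev r (w.1 ++ [a]) y) -
      ((Fintype.card A : ℂ) - 1)⁻¹ * WD_S r v w.1 y := by
    intro a
    unfold WD_N
    rw [List.take_of_length_le (by simp [hw]),
      List.take_append_of_le_length (by rw [hw]), List.take_of_length_le (by rw [hw])]
  have hd := WD_deg h w.1 (by intro h0; rw [h0] at hw; simp at hw) w.2.2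
    (fun _ => Classical.propDecidable _)
  have e6 : ∀ a, (if h.Red (w.1 ++ [a]) then
      WD_N r v i (w.1 ++ [a]) y * (starRingEnd ℂ) (WD_N r v j (w.1 ++ [a]) y) else 0) =
      WD_N r v i w.1 y * (starRingEnd ℂ) ((if h.Red (w.1 ++ [a]) then
        v (WD_ev r (w.1 ++ [a]) y) else 0) - (if h.Red (w.1 ++ [a]) then (1 : ℂ) else 0) *
        (((Fintype.card A : ℂ) - 1)⁻¹ * WD_S r v w.1 y)) := by
    intro a
    rw [e4, e5]
    split_ifs <;> simp
  have e7 : ∑ a, (if h.Red (w.1 ++ [a]) then
      WD_N r v i (w.1 ++ [a]) y * (starRingEnd ℂ) (WD_N r v j (w.1 ++ [a]) y) else 0) = 0 := by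
    simp only [e6]
    rw [← Finset.mul_sum, ← map_sum, Finset.sum_sub_distrib, ← Finset.sum_mul, hd,
      mul_inv_cancel_left₀ hA]
    unfold WD_S
    rw [sub_self, map_zero, mul_zero]
  exact e7

lemma WD_ext [Fintype A] (h : VH A B) (hA : 2 ≤ Fintype.card A) (k : ℕ) (l : List A)
    (hl : l.length = k + 1) (hr : h.Red l) (n : ℕ) :
    ∃ w : List A, w.length = k + 1 + n ∧ h.Red w ∧ w.take (k + 1) = l := by
  induction n with
  | zero => exact ⟨l, hl, hr, by rw [List.take_of_length_le (by rw [hl])]⟩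
  | succ n ih =>
    obtain ⟨w, h1, h2, h3⟩ := ih
    have hw : w ≠ [] := by
      intro h0
      rw [h0, List.length_nil] at h1
      omega
    obtain ⟨w', c, rfl⟩ : ∃ w' c, w = w' ++ [c] :=
      ⟨w.dropLast, w.getLast hw, (List.dropLast_append_getLast hw).symm⟩
    have : Nontrivial A := Fintype.one_lt_card_iff_nontrivial.mp (by omega)
    obtain ⟨a, ha⟩ := exists_ne (h.invA c)
    refine ⟨w' ++ [c] ++ [a], ?_, (WD_red_snoc h w' c a).mpr ⟨h2, ha⟩, ?_⟩
    · rw [List.length_append, h1]
      simp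
      omega
    · rw [List.take_append_of_le_length (by rw [h1]; omega)]
      exact h3

lemma WD_last [Fintype A] (h : VH A B) (hA : 2 ≤ Fintype.card A) (n : ℕ) :
    ∀ c : A, ∃ l : List A, l.length = n ∧ h.Red (l ++ [c]) := by
  induction n with
  | zero => intro c; exact ⟨[], rfl, by simp [VH.Red]⟩
  | succ n ih =>
    intro c
    have : Nontrivial A := Fintype.one_lt_card_iff_nontrivial.mp (by omega)
    obtain ⟨a, ha⟩ := exists_ne (h.invA c)
    obtain ⟨l, h1, h2⟩ := ih a
    refine ⟨l ++ [a], by simp [h1], (WD_red_snoc h l a c).mpr ⟨h2, ?_⟩⟩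
    intro h3
    apply ha
    rw [h3, h.invA_invA]

end WDs

theorem WD_thm : SQ_WD := by
  intro A B _ _ h hA R Q _ _ r v lam hv hne
  classical
  have hA1 : ((Fintype.card A : ℂ) - 1) ≠ 0 := by
    intro h0
    have h1 : ((Fintype.card A : ℕ) : ℂ) = ((1 : ℕ) : ℂ) := by
      rw [Nat.cast_one]
      exact sub_eq_zero.mp h0
    have h2 := Nat.cast_injective h1
    omega
  refine ⟨fun i z => WD_N r v i z.1.1 z.2, ?_, ?_, ?_⟩
  · have key : ∀ i j : Fin R, i < j → ∑ z : h.Word (R + 1) × Q,
        WD_N r v i z.1.1 z.2 * (starRingEnd ℂ) (WD_N r v j z.1.1 z.2) = 0 := by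
      intro i j hij
      rw [Fintype.sum_prod_type_right]
      apply Finset.sum_eq_zero
      intro y _
      exact WD_orth r v hA1 i j (R + 1) hij (by have := j.2; omega) y
    intro i j hij
    rcases lt_or_gt_of_ne hij with h1 | h1
    · exact key i j h1
    · have h2 := congrArg (starRingEnd ℂ) (key j i h1)
      rw [map_sum, map_zero] at h2
      rw [← h2]
      apply Finset.sum_congr rfl
      intro z _
      rw [map_mul, Complex.conj_conj, mul_comm]
  · intro i hi
    obtain ⟨a, a', z, hz⟩ := hne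
    apply hz
    have hR : (i : ℕ) + 1 + 1 + (R - 1 - i) = R + 1 := by have := i.2; omega
    obtain ⟨d, hd⟩ : ∃ d : A, d ∉ ({h.invA a, h.invA a'} : Finset A) := by
      by_contra hc
      push Not at hc
      have h1 : (Finset.univ : Finset A) ⊆ {h.invA a, h.invA a'} := fun x _ => hc x
      have h2 := Finset.card_le_card h1
      have h3 := Finset.card_le_two (a := h.invA a) (b := h.invA a')
      rw [Finset.card_univ] at h2
      omega
    simp only [Finset.mem_insert, Finset.mem_singleton, not_or] at hd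
    obtain ⟨l', hl1, hl2⟩ := WD_last h (by omega) i (h.invA d)
    obtain ⟨y, hy⟩ := WD_ev_surj r (l' ++ [h.invA d]) z
    have key : ∀ a₁ : A, a₁ ≠ d → v ((r.al a₁)⁻¹ * z) =
        ((Fintype.card A : ℂ) - 1)⁻¹ * WD_S r v (l' ++ [h.invA d]) y := by
      intro a₁ ha₁
      have hr : h.Red (l' ++ [h.invA d] ++ [a₁]) := by
        rw [WD_red_snoc, h.invA_invA]
        exact ⟨hl2, ha₁⟩
      have hlen : (l' ++ [h.invA d] ++ [a₁]).length = (i : ℕ) + 1 + 1 := by simp [hl1]
      obtain ⟨w, hw1, hw2, hw3⟩ := WD_ext h (by omega) _ _ hlen hr (R - 1 - i)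
      rw [hR] at hw1
      have h4 := congrFun hi ((⟨w, hw1, hw2⟩ : h.Word (R + 1)), y)
      have h5 : WD_N r v i w y = 0 := h4
      unfold WD_N at h5
      have h6 : w.take ((i : ℕ) + 2) = l' ++ [h.invA d] ++ [a₁] := hw3
      have h7 : w.take ((i : ℕ) + 1) = l' ++ [h.invA d] := by
        have : w.take ((i : ℕ) + 1) = (w.take ((i : ℕ) + 2)).take ((i : ℕ) + 1) := by
          rw [List.take_take]
          congr 1
          omega
        rw [this, h6, List.take_append_of_le_length (by simp [hl1]),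
          List.take_of_length_le (by simp [hl1])]
      rw [h6, h7, WD_ev_snoc, hy] at h5
      exact sub_eq_zero.mp h5
    have h8 := key (h.invA a) (fun h9 => hd.1 h9.symm)
    have h9 := key (h.invA a') (fun h9 => hd.2 h9.symm)
    rw [r.al_inv, inv_inv] at h8 h9
    rw [h8, h9]
  · intro i w y
    have e1 : ∀ b, WD_N r v i (h.act (R + 1) b w).1 (r.be b * y) =
        v (WD_ev r (h.push b (w.1.take (i + 2))).1 (r.be b * y)) -
        ((Fintype.card A : ℂ) - 1)⁻¹ * WD_S r v (h.push b (w.1.take (i + 1))).1 (r.be b * y) := by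
      intro b
      unfold WD_N
      rw [VH.act_val, WD_push_take, WD_push_take]
    show ∑ b, WD_N r v i (h.act (R + 1) b w).1 (r.be b * y) = lam * WD_N r v i w.1 y
    simp only [e1]
    rw [Finset.sum_sub_distrib, ← Finset.mul_sum, WD_E r v lam hv, WD_SE r v lam hv]
    unfold WD_N
    ring

end TauQ
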