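import Mathlib
import Pool.Agent.Work.MP_972ac7_al_tau.joint
import Pool.Agent.Work.MP_972ac7_al_tau.exists
import Pool.Agent.Work.MP_972ac7_al_tau.unique
import Pool.Agent.Work.MP_972ac7_al_tau.card
import Pool.Agent.Work.MP_972ac7_al_tau.vh
import Pool.Agent.Work.MP_972ac7_al_tau.r2
import Pool.Agent.Work.MP_972ac7_al_tau.div
import Pool.Agent.Work.MP_972ac7_al_tau.r3
import Pool.Agent.Work.MP_972ac7_al_tau.x0
import Pool.Agent.Work.MP_972ac7_al_tau.count
import Pool.Agent.Work.MP_972ac7_al_tau.iso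
import Pool.Agent.Work.MP_972ac7_al_tau.cardU
import Pool.Agent.Work.MP_972ac7_al_tau.DLa
import Pool.Agent.Work.MP_972ac7_al_tau.sq
import Pool.Agent.Work.MP_972ac7_al_tau.DL
import Pool.Agent.Work.MP_972ac7_al_tau.TL
import Pool.Agent.Work.MP_972ac7_al_tau.gapS
import Pool.Agent.Work.MP_972ac7_al_tau.hat
import Pool.Agent.Work.MP_972ac7_tq.MX
import Pool.Agent.Work.MP_972ac7_tq.LA
import Pool.Agent.Work.MP_972ac7_tq.WD
import Pool.Agent.Work.MP_972ac7_tq.TR
import Pool.Agent.Work.MP_972ac7_tq.AC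
import Pool.Agent.Work.MP_972ac7_tq.WK
import Pool.Agent.Work.MP_972ac7_tq.WC
import Pool.Agent.Work.MP_972ac7_tq.NU
import Pool.Agent.Work.MP_972ac7_tq.SP
import Pool.Agent.Work.MP_972ac7_tq.TG
import Pool.Agent.Work.MP_972ac7_tq.SI
import Pool.Agent.Work.MP_972ac7_tq.QG
import Pool.Agent.Work.MP_972ac7_tq.LK
import Pool.Agent.Work.MP_972ac7_tq.FP
import Pool.Agent.Work.MP_972ac7_tq.TP
import Pool.Agent.Work.MP_972ac7_tq.GN

namespace TauQ

theorem tq_card : Stmt_card := card_proof exists_proof unique_proof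

theorem tq_count : Stmt_count := count_proof (r3_proof r2_proof) x0_proof div_proof

theorem tq_WC : SQ_WC := WC_thm (WK_thm exists_proof unique_proof tq_card) tq_count

theorem tq_NU : SQ_NU := NU_thm tq_WC

theorem tq_SP : SQ_SP :=
  SP_thm (DL_proof DLa_proof sq_proof) iso_proof TL_proof (cardU_proof iso_proof)

theorem tq_TG : SQ_TG := TG_thm tq_NU tq_SP gapS_proof tq_card

theorem tq_AC : SQ_AC := AC_thm exists_proof unique_proof tq_card (TR_thm iso_proof)

theorem tq_SI : SQ_SI := SI_thm (LA_thm MX_thm) WD_thm tq_AC tq_TG tq_card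

theorem tq_TP : SQ_TP :=
  TP_thm (QG_thm tq_SI joint_proof) (LK_thm (hat_proof exists_proof)) FP_thm
    (vh_proof exists_proof unique_proof)

theorem tq_GN : SQ_GN := GN_thm exists_proof tq_TP

end TauQ
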