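import Mathlib

/-!
# Property tau passes to finite-index subgroups, to finite-index overgroups and to quotients
-/

open scoped BigOperators

namespace TauCM

/-- Property tau of a group `G` with respect to all finite-index subgroups: there are a finite set
`K` in `G` and `ε > 0` such that for every normal subgroup `N` of finite index and every unit vector
`v` of zero sum on `G ⧸ N` some `s` in `K` has `‖s v - v‖ ≥ ε`, where `(s v) x = v (s⁻¹ x)`. -/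
def PropertyTau (G : Type) [Group G] : Prop :=
  ∃ (K : Finset G) (ε : ℝ), 0 < ε ∧ ∀ (N : Subgroup G) [N.Normal] [N.FiniteIndex]
    [Fintype (G ⧸ N)] (v : G ⧸ N → ℂ), ∑ x, v x = 0 → ∑ x, ‖v x‖ ^ 2 = 1 →
    ∃ s ∈ K, ε ≤ √(∑ x, ‖v ((s⁻¹ : G) * x) - v x‖ ^ 2)

/-- the inequality form -/
def GapForm (G : Type) [Group G] (K : Finset G) (c : ℝ) : Prop :=
  ∀ (N : Subgroup G) [N.Normal] [N.FiniteIndex] [Fintype (G ⧸ N)] (v : G ⧸ N → ℂ),
    ∑ x, v x = 0 →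
    c * ∑ x, ‖v x‖ ^ 2 ≤ ∑ s ∈ K, ∑ x, ‖v ((s : G ⧸ N) * x) - v x‖ ^ 2

lemma move_inv {G : Type} [Group G] (N : Subgroup G) [N.Normal] [Fintype (G ⧸ N)]
    (v : G ⧸ N → ℂ) (s : G) :
    ∑ x, ‖v (((s⁻¹ : G) : G ⧸ N) * x) - v x‖ ^ 2 = ∑ x, ‖v ((s : G ⧸ N) * x) - v x‖ ^ 2 := by
  rw [← Equiv.sum_comp (Equiv.mulLeft (s : G ⧸ N))]
  refine Finset.sum_congr rfl fun x _ => ?_
  rw [Equiv.coe_mulLeft, QuotientGroup.mk_inv, inv_mul_cancel_left, norm_sub_rev]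

lemma gapForm_of_tau {G : Type} [Group G] (h : PropertyTau G) :
    ∃ (K : Finset G) (c : ℝ), 0 < c ∧ GapForm G K c := by
  obtain ⟨K, ε, hε, h⟩ := h
  refine ⟨K, ε ^ 2, by positivity, ?_⟩
  intro N i1 i2 i3 v hv
  set S : ℝ := ∑ x, ‖v x‖ ^ 2 with hS
  have hS0 : 0 ≤ S := Finset.sum_nonneg fun x _ => by positivity
  rcases hS0.eq_or_lt with h0 | hpos
  · rw [← h0, mul_zero]
    exact Finset.sum_nonneg fun s _ => Finset.sum_nonneg fun x _ => by positivity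
  · have hs : (√S) ^ 2 = S := Real.sq_sqrt hS0
    have hsp : 0 < √S := Real.sqrt_pos.2 hpos
    have hv1 : ∑ x, (((√S)⁻¹ : ℝ) : ℂ) * v x = 0 := by rw [← Finset.mul_sum, hv, mul_zero]
    have hn : ∀ z : ℂ, ‖(((√S)⁻¹ : ℝ) : ℂ) * z‖ ^ 2 = S⁻¹ * ‖z‖ ^ 2 := by
      intro z
      rw [norm_mul, mul_pow, Complex.norm_real, Real.norm_eq_abs, abs_of_pos (inv_pos.2 hsp),
        inv_pow, hs]
    have hv2 : ∑ x, ‖(((√S)⁻¹ : ℝ) : ℂ) * v x‖ ^ 2 = 1 := by
      rw [Finset.sum_congr rfl fun x _ => hn (v x), ← Finset.mul_sum, ← hS,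
        inv_mul_cancel₀ hpos.ne']
    obtain ⟨s, hs1, hs2⟩ := h N (fun x => (((√S)⁻¹ : ℝ) : ℂ) * v x) hv1 hv2
    have h3 : ∑ x, ‖(((√S)⁻¹ : ℝ) : ℂ) * v (((s⁻¹ : G) : G ⧸ N) * x) -
        (((√S)⁻¹ : ℝ) : ℂ) * v x‖ ^ 2 = S⁻¹ * ∑ x, ‖v ((s : G ⧸ N) * x) - v x‖ ^ 2 := by
      rw [← move_inv, Finset.mul_sum]
      refine Finset.sum_congr rfl fun x _ => ?_
      rw [← mul_sub, hn]
    have h4 : ε ^ 2 ≤ S⁻¹ * ∑ x, ‖v ((s : G ⧸ N) * x) - v x‖ ^ 2 := by
      rw [← h3]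
      have h5 := (Real.le_sqrt hε.le (Finset.sum_nonneg fun x _ => by positivity)).1 hs2
      exact h5
    have h6 : ε ^ 2 * S ≤ ∑ x, ‖v ((s : G ⧸ N) * x) - v x‖ ^ 2 := by
      have := mul_le_mul_of_nonneg_right h4 hS0
      rwa [mul_comm S⁻¹, mul_assoc, inv_mul_cancel₀ hpos.ne', mul_one] at this
    refine h6.trans ?_
    exact Finset.single_le_sum
      (f := fun s : G => ∑ x, ‖v ((s : G ⧸ N) * x) - v x‖ ^ 2)
      (fun s _ => Finset.sum_nonneg fun x _ => by positivity) hs1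

lemma tau_of_gapForm {G : Type} [Group G] (K : Finset G) (c : ℝ) (hc : 0 < c)
    (h : GapForm G K c) : PropertyTau G := by
  refine ⟨K, √(c / (K.card + 1)), Real.sqrt_pos.2 (by positivity), ?_⟩
  intro N i1 i2 i3 v h1 h2
  have h3 := h N v h1
  rw [h2, mul_one] at h3
  by_contra hcon
  push Not at hcon
  have h4 : ∑ s ∈ K, ∑ x, ‖v ((s : G ⧸ N) * x) - v x‖ ^ 2 ≤
      ∑ s ∈ K, c / (K.card + 1) := by
    refine Finset.sum_le_sum fun s hs => ?_
    have h5 := (hcon s hs).le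
    rw [move_inv] at h5
    exact (Real.sqrt_le_sqrt_iff (by positivity)).1 h5
  rw [Finset.sum_const, nsmul_eq_mul] at h4
  have h7 : (K.card : ℝ) * (c / (K.card + 1)) < c := by
    rw [mul_div_assoc', div_lt_iff₀ (by positivity)]
    nlinarith
  linarith

/-- the gap for every finite permutation representation -/
lemma gap_perm {G : Type} [Group G] (K : Finset G) (c : ℝ) (h : GapForm G K c)
    (X : Type) [Fintype X] (φ : G →* Equiv.Perm X) [Fintype (G ⧸ φ.ker)] (f : X → ℂ)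
    (hf : ∀ x, ∑ q : G ⧸ φ.ker, f (QuotientGroup.kerLift φ q x) = 0) :
    c * ∑ x, ‖f x‖ ^ 2 ≤ ∑ s ∈ K, ∑ x, ‖f (φ s x) - f x‖ ^ 2 := by
  classical
  haveI : φ.ker.FiniteIndex := Subgroup.finiteIndex_of_finite_quotient
  have key : ∀ x : X, c * ∑ q : G ⧸ φ.ker, ‖f (QuotientGroup.kerLift φ q x)‖ ^ 2 ≤
      ∑ s ∈ K, ∑ q : G ⧸ φ.ker, ‖f (φ s (QuotientGroup.kerLift φ q x)) -
        f (QuotientGroup.kerLift φ q x)‖ ^ 2 := by
    intro x
    have h1 := h φ.ker (fun q => f (QuotientGroup.kerLift φ q x)) (hf x)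
    refine h1.trans (le_of_eq ?_)
    refine Finset.sum_congr rfl fun s _ => Finset.sum_congr rfl fun q _ => ?_
    rw [map_mul, QuotientGroup.kerLift_mk, Equiv.Perm.mul_apply]
  have h2 := Finset.sum_le_sum (s := Finset.univ) fun x _ => key x
  have h3 : ∑ x, c * ∑ q : G ⧸ φ.ker, ‖f (QuotientGroup.kerLift φ q x)‖ ^ 2 =
      Fintype.card (G ⧸ φ.ker) * (c * ∑ x, ‖f x‖ ^ 2) := by
    rw [← Finset.mul_sum, Finset.sum_comm]
    have : ∀ q : G ⧸ φ.ker, ∑ x, ‖f (QuotientGroup.kerLift φ q x)‖ ^ 2 = ∑ x, ‖f x‖ ^ 2 :=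
      fun q => Equiv.sum_comp (QuotientGroup.kerLift φ q) fun x => ‖f x‖ ^ 2
    rw [Finset.sum_congr rfl fun q _ => this q, Finset.sum_const, Finset.card_univ, nsmul_eq_mul]
    ring
  have h4 : ∑ x, ∑ s ∈ K, ∑ q : G ⧸ φ.ker, ‖f (φ s (QuotientGroup.kerLift φ q x)) -
        f (QuotientGroup.kerLift φ q x)‖ ^ 2 =
      Fintype.card (G ⧸ φ.ker) * ∑ s ∈ K, ∑ x, ‖f (φ s x) - f x‖ ^ 2 := by
    rw [Finset.sum_comm, Finset.mul_sum]
    refine Finset.sum_congr rfl fun s _ => ?_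
    rw [Finset.sum_comm]
    have : ∀ q : G ⧸ φ.ker, ∑ x, ‖f (φ s (QuotientGroup.kerLift φ q x)) -
        f (QuotientGroup.kerLift φ q x)‖ ^ 2 = ∑ x, ‖f (φ s x) - f x‖ ^ 2 :=
      fun q => Equiv.sum_comp (QuotientGroup.kerLift φ q) fun x => ‖f (φ s x) - f x‖ ^ 2
    rw [Finset.sum_congr rfl fun q _ => this q, Finset.sum_const, Finset.card_univ, nsmul_eq_mul]
  rw [h3, h4] at h2
  have hpos : 0 < (Fintype.card (G ⧸ φ.ker) : ℝ) := by
    have : 0 < Fintype.card (G ⧸ φ.ker) := Fintype.card_pos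
    exact_mod_cast this
  exact le_of_mul_le_mul_left h2 hpos

/-- the averages over a transitive action vanish with the sum -/
lemma avg_transitive {G : Type} [Group G] (X : Type) [Fintype X] (φ : G →* Equiv.Perm X)
    [Fintype (G ⧸ φ.ker)] (htr : ∀ x y, ∃ g, φ g x = y) (f : X → ℂ) (hf : ∑ x, f x = 0) (x : X) :
    ∑ q : G ⧸ φ.ker, f (QuotientGroup.kerLift φ q x) = 0 := by
  classical
  set S : X → ℂ := fun x => ∑ q : G ⧸ φ.ker, f (QuotientGroup.kerLift φ q x) with hSdef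
  have h1 : ∀ (g : G) (y : X), S (φ g y) = S y := by
    intro g y
    simp only [hSdef]
    rw [← Equiv.sum_comp (Equiv.mulRight (g : G ⧸ φ.ker))
      (fun q => f (QuotientGroup.kerLift φ q y))]
    refine Finset.sum_congr rfl fun q _ => ?_
    rw [Equiv.coe_mulRight, map_mul, QuotientGroup.kerLift_mk, Equiv.Perm.mul_apply]
  have h2 : ∀ y, S y = S x := by
    intro y
    obtain ⟨g, rfl⟩ := htr x y
    exact h1 g x
  have h3 : (Fintype.card X : ℂ) * S x = 0 := by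
    have h4 : ∑ y, S y = 0 := by
      simp only [hSdef]
      rw [Finset.sum_comm]
      refine Finset.sum_eq_zero fun q _ => ?_
      rw [Equiv.sum_comp (QuotientGroup.kerLift φ q) f, hf]
    rw [Finset.sum_congr rfl fun y _ => h2 y, Finset.sum_const, Finset.card_univ,
      nsmul_eq_mul] at h4
    exact h4
  have h5 : (Fintype.card X : ℂ) ≠ 0 := by
    have : 0 < Fintype.card X := Fintype.card_pos_iff.2 ⟨x⟩
    exact_mod_cast this.ne'
  exact (mul_eq_zero.1 h3).resolve_left h5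

lemma finite_ker {G X : Type} [Group G] [Finite X] (φ : G →* Equiv.Perm X) :
    Finite (G ⧸ φ.ker) :=
  Finite.of_injective _ (QuotientGroup.kerLift_injective φ)

/-- quotients -/
lemma tau_quotient {G H : Type} [Group G] [Group H] (f : G →* H) (hf : Function.Surjective f)
    (h : PropertyTau G) : PropertyTau H := by
  classical
  obtain ⟨K, c, hc, h⟩ := gapForm_of_tau h
  refine tau_of_gapForm (K.image f) (c / (K.card + 1)) (by positivity) ?_
  intro N i1 i2 i3 v hv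
  let φ : G →* Equiv.Perm (H ⧸ N) :=
    (MulAction.toPermHom (H ⧸ N) (H ⧸ N)).comp ((QuotientGroup.mk' N).comp f)
  have hφ : ∀ g x, φ g x = ((f g : H) : H ⧸ N) * x := fun g x => rfl
  haveI := finite_ker φ
  haveI := Fintype.ofFinite (G ⧸ φ.ker)
  have htr : ∀ x y, ∃ g, φ g x = y := by
    intro x y
    obtain ⟨g, hg⟩ := ((QuotientGroup.mk'_surjective N).comp hf) (y * x⁻¹)
    refine ⟨g, ?_⟩
    rw [hφ]
    have h1 : ((f g : H) : H ⧸ N) = y * x⁻¹ := hg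
    rw [h1, inv_mul_cancel_right]
  have h1 := gap_perm K c h (H ⧸ N) φ v (avg_transitive (H ⧸ N) φ htr v hv)
  have h2 : ∑ s ∈ K, ∑ x, ‖v (φ s x) - v x‖ ^ 2 ≤
      (K.card : ℝ) * ∑ s ∈ K.image f, ∑ x, ‖v ((s : H ⧸ N) * x) - v x‖ ^ 2 := by
    rw [← nsmul_eq_mul, ← Finset.sum_const]
    refine Finset.sum_le_sum fun s hs => ?_
    exact Finset.single_le_sum
      (f := fun s : H => ∑ x, ‖v ((s : H ⧸ N) * x) - v x‖ ^ 2)
      (fun s _ => Finset.sum_nonneg fun x _ => by positivity) (Finset.mem_image_of_mem f hs)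
  have h3 : 0 ≤ ∑ s ∈ K.image f, ∑ x, ‖v ((s : H ⧸ N) * x) - v x‖ ^ 2 :=
    Finset.sum_nonneg fun s _ => Finset.sum_nonneg fun x _ => by positivity
  rw [div_mul_eq_mul_div, div_le_iff₀ (by positivity)]
  nlinarith [h1.trans h2]

/-- the cocycle of a finite-index subgroup -/
noncomputable def coc {G : Type} [Group G] (H : Subgroup G) (g : G) (i : G ⧸ H) : H :=
  ⟨(Quotient.out (g • i))⁻¹ * g * Quotient.out i, by
    have h1 : ((Quotient.out (g • i) : G) : G ⧸ H) = ((g * Quotient.out i : G) : G ⧸ H) := by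
      rw [QuotientGroup.out_eq']
      conv_lhs => rw [← QuotientGroup.out_eq' i]
      rfl
    have h2 := QuotientGroup.eq.1 h1
    rwa [← mul_assoc] at h2⟩

lemma coc_val {G : Type} [Group G] (H : Subgroup G) (g : G) (i : G ⧸ H) :
    (coc H g i : G) = (Quotient.out (g • i))⁻¹ * g * Quotient.out i := rfl

lemma coc_one {G : Type} [Group G] (H : Subgroup G) (i : G ⧸ H) : coc H 1 i = 1 := by
  apply Subtype.ext
  rw [coc_val, one_smul, mul_one, inv_mul_cancel, Subgroup.coe_one]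

lemma coc_mul {G : Type} [Group G] (H : Subgroup G) (g g' : G) (i : G ⧸ H) :
    coc H (g * g') i = coc H g (g' • i) * coc H g' i := by
  apply Subtype.ext
  rw [Subgroup.coe_mul, coc_val, coc_val, coc_val, mul_smul]
  group

/-- the induced action -/
noncomputable def indAct {G : Type} [Group G] (H : Subgroup G) (N : Subgroup H) [N.Normal] :
    MulAction G ((G ⧸ H) × (H ⧸ N)) where
  smul g z := (g • z.1, ((coc H g z.1 : H) : H ⧸ N) * z.2)
  one_smul z := by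
    change ((1 : G) • z.1, ((coc H 1 z.1 : H) : H ⧸ N) * z.2) = z
    rw [coc_one, one_smul, QuotientGroup.mk_one, one_mul]
  mul_smul g g' z := by
    change ((g * g') • z.1, ((coc H (g * g') z.1 : H) : H ⧸ N) * z.2) =
      (g • g' • z.1, ((coc H g (g' • z.1) : H) : H ⧸ N) * (((coc H g' z.1 : H) : H ⧸ N) * z.2))
    rw [coc_mul, mul_smul, QuotientGroup.mk_mul, mul_assoc]

/-- finite-index subgroups -/
lemma tau_subgroup {G : Type} [Group G] (H : Subgroup G) [H.FiniteIndex]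
    (h : PropertyTau G) : PropertyTau H := by
  classical
  obtain ⟨K, c, hc, h⟩ := gapForm_of_tau h
  haveI := Fintype.ofFinite (G ⧸ H)
  set K' : Finset H := (K ×ˢ (Finset.univ : Finset (G ⧸ H))).image fun z => coc H z.1 z.2 with hK'
  refine tau_of_gapForm K' (c / (K.card + 1)) (by positivity) ?_
  intro N i1 i2 i3 v hv
  let φ : G →* Equiv.Perm ((G ⧸ H) × (H ⧸ N)) := @MulAction.toPermHom G _ _ (indAct H N)
  have hφ : ∀ g z, φ g z = (g • z.1, ((coc H g z.1 : H) : H ⧸ N) * z.2) := fun g z => rfl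
  haveI := finite_ker φ
  haveI := Fintype.ofFinite (G ⧸ φ.ker)
  have htr : ∀ x y, ∃ g, φ g x = y := by
    rintro ⟨i, x⟩ ⟨j, y⟩
    obtain ⟨t, ht⟩ := QuotientGroup.mk_surjective (y * x⁻¹)
    have hij : (Quotient.out j * (t : G) * (Quotient.out i)⁻¹) • i = j := by
      have h1 : (Quotient.out j * (t : G) * (Quotient.out i)⁻¹) •
          ((Quotient.out i : G) : G ⧸ H) = j := by
        change (((Quotient.out j * (t : G) * (Quotient.out i)⁻¹) * Quotient.out i : G) :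
          G ⧸ H) = j
        rw [inv_mul_cancel_right, QuotientGroup.mk_mul_of_mem _ t.2, QuotientGroup.out_eq']
      rwa [QuotientGroup.out_eq'] at h1
    refine ⟨Quotient.out j * (t : G) * (Quotient.out i)⁻¹, ?_⟩
    rw [hφ]
    refine Prod.ext hij ?_
    have hc' : coc H (Quotient.out j * (t : G) * (Quotient.out i)⁻¹) i = t := by
      apply Subtype.ext
      rw [coc_val, hij]
      group
    change ((coc H _ i : H) : H ⧸ N) * x = y
    rw [hc', ht, inv_mul_cancel_right]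
  have hsum : ∑ z : (G ⧸ H) × (H ⧸ N), v z.2 = 0 := by
    rw [Fintype.sum_prod_type]
    exact Finset.sum_eq_zero fun i _ => hv
  have h1 := gap_perm K c h _ φ (fun z => v z.2) (avg_transitive _ φ htr (fun z => v z.2) hsum)
  simp only [hφ] at h1
  set E : H → ℝ := fun t => ∑ x, ‖v ((t : H ⧸ N) * x) - v x‖ ^ 2 with hE
  have hE0 : ∀ t, 0 ≤ E t := fun t => Finset.sum_nonneg fun x _ => by positivity
  have h2 : ∑ z : (G ⧸ H) × (H ⧸ N), ‖v z.2‖ ^ 2 =
      Fintype.card (G ⧸ H) * ∑ x, ‖v x‖ ^ 2 := by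
    simp only [Fintype.sum_prod_type, Finset.sum_const, Finset.card_univ, nsmul_eq_mul]
  have h3a : ∀ s ∈ K, ∑ z : (G ⧸ H) × (H ⧸ N),
      ‖v (((coc H s z.1 : H) : H ⧸ N) * z.2) - v z.2‖ ^ 2 ≤
      (Fintype.card (G ⧸ H) : ℝ) * ∑ t ∈ K', E t := by
    intro s hs
    have e1 : ∑ z : (G ⧸ H) × (H ⧸ N), ‖v (((coc H s z.1 : H) : H ⧸ N) * z.2) - v z.2‖ ^ 2 =
        ∑ i : G ⧸ H, E (coc H s i) := by
      rw [Fintype.sum_prod_type]
    rw [e1]
    have e2 : ∑ i : G ⧸ H, E (coc H s i) ≤ ∑ _i : G ⧸ H, ∑ t ∈ K', E t := by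
      refine Finset.sum_le_sum fun i _ => ?_
      have hmem : coc H s i ∈ K' := by
        rw [hK']
        exact Finset.mem_image.2 ⟨(s, i), Finset.mem_product.2 ⟨hs, Finset.mem_univ i⟩, rfl⟩
      exact Finset.single_le_sum (f := E) (fun t _ => hE0 t) hmem
    refine e2.trans (le_of_eq ?_)
    rw [Finset.sum_const, Finset.card_univ, nsmul_eq_mul]
  have h3 : ∑ s ∈ K, ∑ z : (G ⧸ H) × (H ⧸ N),
      ‖v (((coc H s z.1 : H) : H ⧸ N) * z.2) - v z.2‖ ^ 2 ≤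
      (K.card : ℝ) * (Fintype.card (G ⧸ H) * ∑ t ∈ K', E t) := by
    refine (Finset.sum_le_sum h3a).trans (le_of_eq ?_)
    rw [Finset.sum_const, nsmul_eq_mul]
  rw [h2] at h1
  have h4 := h1.trans h3
  have hm : 0 < (Fintype.card (G ⧸ H) : ℝ) := by
    have : 0 < Fintype.card (G ⧸ H) := Fintype.card_pos
    exact_mod_cast this
  have h5 : 0 ≤ ∑ t ∈ K', E t := Finset.sum_nonneg fun t _ => hE0 t
  have h6 : c * ∑ x, ‖v x‖ ^ 2 ≤ K.card * ∑ t ∈ K', E t := by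
    have h7 : (Fintype.card (G ⧸ H) : ℝ) * (c * ∑ x, ‖v x‖ ^ 2) ≤
        Fintype.card (G ⧸ H) * (K.card * ∑ t ∈ K', E t) := by
      calc _ = c * (Fintype.card (G ⧸ H) * ∑ x, ‖v x‖ ^ 2) := by ring
        _ ≤ _ := h4
        _ = _ := by ring
    exact le_of_mul_le_mul_left h7 hm
  rw [div_mul_eq_mul_div, div_le_iff₀ (by positivity)]
  change c * ∑ x, ‖v x‖ ^ 2 ≤ (∑ t ∈ K', E t) * ((K.card : ℝ) + 1)
  nlinarith

lemma sum_pairs {Q : Type} [Group Q] [Fintype Q] (m : Q → ℂ) (hm : ∑ x, m x = 0) :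
    ∑ g, ∑ x, ‖m (g * x) - m x‖ ^ 2 = 2 * (Fintype.card Q * ∑ x, ‖m x‖ ^ 2) := by
  have h1 : ∀ z w : ℂ, ‖z - w‖ ^ 2 = ‖z‖ ^ 2 + ‖w‖ ^ 2 -
      2 * (z * (starRingEnd ℂ) w).re := by
    intro z w
    rw [← Complex.normSq_eq_norm_sq, Complex.normSq_sub, Complex.normSq_eq_norm_sq,
      Complex.normSq_eq_norm_sq]
  have h2 : ∑ g, ∑ x, (m (g * x) * (starRingEnd ℂ) (m x)).re = 0 := by
    rw [Finset.sum_comm]
    refine Finset.sum_eq_zero fun x _ => ?_
    rw [← Complex.re_sum, ← Finset.sum_mul]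
    have : ∑ g, m (g * x) = ∑ g, m g := Equiv.sum_comp (Equiv.mulRight x) m
    rw [this, hm, zero_mul, Complex.zero_re]
  have h3 : ∑ g, ∑ x, ‖m (g * x)‖ ^ 2 = Fintype.card Q * ∑ x, ‖m x‖ ^ 2 := by
    have : ∀ g : Q, ∑ x, ‖m (g * x)‖ ^ 2 = ∑ x, ‖m x‖ ^ 2 := fun g =>
      Equiv.sum_comp (Equiv.mulLeft g) fun x => ‖m x‖ ^ 2
    rw [Finset.sum_congr rfl fun g _ => this g, Finset.sum_const, Finset.card_univ, nsmul_eq_mul]
  have h4 : ∑ _g : Q, ∑ x, ‖m x‖ ^ 2 = Fintype.card Q * ∑ x, ‖m x‖ ^ 2 := by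
    rw [Finset.sum_const, Finset.card_univ, nsmul_eq_mul]
  simp only [h1, Finset.sum_sub_distrib, Finset.sum_add_distrib, ← Finset.mul_sum]
  rw [h3, h4, h2]
  ring

lemma three (a b c : ℂ) : ‖a + b + c‖ ^ 2 ≤ 3 * (‖a‖ ^ 2 + ‖b‖ ^ 2 + ‖c‖ ^ 2) := by
  have h := norm_add₃_le (a := a) (b := b) (c := c)
  have h0 := norm_nonneg (a + b + c)
  have h2 : ‖a + b + c‖ ^ 2 ≤ (‖a‖ + ‖b‖ + ‖c‖) ^ 2 := pow_le_pow_left₀ h0 h 2
  nlinarith [sq_nonneg (‖a‖ - ‖b‖), sq_nonneg (‖b‖ - ‖c‖), sq_nonneg (‖a‖ - ‖c‖)]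

/-- finite-index overgroups -/
lemma tau_overgroup {G : Type} [Group G] (H : Subgroup G) [H.FiniteIndex]
    (h : PropertyTau H) : PropertyTau G := by
  classical
  obtain ⟨K, c, hc, h⟩ := gapForm_of_tau h
  haveI := Fintype.ofFinite (G ⧸ H)
  set T : Finset G := (Finset.univ : Finset (G ⧸ H)).image fun i => (Quotient.out i)⁻¹ with hT
  set K1 : Finset G := K.image fun s : H => (s : G) with hK1
  refine tau_of_gapForm (K1 ∪ T) (1 / (3 + (6 * T.card + 2) / c)) (by positivity) ?_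
  intro N i1 i2 i3 v hv
  let ψ : H →* Equiv.Perm (G ⧸ N) :=
    (MulAction.toPermHom (G ⧸ N) (G ⧸ N)).comp ((QuotientGroup.mk' N).comp H.subtype)
  have hψ : ∀ (s : H) x, ψ s x = ((s : G) : G ⧸ N) * x := fun s x => rfl
  haveI := finite_ker ψ
  haveI := Fintype.ofFinite (H ⧸ ψ.ker)
  set n : ℂ := (Fintype.card (H ⧸ ψ.ker) : ℂ) with hn
  have hn0 : n ≠ 0 := by
    have : 0 < Fintype.card (H ⧸ ψ.ker) := Fintype.card_pos
    rw [hn]
    exact_mod_cast this.ne'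
  set m : G ⧸ N → ℂ := fun x => n⁻¹ * ∑ q : H ⧸ ψ.ker, v (QuotientGroup.kerLift ψ q x) with hm
  have hinv : ∀ (s : H) x, m (ψ s x) = m x := by
    intro s x
    simp only [hm]
    congr 1
    rw [← Equiv.sum_comp (Equiv.mulRight (s : H ⧸ ψ.ker))
      (fun q => v (QuotientGroup.kerLift ψ q x))]
    refine Finset.sum_congr rfl fun q _ => ?_
    rw [Equiv.coe_mulRight, map_mul, QuotientGroup.kerLift_mk, Equiv.Perm.mul_apply]
  have hinv' : ∀ (q : H ⧸ ψ.ker) x, m (QuotientGroup.kerLift ψ q x) = m x := by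
    intro q x
    obtain ⟨s, rfl⟩ := QuotientGroup.mk_surjective q
    rw [QuotientGroup.kerLift_mk, hinv]
  have hmsum : ∑ x, m x = 0 := by
    simp only [hm]
    rw [← Finset.mul_sum, Finset.sum_comm]
    have : ∀ q : H ⧸ ψ.ker, ∑ x, v (QuotientGroup.kerLift ψ q x) = 0 := by
      intro q
      rw [Equiv.sum_comp (QuotientGroup.kerLift ψ q) v, hv]
    rw [Finset.sum_eq_zero fun q _ => this q, mul_zero]
  set w : G ⧸ N → ℂ := fun x => v x - m x with hw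
  have hwavg : ∀ x, ∑ q : H ⧸ ψ.ker, w (QuotientGroup.kerLift ψ q x) = 0 := by
    intro x
    simp only [hw, hinv', Finset.sum_sub_distrib, Finset.sum_const, Finset.card_univ,
      nsmul_eq_mul]
    simp only [hm]
    rw [← hn, ← mul_assoc, mul_inv_cancel₀ hn0, one_mul, sub_self]
  have h1 := gap_perm K c h (G ⧸ N) ψ w hwavg
  have h2 : ∑ s ∈ K, ∑ x, ‖w (ψ s x) - w x‖ ^ 2 =
      ∑ s ∈ K, ∑ x, ‖v (((s : G) : G ⧸ N) * x) - v x‖ ^ 2 := by
    refine Finset.sum_congr rfl fun s _ => Finset.sum_congr rfl fun x _ => ?_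
    simp only [hw]
    rw [hinv, hψ]
    congr 2
    ring
  rw [h2] at h1
  set E : G → ℝ := fun t => ∑ x, ‖v ((t : G ⧸ N) * x) - v x‖ ^ 2 with hE
  have hE0 : ∀ t, 0 ≤ E t := fun t => Finset.sum_nonneg fun x _ => by positivity
  have hK1s : ∑ s ∈ K, E (s : G) = ∑ t ∈ K1, E t := by
    rw [hK1, Finset.sum_image]
    intro a _ b _ hab
    exact Subtype.ext hab
  have h3 : c * ∑ x, ‖w x‖ ^ 2 ≤ ∑ t ∈ K1 ∪ T, E t := by
    refine h1.trans ?_
    change ∑ s ∈ K, E (s : G) ≤ _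
    rw [hK1s]
    exact Finset.sum_le_sum_of_subset_of_nonneg Finset.subset_union_left fun t _ _ => hE0 t
  have h4 : ∑ t ∈ T, E t ≤ ∑ t ∈ K1 ∪ T, E t :=
    Finset.sum_le_sum_of_subset_of_nonneg Finset.subset_union_right fun t _ _ => hE0 t
  -- the invariant part
  set M : G → ℝ := fun t => ∑ x, ‖m ((t : G ⧸ N) * x) - m x‖ ^ 2 with hM
  have hM0 : ∀ t, 0 ≤ M t := fun t => Finset.sum_nonneg fun x _ => by positivity
  have h5 : 2 * ∑ x, ‖m x‖ ^ 2 ≤ ∑ t ∈ T, M t := by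
    have h6 := sum_pairs m hmsum
    have h7 : ∀ g : G ⧸ N, ∑ x, ‖m (g * x) - m x‖ ^ 2 ≤ ∑ t ∈ T, M t := by
      intro g
      obtain ⟨g0, rfl⟩ := QuotientGroup.mk_surjective g
      set i : G ⧸ H := ((g0⁻¹ : G) : G ⧸ H) with hi
      have hmem : g0 * Quotient.out i ∈ H := by
        have h8 : ((g0⁻¹ : G) : G ⧸ H) = ((Quotient.out i : G) : G ⧸ H) := by
          rw [QuotientGroup.out_eq']
        have h9 := QuotientGroup.eq.1 h8
        rwa [inv_inv] at h9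
      have hg : g0 = (g0 * Quotient.out i) * (Quotient.out i)⁻¹ := by group
      have h10 : ∀ x : G ⧸ N, m ((g0 : G ⧸ N) * x) =
          m ((((Quotient.out i)⁻¹ : G) : G ⧸ N) * x) := by
        intro x
        have h11 := hinv ⟨g0 * Quotient.out i, hmem⟩ ((((Quotient.out i)⁻¹ : G) : G ⧸ N) * x)
        rw [hψ] at h11
        rw [← h11, ← mul_assoc, ← QuotientGroup.mk_mul, ← hg]
      have h12 : ∑ x, ‖m ((g0 : G ⧸ N) * x) - m x‖ ^ 2 = M ((Quotient.out i)⁻¹) := by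
        refine Finset.sum_congr rfl fun x _ => ?_
        rw [h10]
      rw [h12]
      exact Finset.single_le_sum (f := M) (fun t _ => hM0 t)
        (Finset.mem_image_of_mem _ (Finset.mem_univ i))
    have h13 : ∑ g, ∑ x, ‖m (g * x) - m x‖ ^ 2 ≤ Fintype.card (G ⧸ N) * ∑ t ∈ T, M t := by
      refine (Finset.sum_le_sum fun g _ => h7 g).trans (le_of_eq ?_)
      rw [Finset.sum_const, Finset.card_univ, nsmul_eq_mul]
    rw [h6] at h13
    have hcard : 0 < (Fintype.card (G ⧸ N) : ℝ) := by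
      have : 0 < Fintype.card (G ⧸ N) := Fintype.card_pos
      exact_mod_cast this
    have h14 : (Fintype.card (G ⧸ N) : ℝ) * (2 * ∑ x, ‖m x‖ ^ 2) ≤
        Fintype.card (G ⧸ N) * ∑ t ∈ T, M t := by
      calc _ = 2 * (Fintype.card (G ⧸ N) * ∑ x, ‖m x‖ ^ 2) := by ring
        _ ≤ _ := h13
    exact le_of_mul_le_mul_left h14 hcard
  have h15 : ∀ t : G, M t ≤ 3 * (E t + 2 * ∑ x, ‖w x‖ ^ 2) := by
    intro t
    have h16 : M t ≤ ∑ x, 3 * (‖v ((t : G ⧸ N) * x) - v x‖ ^ 2 + ‖-w ((t : G ⧸ N) * x)‖ ^ 2 +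
        ‖w x‖ ^ 2) := by
      refine Finset.sum_le_sum fun x _ => ?_
      refine le_trans (le_of_eq ?_) (three _ _ _)
      congr 2
      simp only [hw]
      ring
    refine h16.trans (le_of_eq ?_)
    have h17 : ∑ x, ‖w ((t : G ⧸ N) * x)‖ ^ 2 = ∑ x, ‖w x‖ ^ 2 :=
      Equiv.sum_comp (Equiv.mulLeft (t : G ⧸ N)) fun x => ‖w x‖ ^ 2
    simp only [norm_neg]
    rw [← Finset.mul_sum, Finset.sum_add_distrib, Finset.sum_add_distrib, h17]
    ring
  have h18 : ∑ t ∈ T, M t ≤ 3 * ∑ t ∈ T, E t + 6 * T.card * ∑ x, ‖w x‖ ^ 2 := by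
    refine (Finset.sum_le_sum fun t _ => h15 t).trans (le_of_eq ?_)
    rw [← Finset.mul_sum, Finset.sum_add_distrib, Finset.sum_const, nsmul_eq_mul]
    ring
  have h19 : ∑ x, ‖v x‖ ^ 2 ≤ 2 * ∑ x, ‖m x‖ ^ 2 + 2 * ∑ x, ‖w x‖ ^ 2 := by
    rw [Finset.mul_sum, Finset.mul_sum, ← Finset.sum_add_distrib]
    refine Finset.sum_le_sum fun x _ => ?_
    have h20 : v x = m x + w x := by simp only [hw]; ring
    have h21 : ‖m x + w x‖ ≤ ‖m x‖ + ‖w x‖ := norm_add_le _ _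
    have h22 : ‖m x + w x‖ ^ 2 ≤ (‖m x‖ + ‖w x‖) ^ 2 := pow_le_pow_left₀ (norm_nonneg _) h21 2
    rw [h20]
    nlinarith [sq_nonneg (‖m x‖ - ‖w x‖)]
  have hw0 : 0 ≤ ∑ x, ‖w x‖ ^ 2 := Finset.sum_nonneg fun x _ => by positivity
  set A : ℝ := ∑ t ∈ K1 ∪ T, E t with hA
  have hw1 : ∑ x, ‖w x‖ ^ 2 ≤ A / c := by
    rw [le_div_iff₀ hc]
    linarith [h3]
  have hT0 : (0 : ℝ) ≤ T.card := by positivity
  have h23 : ∑ x, ‖v x‖ ^ 2 ≤ (3 + (6 * T.card + 2) / c) * A := by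
    have h24 : (6 * (T.card : ℝ) + 2) * ∑ x, ‖w x‖ ^ 2 ≤ (6 * T.card + 2) * (A / c) :=
      mul_le_mul_of_nonneg_left hw1 (by positivity)
    calc ∑ x, ‖v x‖ ^ 2 ≤ 3 * A + (6 * T.card + 2) * ∑ x, ‖w x‖ ^ 2 := by linarith
      _ ≤ 3 * A + (6 * T.card + 2) * (A / c) := by linarith
      _ = (3 + (6 * T.card + 2) / c) * A := by ring
  rw [one_div, inv_mul_le_iff₀ (by positivity)]
  exact h23

/-- Property tau passes to every group which has a finite-index subgroup that is a homomorphic image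
of a finite-index subgroup. -/
theorem tau_commensurable {G Γ : Type} [Group G] [Group Γ] (h : PropertyTau G) (B : Subgroup G)
    [B.FiniteIndex] (A : Subgroup Γ) [A.FiniteIndex] (f : B →* A) (hf : Function.Surjective f) :
    PropertyTau Γ :=
  tau_overgroup A (tau_quotient f hf (tau_subgroup B h))

end TauCM
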