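import Mathlib
import Pool.Agent.Work.MP_972ac7_tq.Interface

/-!
Block FN for MP_972ac7_al, all finite quotients: from the finite groups back to `GG p q`.
-/

open scoped Quaternion BigOperators Matrix ComplexOrder

namespace TauQ

/-! ### part 1: the two step gap on `Q` -/

theorem FN_var {Z ι : Type} [Fintype Z] [Fintype ι] (τ : ι → Equiv.Perm Z) (f : Z → ℂ) :
    ∑ i, ∑ z, ‖f (τ i z) - f z‖ ^ 2 = 2 * (Fintype.card ι : ℝ) * ∑ z, ‖f z‖ ^ 2 -
      2 * ∑ z, ((∑ i, f (τ i z)) * (starRingEnd ℂ) (f z)).re := by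
  have h1 : ∀ i z, ‖f (τ i z) - f z‖ ^ 2 = ‖f (τ i z)‖ ^ 2 + ‖f z‖ ^ 2
      - 2 * (f (τ i z) * (starRingEnd ℂ) (f z)).re := by
    intro i z
    rw [Complex.sq_norm, Complex.sq_norm, Complex.sq_norm, Complex.normSq_sub]
  have h2 : ∀ i, ∑ z, ‖f (τ i z)‖ ^ 2 = ∑ z, ‖f z‖ ^ 2 := fun i =>
    Equiv.sum_comp (τ i) (fun z => ‖f z‖ ^ 2)
  have h3 : ∑ i, ∑ z, (f (τ i z) * (starRingEnd ℂ) (f z)).re =
      ∑ z, ((∑ i, f (τ i z)) * (starRingEnd ℂ) (f z)).re := by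
    rw [Finset.sum_comm]
    refine Finset.sum_congr rfl fun z _ => ?_
    rw [Finset.sum_mul, Complex.re_sum]
  simp only [h1, Finset.sum_add_distrib, Finset.sum_sub_distrib, h2]
  simp only [← Finset.mul_sum]
  rw [h3]
  simp only [Finset.sum_const, Finset.card_univ, nsmul_eq_mul]
  ring

section one

variable {A B : Type} [Fintype A] [Fintype B] {h : VH A B} {Q : Type} [Group Q] [Fintype Q]

/-- the gap `g` of the `A`-walk on the functions on `Q` of zero sum on the classes of `chiB` -/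
def FN_Gap (r : Rep h Q) (g : ℝ) : Prop :=
  ∀ f : Q → ℂ, (∀ κ : ℤˣ, ∑ x, (if r.chiB x = κ then f x else 0) = 0) →
    2 * g * ∑ x, ‖f x‖ ^ 2 ≤ ∑ a, ∑ x, ‖f (r.al a * x) - f x‖ ^ 2

omit [Fintype B] in
/-- symmetry of the averaging operator -/
theorem FN_symm (r : Rep h Q) (u v : Q → ℂ) :
    ∑ x, ((∑ a, u (r.al a * x)) * (starRingEnd ℂ) (v x)).re =
      ∑ x, (u x * (starRingEnd ℂ) (∑ a, v (r.al a * x))).re := by
  simp only [map_sum, Finset.sum_mul, Finset.mul_sum, Complex.re_sum]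
  rw [Finset.sum_comm, Finset.sum_comm (s := Finset.univ) (t := Finset.univ)
    (f := fun x a => (u x * (starRingEnd ℂ) (v (r.al a * x))).re)]
  have inv : Function.Involutive h.invA := h.invA_invA
  rw [← Equiv.sum_comp inv.toPerm (fun a => ∑ x, (u (r.al a * x) * (starRingEnd ℂ) (v x)).re)]
  refine Finset.sum_congr rfl fun a _ => ?_
  rw [Function.Involutive.coe_toPerm, r.al_inv]
  rw [← Equiv.sum_comp (Equiv.mulLeft (r.al a))]
  simp

theorem FN_gap (r : Rep h Q) (g : ℝ) (hgm : g < Fintype.card A)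
    (hgap : FN_Gap r g) (φ : Q → ℂ) (hsA : ∀ x, r.chiA x ≠ 1 → φ x = 0)
    (hsB : ∀ x, r.chiB x ≠ 1 → φ x = 0) (hsum : ∑ x, φ x = 0) :
    2 * g * (2 * Fintype.card A - g) * ∑ x, ‖φ x‖ ^ 2 ≤
      ∑ i : A × A, ∑ x, ‖φ (r.al i.1 * r.al i.2 * x) - φ x‖ ^ 2 := by
  set m : ℝ := (Fintype.card A : ℝ) with hm
  set ψ : Q → ℂ := fun x => ∑ a, φ (r.al a * x) with hψ
  set ω : Q → ℂ := fun x => ∑ a, ψ (r.al a * x) with hω
  have hne : ¬ ((1 : ℤˣ) = -1) := by decide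
  have hψA : ∀ x, r.chiA x ≠ -1 → ψ x = 0 := by
    intro x hx
    simp only [hψ]
    refine Finset.sum_eq_zero fun a _ => hsA _ ?_
    rw [map_mul, r.chiA_al]
    intro h1
    apply hx
    rw [← h1]
    simp
  have hψB : ∀ x, r.chiB x ≠ 1 → ψ x = 0 := by
    intro x hx
    simp only [hψ]
    refine Finset.sum_eq_zero fun a _ => hsB _ ?_
    rwa [map_mul, r.chiB_al, one_mul]
  have hωA : ∀ x, r.chiA x ≠ 1 → ω x = 0 := by
    intro x hx
    simp only [hω]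
    refine Finset.sum_eq_zero fun a _ => hψA _ ?_
    rw [map_mul, r.chiA_al]
    intro h1
    apply hx
    simpa using h1
  have hψsum : ∑ x, ψ x = 0 := by
    simp only [hψ]
    rw [Finset.sum_comm]
    refine Finset.sum_eq_zero fun a _ => ?_
    exact (Equiv.sum_comp (Equiv.mulLeft (r.al a)) φ).trans hsum
  have hωφ : ∑ x, (ω x * (starRingEnd ℂ) (φ x)).re = ∑ x, ‖ψ x‖ ^ 2 := by
    simp only [hω]
    rw [FN_symm r ψ φ]
    refine Finset.sum_congr rfl fun x _ => ?_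
    change (ψ x * (starRingEnd ℂ) (ψ x)).re = _
    rw [Complex.mul_conj, Complex.sq_norm]
    simp
  have hμ : 0 < m - g := by linarith
  set s : ℝ := 1 / (m - g) with hs
  have hspos : 0 < s := by positivity
  set f : Q → ℂ := fun x => φ x + (s : ℂ) * ψ x with hf
  have hcl : ∀ κ : ℤˣ, ∑ x, (if r.chiB x = κ then f x else 0) = 0 := by
    intro κ
    by_cases hκ : κ = 1
    · have : ∀ x, (if r.chiB x = κ then f x else 0) = f x := by
        intro x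
        split_ifs with h1
        · rfl
        · rw [hκ] at h1
          simp only [hf, hsB x h1, hψB x h1, mul_zero, add_zero]
      rw [Finset.sum_congr rfl fun x _ => this x]
      simp only [hf, Finset.sum_add_distrib, ← Finset.mul_sum, hsum, hψsum, mul_zero, add_zero]
    · refine Finset.sum_eq_zero fun x _ => ?_
      split_ifs with h1
      · have h2 : r.chiB x ≠ 1 := by rw [h1]; exact hκ
        simp only [hf, hsB x h2, hψB x h2, mul_zero, add_zero]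
      · rfl
  have hgf := hgap f hcl
  have hv := FN_var (fun a => Equiv.mulLeft (r.al a)) f
  simp only [Equiv.coe_mulLeft] at hv
  rw [hv] at hgf
  have hnf : ∑ x, ‖f x‖ ^ 2 = ∑ x, ‖φ x‖ ^ 2 + s ^ 2 * ∑ x, ‖ψ x‖ ^ 2 := by
    rw [Finset.mul_sum, ← Finset.sum_add_distrib]
    refine Finset.sum_congr rfl fun x _ => ?_
    by_cases hx : r.chiA x = 1
    · have : ψ x = 0 := hψA x (by rw [hx]; exact hne)
      simp [hf, this]
    · simp [hf, hsA x hx, mul_pow]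
  have hTf : ∀ x, ∑ a, f (r.al a * x) = ψ x + (s : ℂ) * ω x := by
    intro x
    simp only [hf, Finset.sum_add_distrib, ← Finset.mul_sum]
    rfl
  have hin : ∑ x, ((∑ a, f (r.al a * x)) * (starRingEnd ℂ) (f x)).re =
      2 * s * ∑ x, ‖ψ x‖ ^ 2 := by
    have e1 : ∀ x, ((∑ a, f (r.al a * x)) * (starRingEnd ℂ) (f x)).re =
        s * ‖ψ x‖ ^ 2 + s * (ω x * (starRingEnd ℂ) (φ x)).re := by
      intro x
      rw [hTf]
      by_cases hx : r.chiA x = 1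
      · have h1 : ψ x = 0 := hψA x (by rw [hx]; exact hne)
        simp only [hf, h1, mul_zero, add_zero, zero_add, norm_zero]
        rw [mul_assoc, Complex.re_ofReal_mul]
        ring
      · have h1 : φ x = 0 := hsA x hx
        have h2 : ω x = 0 := hωA x hx
        simp only [hf, h1, h2, mul_zero, add_zero, zero_add, zero_mul, Complex.zero_re]
        rw [map_mul, Complex.conj_ofReal, mul_left_comm, Complex.re_ofReal_mul, Complex.mul_conj,
          Complex.ofReal_re, Complex.sq_norm]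
    simp only [e1, Finset.sum_add_distrib, ← Finset.mul_sum, hωφ]
    ring
  rw [hnf, hin] at hgf
  have hψφ : ∑ x, ‖ψ x‖ ^ 2 ≤ (m - g) ^ 2 * ∑ x, ‖φ x‖ ^ 2 := by
    have hsm : s * (m - g) = 1 := by rw [hs]; field_simp
    set X := ∑ x, ‖φ x‖ ^ 2
    set Y := ∑ x, ‖ψ x‖ ^ 2
    have h1 : 2 * s * Y ≤ (m - g) * (X + s ^ 2 * Y) := by nlinarith
    have h2 : (m - g) * (X + s ^ 2 * Y) = (m - g) * X + s * Y := by
      calc _ = (m - g) * X + s * (s * (m - g)) * Y := by ring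
        _ = _ := by rw [hsm]; ring
    rw [h2] at h1
    have h3 : s * Y ≤ (m - g) * X := by linarith
    have h4 : (m - g) * (s * Y) ≤ (m - g) * ((m - g) * X) := mul_le_mul_of_nonneg_left h3 hμ.le
    calc Y = s * (m - g) * Y := by rw [hsm, one_mul]
      _ = (m - g) * (s * Y) := by ring
      _ ≤ (m - g) * ((m - g) * X) := h4
      _ = _ := by ring
  have hv2 := FN_var (fun i : A × A => Equiv.mulLeft (r.al i.1 * r.al i.2)) φ
  simp only [Equiv.coe_mulLeft] at hv2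
  rw [hv2]
  have e3 : ∀ x, ∑ i : A × A, φ (r.al i.1 * r.al i.2 * x) = ω x := by
    intro x
    rw [Fintype.sum_prod_type_right]
    simp only [hω, hψ, mul_assoc]
  simp only [e3, hωφ, Fintype.card_prod, Nat.cast_mul]
  rw [← hm]
  nlinarith

end one

/-! ### part 2: transfer to a quotient -/

section two

variable {R Gb : Type} [Group R] [Fintype R] [Group Gb] [Fintype Gb]

/-- the average over the image of `R` -/
noncomputable def FN_avg (ρ : R →* Gb) (v : Gb → ℂ) (x : Gb) : ℂ :=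
  (Fintype.card R : ℂ)⁻¹ * ∑ k, v (ρ k * x)

omit [Fintype Gb] in
theorem FN_avg_inv (ρ : R →* Gb) (v : Gb → ℂ) (k : R) (x : Gb) :
    FN_avg ρ v (ρ k * x) = FN_avg ρ v x := by
  unfold FN_avg
  congr 1
  rw [← Equiv.sum_comp (Equiv.mulRight k) (fun k => v (ρ k * x))]
  refine Finset.sum_congr rfl fun y _ => ?_
  rw [Equiv.coe_mulRight, map_mul, mul_assoc]

theorem FN_transfer {ι : Type} [Fintype ι] (ρ : R →* Gb) (k : ι → R) (c0 : ℝ)
    (hgap : ∀ φ : R → ℂ, ∑ x, φ x = 0 →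
      c0 * ∑ x, ‖φ x‖ ^ 2 ≤ ∑ i, ∑ x, ‖φ (k i * x) - φ x‖ ^ 2)
    (v : Gb → ℂ) : c0 * ∑ x, ‖v x - FN_avg ρ v x‖ ^ 2 ≤
      ∑ i, ∑ x, ‖v (ρ (k i) * x) - v x‖ ^ 2 := by
  have hR : (Fintype.card R : ℂ) ≠ 0 := by exact_mod_cast Fintype.card_ne_zero
  have hRr : (0 : ℝ) < Fintype.card R := by exact_mod_cast Fintype.card_pos
  have h1 : ∀ x : Gb, c0 * ∑ q, ‖v (ρ q * x) - FN_avg ρ v x‖ ^ 2 ≤
      ∑ i, ∑ q, ‖v (ρ (k i * q) * x) - v (ρ q * x)‖ ^ 2 := by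
    intro x
    have h2 := hgap (fun q => v (ρ q * x) - FN_avg ρ v x) (by
      rw [Finset.sum_sub_distrib]
      simp only [Finset.sum_const, Finset.card_univ, nsmul_eq_mul, FN_avg]
      rw [← mul_assoc, mul_inv_cancel₀ hR, one_mul, sub_self])
    simpa only [sub_sub_sub_cancel_right] using h2
  have h3 : c0 * ∑ x : Gb, ∑ q, ‖v (ρ q * x) - FN_avg ρ v x‖ ^ 2 ≤
      ∑ x : Gb, ∑ i, ∑ q, ‖v (ρ (k i * q) * x) - v (ρ q * x)‖ ^ 2 := by
    rw [Finset.mul_sum]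
    exact Finset.sum_le_sum fun x _ => h1 x
  have e1 : ∑ x : Gb, ∑ q, ‖v (ρ q * x) - FN_avg ρ v x‖ ^ 2 =
      (Fintype.card R : ℝ) * ∑ x, ‖v x - FN_avg ρ v x‖ ^ 2 := by
    rw [Finset.sum_comm]
    have : ∀ q, ∑ x, ‖v (ρ q * x) - FN_avg ρ v x‖ ^ 2 = ∑ x, ‖v x - FN_avg ρ v x‖ ^ 2 := by
      intro q
      rw [← Equiv.sum_comp (Equiv.mulLeft (ρ q)) (fun x => ‖v x - FN_avg ρ v x‖ ^ 2)]
      refine Finset.sum_congr rfl fun x _ => ?_
      rw [Equiv.coe_mulLeft, FN_avg_inv]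
    simp only [this, Finset.sum_const, Finset.card_univ, nsmul_eq_mul]
  have e2 : ∑ x : Gb, ∑ i, ∑ q, ‖v (ρ (k i * q) * x) - v (ρ q * x)‖ ^ 2 =
      (Fintype.card R : ℝ) * ∑ i, ∑ x, ‖v (ρ (k i) * x) - v x‖ ^ 2 := by
    rw [Finset.sum_comm, Finset.mul_sum]
    refine Finset.sum_congr rfl fun i _ => ?_
    rw [Finset.sum_comm]
    have : ∀ q, ∑ x, ‖v (ρ (k i * q) * x) - v (ρ q * x)‖ ^ 2 =
        ∑ x, ‖v (ρ (k i) * x) - v x‖ ^ 2 := by
      intro q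
      rw [← Equiv.sum_comp (Equiv.mulLeft (ρ q)) (fun x => ‖v (ρ (k i) * x) - v x‖ ^ 2)]
      refine Finset.sum_congr rfl fun x _ => ?_
      rw [Equiv.coe_mulLeft, map_mul, mul_assoc]
    simp only [this, Finset.sum_const, Finset.card_univ, nsmul_eq_mul]
  rw [e1, e2] at h3
  have h4 : (Fintype.card R : ℝ) * (c0 * ∑ x, ‖v x - FN_avg ρ v x‖ ^ 2) ≤
      (Fintype.card R : ℝ) * ∑ i, ∑ x, ‖v (ρ (k i) * x) - v x‖ ^ 2 := by
    linarith
  exact le_of_mul_le_mul_left h4 hRr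

theorem FN_three (ρ : R →* Gb) (hn : ρ.range.Normal) (S E : ℝ) (v : Gb → ℂ)
    (hv : ∑ x, v x = 0) (T : Set Gb) (hT : ∀ g : Gb, ∃ t ∈ T, ∃ k : R, g = t * ρ k)
    (hTS : ∀ t ∈ T, ∑ x, ‖v (t * x) - v x‖ ^ 2 ≤ S)
    (hE : ∑ x, ‖v x - FN_avg ρ v x‖ ^ 2 ≤ E * S) :
    ∑ x, ‖v x‖ ^ 2 ≤ (8 * E + 3) * S := by
  set w : Gb → ℂ := FN_avg ρ v with hw
  have hG : (0 : ℝ) < Fintype.card Gb := by exact_mod_cast Fintype.card_pos
  have hws : ∑ x, w x = 0 := by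
    simp only [hw, FN_avg, ← Finset.mul_sum]
    rw [Finset.sum_comm]
    have : ∀ k : R, ∑ x, v (ρ k * x) = 0 := fun k =>
      (Equiv.sum_comp (Equiv.mulLeft (ρ k)) v).trans hv
    simp only [this, Finset.sum_const_zero, mul_zero]
  have h3 : ∀ a b c : ℂ, ‖a + b + c‖ ^ 2 ≤ 3 * (‖a‖ ^ 2 + ‖b‖ ^ 2 + ‖c‖ ^ 2) := by
    intro a b c
    have h1 : ‖a + b + c‖ ≤ ‖a‖ + ‖b‖ + ‖c‖ := norm_add₃_le
    have h0 := norm_nonneg (a + b + c)
    nlinarith [sq_nonneg (‖a‖ - ‖b‖), sq_nonneg (‖a‖ - ‖c‖), sq_nonneg (‖b‖ - ‖c‖),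
      norm_nonneg a, norm_nonneg b, norm_nonneg c]
  have h4 : ∀ g : Gb, ∑ x, ‖w (g * x) - w x‖ ^ 2 ≤ 3 * (2 * (E * S) + S) := by
    intro g
    obtain ⟨t, ht, k, rfl⟩ := hT g
    have e1 : ∀ x, w (t * ρ k * x) = w (t * x) := by
      intro x
      obtain ⟨k', hk'⟩ := hn.conj_mem (ρ k) ⟨k, rfl⟩ t
      have : t * ρ k * x = ρ k' * (t * x) := by
        rw [hk']; group
      rw [this, hw, FN_avg_inv]
    simp only [e1]
    have e2 : ∀ x, ‖w (t * x) - w x‖ ^ 2 ≤ 3 * (‖v (t * x) - w (t * x)‖ ^ 2 +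
        ‖v (t * x) - v x‖ ^ 2 + ‖v x - w x‖ ^ 2) := by
      intro x
      have e3 : w (t * x) - w x = (w (t * x) - v (t * x)) + (v (t * x) - v x) + (v x - w x) := by
        ring
      rw [e3, ← norm_sub_rev (w (t * x)) (v (t * x))]
      exact h3 _ _ _
    refine (Finset.sum_le_sum fun x _ => e2 x).trans ?_
    rw [← Finset.mul_sum, Finset.sum_add_distrib, Finset.sum_add_distrib]
    have e4 : ∑ x, ‖v (t * x) - w (t * x)‖ ^ 2 = ∑ x, ‖v x - w x‖ ^ 2 :=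
      Equiv.sum_comp (Equiv.mulLeft t) (fun x => ‖v x - w x‖ ^ 2)
    rw [e4]
    have := hTS t ht
    linarith
  have h5 := FN_var (fun g : Gb => Equiv.mulLeft g) w
  have h6 : ∀ z, ∑ g : Gb, w (g * z) = 0 := fun z =>
    (Equiv.sum_comp (Equiv.mulRight z) w).trans hws
  simp only [Equiv.coe_mulLeft, h6, zero_mul, Complex.zero_re, Finset.sum_const_zero, mul_zero,
    sub_zero] at h5
  have h7 : ∑ g : Gb, ∑ x, ‖w (g * x) - w x‖ ^ 2 ≤
      (Fintype.card Gb : ℝ) * (3 * (2 * (E * S) + S)) := by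
    refine (Finset.sum_le_sum fun g _ => h4 g).trans ?_
    simp only [Finset.sum_const, Finset.card_univ, nsmul_eq_mul, le_refl]
  rw [h5] at h7
  have h8 : 2 * ∑ x, ‖w x‖ ^ 2 ≤ 3 * (2 * (E * S) + S) := by
    have : (Fintype.card Gb : ℝ) * (2 * ∑ x, ‖w x‖ ^ 2) ≤
        (Fintype.card Gb : ℝ) * (3 * (2 * (E * S) + S)) := by linarith
    exact le_of_mul_le_mul_left this hG
  have h9 : ∀ x, ‖v x‖ ^ 2 ≤ 2 * ‖v x - w x‖ ^ 2 + 2 * ‖w x‖ ^ 2 := by
    intro x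
    have h1 : ‖v x‖ ≤ ‖v x - w x‖ + ‖w x‖ := by
      calc ‖v x‖ = ‖(v x - w x) + w x‖ := by rw [sub_add_cancel]
        _ ≤ _ := norm_add_le _ _
    nlinarith [sq_nonneg (‖v x - w x‖ - ‖w x‖), norm_nonneg (v x), norm_nonneg (v x - w x),
      norm_nonneg (w x)]
  refine (Finset.sum_le_sum fun x _ => h9 x).trans ?_
  rw [Finset.sum_add_distrib, ← Finset.mul_sum, ← Finset.mul_sum]
  linarith

end two

/-! ### the gap on the range -/

theorem FN_sum_sub {Q M : Type} [Group Q] [Fintype Q] [AddCommMonoid M] (R : Subgroup Q)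
    [Fintype R] (F : Q → M) (hF : ∀ x, x ∉ R → F x = 0) : ∑ x : R, F x = ∑ x, F x := by
  calc ∑ x : R, F x = ∑ x ∈ Finset.univ.map ⟨(Subtype.val : R → Q), Subtype.val_injective⟩, F x :=
        (Finset.sum_map Finset.univ ⟨(Subtype.val : R → Q), Subtype.val_injective⟩ F).symm
    _ = ∑ x, F x := Finset.sum_subset (Finset.subset_univ _) fun x _ hx =>
        hF x fun hR => hx (Finset.mem_map.2 ⟨⟨x, hR⟩, Finset.mem_univ _, rfl⟩)

/-- the two step gap on the range of `rQ` -/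
theorem FN_gapR {A B : Type} [Fintype A] [Fintype B] {h : VH A B} {Q : Type} [Group Q]
    [Fintype Q] (r : Rep h Q) (R : Subgroup Q) [Fintype R] (hR : R = r.chiA.ker ⊓ r.chiB.ker)
    (g : ℝ) (hgm : g < Fintype.card A) (hgap : FN_Gap r g)
    (k : A × A → R) (hk : ∀ i, (k i : Q) = r.al i.1 * r.al i.2) (φ : R → ℂ)
    (hφ : ∑ x, φ x = 0) :
    2 * g * (2 * Fintype.card A - g) * ∑ x, ‖φ x‖ ^ 2 ≤
      ∑ i, ∑ x, ‖φ (k i * x) - φ x‖ ^ 2 := by
  classical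
  set Φ : Q → ℂ := fun x => if hx : x ∈ R then φ ⟨x, hx⟩ else 0 with hΦ
  have h0 : ∀ x, x ∉ R → Φ x = 0 := fun x hx => by simp only [hΦ, hx, dif_neg, not_false_iff]
  have h1 : ∀ x : R, Φ x = φ x := fun x => by simp only [hΦ, x.2, dif_pos]
  have hmem : ∀ x, x ∈ R ↔ r.chiA x = 1 ∧ r.chiB x = 1 := by
    intro x; rw [hR]; rfl
  have h2 : ∑ x, Φ x = 0 := by
    rw [← FN_sum_sub R Φ h0]
    simp only [h1, hφ]
  have h3 := FN_gap r g hgm hgap Φ (fun x hx => h0 x fun hR => hx ((hmem x).1 hR).1)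
    (fun x hx => h0 x fun hR => hx ((hmem x).1 hR).2) h2
  have h4 : ∑ x, ‖Φ x‖ ^ 2 = ∑ x, ‖φ x‖ ^ 2 := by
    rw [← FN_sum_sub R (fun x => ‖Φ x‖ ^ 2) (fun x hx => by simp [h0 x hx])]
    simp only [h1]
  have h5 : ∀ i : A × A, ∑ x, ‖Φ (r.al i.1 * r.al i.2 * x) - Φ x‖ ^ 2 =
      ∑ x, ‖φ (k i * x) - φ x‖ ^ 2 := by
    intro i
    rw [← FN_sum_sub R (fun x => ‖Φ (r.al i.1 * r.al i.2 * x) - Φ x‖ ^ 2)]
    · refine Finset.sum_congr rfl fun x _ => ?_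
      rw [← hk i, ← Subgroup.coe_mul, h1, h1]
    · intro x hx
      have : r.al i.1 * r.al i.2 * x ∉ R := by
        rw [← hk i]
        intro h6
        exact hx ((Subgroup.mul_mem_cancel_left R (k i).2).1 h6)
      simp [h0 x hx, h0 _ this]
  rw [h4] at h3
  simp only [h5] at h3
  exact h3

/-! ### part 3: quaternions -/

theorem FN_oo_conj (α β : ℍ[ℤ]) (hβ : β ∈ OO) (hα : Quaternion.normSq α % 4 = 1) :
    α * β * star α ∈ OO := by
  obtain ⟨h0, ⟨b1, h1⟩, ⟨b2, h2⟩, ⟨b3, h3⟩⟩ := hβ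
  refine ⟨?_, ?_, ?_, ?_⟩
  · have e : (α * β * star α).re = Quaternion.normSq α * β.re := by
      rw [Quaternion.normSq_def']
      simp
      ring
    rw [e, Int.mul_emod, hα, h0]
    norm_num
  · refine ⟨(α * mk4 0 b1 b2 b3 * star α).imI, ?_⟩
    simp [h1, h2, h3]
    ring
  · refine ⟨(α * mk4 0 b1 b2 b3 * star α).imJ, ?_⟩
    simp [h1, h2, h3]
    ring
  · refine ⟨(α * mk4 0 b1 b2 b3 * star α).imK, ?_⟩
    simp [h1, h2, h3]
    ring

/-- the eight integral units -/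
def FN_bq (i : Fin 4) (s : Bool) : ℍ[ℤ] :=
  mk4 (if i = 0 then (if s then 1 else -1) else 0) (if i = 1 then (if s then 1 else -1) else 0)
    (if i = 2 then (if s then 1 else -1) else 0) (if i = 3 then (if s then 1 else -1) else 0)

theorem FN_bq_norm (i : Fin 4) (s : Bool) : Quaternion.normSq (FN_bq i s) = 1 := by
  rw [Quaternion.normSq_def']
  fin_cases i <;> cases s <;> simp [FN_bq]

theorem FN_par (a : ℤ) : (2 ∣ a ∧ a ^ 2 % 4 = 0) ∨ (a ^ 2 % 4 = 1 ∧ a % 4 = 1) ∨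
    (a ^ 2 % 4 = 1 ∧ (-a) % 4 = 1) := by
  have h : a % 4 = 0 ∨ a % 4 = 1 ∨ a % 4 = 2 ∨ a % 4 = 3 := by omega
  rw [sq, Int.mul_emod]
  rcases h with h | h | h | h <;> rw [h]
  · left; constructor
    · omega
    · norm_num
  · right; left; norm_num
  · left; constructor
    · omega
    · norm_num
  · right; right; constructor
    · norm_num
    · omega

theorem FN_unitmul (α : ℍ[ℤ]) (hα : Quaternion.normSq α % 4 = 1) :
    ∃ i s, star (FN_bq i s) * α ∈ OO := by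
  rw [Quaternion.normSq_def'] at hα
  have ev : ∀ a : ℤ, 2 ∣ a → 2 ∣ -a := fun a ha => (dvd_neg).2 ha
  rcases FN_par α.re with ⟨d0, e0⟩ | ⟨e0, d0⟩ | ⟨e0, d0⟩ <;>
  rcases FN_par α.imI with ⟨d1, e1⟩ | ⟨e1, d1⟩ | ⟨e1, d1⟩ <;>
  rcases FN_par α.imJ with ⟨d2, e2⟩ | ⟨e2, d2⟩ | ⟨e2, d2⟩ <;>
  rcases FN_par α.imK with ⟨d3, e3⟩ | ⟨e3, d3⟩ | ⟨e3, d3⟩ <;>
  first
  | (exfalso; omega)
  | (refine ⟨0, true, ?_, ?_, ?_, ?_⟩ <;> simp [FN_bq] <;> omega)
  | (refine ⟨0, false, ?_, ?_, ?_, ?_⟩ <;> simp [FN_bq] <;> omega)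
  | (refine ⟨1, true, ?_, ?_, ?_, ?_⟩ <;> simp [FN_bq] <;> omega)
  | (refine ⟨1, false, ?_, ?_, ?_, ?_⟩ <;> simp [FN_bq] <;> omega)
  | (refine ⟨2, true, ?_, ?_, ?_, ?_⟩ <;> simp [FN_bq] <;> omega)
  | (refine ⟨2, false, ?_, ?_, ?_, ?_⟩ <;> simp [FN_bq] <;> omega)
  | (refine ⟨3, true, ?_, ?_, ?_, ?_⟩ <;> simp [FN_bq] <;> omega)
  | (refine ⟨3, false, ?_, ?_, ?_, ?_⟩ <;> simp [FN_bq] <;> omega)

/-! ### part 4: localization -/

theorem FN_injZ (p q : ℕ) (hp : p ≠ 0) (hq : q ≠ 0) :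
    Function.Injective (algebraMap ℤ (RR p q)) := by
  have h0 : ((p * q : ℕ) : ℤ) ≠ 0 := by exact_mod_cast Nat.mul_ne_zero hp hq
  exact IsLocalization.injective (M := Submonoid.powers (((p * q : ℕ) : ℤ))) (RR p q)
    (powers_le_nonZeroDivisors_of_noZeroDivisors h0)

theorem FN_unitN (p q : ℕ) : IsUnit ((p * q : ℕ) : RR p q) := by
  have h := IsLocalization.Away.algebraMap_isUnit (S := RR p q) (((p * q : ℕ) : ℤ))
  rwa [map_natCast] at h

theorem FN_unitp (p q : ℕ) : IsUnit (p : RR p q) := by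
  have h := FN_unitN p q
  rw [Nat.cast_mul] at h
  exact isUnit_of_mul_isUnit_left h

theorem FN_cancel (p q n : ℕ) (hn : IsUnit (n : RR p q)) (x y : ℍ[RR p q])
    (h : (n : ℍ[RR p q]) * x = (n : ℍ[RR p q]) * y) : x = y := by
  have h1 := hn.map (algebraMap (RR p q) ℍ[RR p q])
  rw [map_natCast] at h1
  exact h1.mul_left_cancel h

theorem FN_coord (p q : ℕ) (c : RR p q) : ∃ k : ℕ, ∀ K : ℕ, k ≤ K → ∃ a : ℤ,
    (((p * q) ^ K : ℕ) : RR p q) * c = algebraMap ℤ (RR p q) a := by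
  obtain ⟨k, a, h⟩ := IsLocalization.Away.surj (S := RR p q) (((p * q : ℕ) : ℤ)) c
  refine ⟨k, fun K hK => ⟨(((p * q) ^ (K - k) : ℕ) : ℤ) * a, ?_⟩⟩
  rw [map_mul, ← h]
  simp only [map_natCast]
  obtain ⟨j, rfl⟩ := Nat.exists_eq_add_of_le hK
  rw [Nat.add_sub_cancel_left, pow_add]
  push_cast
  ring

theorem FN_denom (p q : ℕ) (x : ℍ[RR p q]) : ∃ (K : ℕ) (α : ℍ[ℤ]),
    ((p ^ K * q ^ K : ℕ) : ℍ[RR p q]) * x = castR p q α := by
  obtain ⟨k0, h0⟩ := FN_coord p q x.re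
  obtain ⟨k1, h1⟩ := FN_coord p q x.imI
  obtain ⟨k2, h2⟩ := FN_coord p q x.imJ
  obtain ⟨k3, h3⟩ := FN_coord p q x.imK
  obtain ⟨a0, e0⟩ := h0 (k0 + k1 + k2 + k3) (by omega)
  obtain ⟨a1, e1⟩ := h1 (k0 + k1 + k2 + k3) (by omega)
  obtain ⟨a2, e2⟩ := h2 (k0 + k1 + k2 + k3) (by omega)
  obtain ⟨a3, e3⟩ := h3 (k0 + k1 + k2 + k3) (by omega)
  refine ⟨k0 + k1 + k2 + k3, mk4 a0 a1 a2 a3, ?_⟩
  rw [← mul_pow]
  ext
  · rw [Quaternion.re_mul, castR, qmap_re, mk4_re, ← e0, Quaternion.re_natCast,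
      Quaternion.imI_natCast, Quaternion.imJ_natCast, Quaternion.imK_natCast]
    ring
  · rw [Quaternion.imI_mul, castR, qmap_imI, mk4_imI, ← e1, Quaternion.re_natCast,
      Quaternion.imI_natCast, Quaternion.imJ_natCast, Quaternion.imK_natCast]
    ring
  · rw [Quaternion.imJ_mul, castR, qmap_imJ, mk4_imJ, ← e2, Quaternion.re_natCast,
      Quaternion.imI_natCast, Quaternion.imJ_natCast, Quaternion.imK_natCast]
    ring
  · rw [Quaternion.imK_mul, castR, qmap_imK, mk4_imK, ← e3, Quaternion.re_natCast,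
      Quaternion.imI_natCast, Quaternion.imJ_natCast, Quaternion.imK_natCast]
    ring

theorem FN_denomG (p q : ℕ) (hp : p ≠ 0) (hq : q ≠ 0) (hp4 : p % 4 = 1) (hq4 : q % 4 = 1)
    (x : GG p q) : ∃ (K : ℕ) (α : ℍ[ℤ]),
    ((p ^ K * q ^ K : ℕ) : ℍ[RR p q]) * (x : ℍ[RR p q]) = castR p q α ∧
      Quaternion.normSq α % 4 = 1 := by
  obtain ⟨K, α, h⟩ := FN_denom p q (x : ℍ[RR p q])
  refine ⟨K, α, h, ?_⟩
  have h1 : Quaternion.normSq (x : ℍ[RR p q]) = 1 := (mem_unitary_iff _).1 x.2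
  have h2 := congrArg Quaternion.normSq h
  rw [map_mul, h1, mul_one, castR, normSq_qmap, Quaternion.normSq_natCast] at h2
  have h3 : algebraMap ℤ (RR p q) (((p ^ K * q ^ K : ℕ) : ℤ) ^ 2) =
      algebraMap ℤ (RR p q) (Quaternion.normSq α) := by
    rw [← h2, map_pow, map_natCast]
  have h4 := FN_injZ p q hp hq h3
  rw [← h4]
  have h5 : (p ^ K * q ^ K) % 4 = 1 := by
    rw [Nat.mul_mod, Nat.pow_mod, Nat.pow_mod q, hp4, hq4]
    simp
  have h6 : ((p ^ K * q ^ K : ℕ) : ℤ) % 4 = 1 := by exact_mod_cast h5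
  rw [sq, Int.mul_emod, h6]
  norm_num

theorem FN_coe_inv {p q : ℕ} (x : GG p q) :
    ((x⁻¹ : GG p q) : ℍ[RR p q]) = star (x : ℍ[RR p q]) := rfl

/-- `G1` is normal -/
theorem FN_normal (p q : ℕ) (hp : p ≠ 0) (hq : q ≠ 0) (hp4 : p % 4 = 1) (hq4 : q % 4 = 1) :
    (G1 p q).Normal := by
  constructor
  rintro γ ⟨i, j, β, hβ, e⟩ x
  obtain ⟨K, α, h, hα⟩ := FN_denomG p q hp hq hp4 hq4 x
  refine ⟨K + i + K, K + j + K, α * β * star α, FN_oo_conj α β hβ hα, ?_⟩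
  rw [map_mul, map_mul, ← e, ← h]
  have hs : castR p q (star α) = ((p ^ K * q ^ K : ℕ) : ℍ[RR p q]) * star (x : ℍ[RR p q]) := by
    rw [castR, qmap_star, ← castR, ← h, star_mul, star_natCast]
    exact (Nat.cast_commute _ _).eq.symm
  rw [hs]
  have hn : ((p ^ (K + i + K) * q ^ (K + j + K) : ℕ) : ℍ[RR p q]) =
      ((p ^ K * q ^ K : ℕ) : ℍ[RR p q]) * ((p ^ i * q ^ j : ℕ) : ℍ[RR p q]) *
        ((p ^ K * q ^ K : ℕ) : ℍ[RR p q]) := by
    rw [← Nat.cast_mul, ← Nat.cast_mul]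
    congr 1
    ring
  rw [hn, Submonoid.coe_mul, Submonoid.coe_mul, FN_coe_inv]
  have c1 := (Nat.cast_commute (p ^ K * q ^ K) (x : ℍ[RR p q])).eq
  have c2 := (Nat.cast_commute (p ^ i * q ^ j) (x : ℍ[RR p q])).eq
  have c3 := (Nat.cast_commute (p ^ K * q ^ K) (γ : ℍ[RR p q])).eq
  have c4 := (Nat.cast_commute (p ^ K * q ^ K) ((p ^ i * q ^ j : ℕ) : ℍ[RR p q])).eq
  generalize ((p ^ K * q ^ K : ℕ) : ℍ[RR p q]) = P at *
  generalize ((p ^ i * q ^ j : ℕ) : ℍ[RR p q]) = P' at *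
  generalize (x : ℍ[RR p q]) = X at *
  generalize (γ : ℍ[RR p q]) = Y at *
  calc P * P' * P * (X * Y * star X) = P * P' * (P * X) * Y * star X := by
        simp only [mul_assoc]
    _ = P * P' * (X * P) * Y * star X := by rw [c1]
    _ = P * (P' * X) * (P * Y) * star X := by simp only [mul_assoc]
    _ = P * (X * P') * (Y * P) * star X := by rw [c2, c3]
    _ = P * X * (P' * Y) * (P * star X) := by simp only [mul_assoc]

/-- the eight units in `GG` -/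
noncomputable def FN_e (p q : ℕ) (i : Fin 4) (s : Bool) : GG p q :=
  ⟨castR p q (FN_bq i s), by
    rw [mem_unitary_iff, castR, normSq_qmap, FN_bq_norm, map_one]⟩

theorem FN_decomp (p q : ℕ) (hp : p ≠ 0) (hq : q ≠ 0) (hp4 : p % 4 = 1) (hq4 : q % 4 = 1)
    (x : GG p q) : ∃ i s, ∃ γ : G1 p q, x = FN_e p q i s * γ := by
  obtain ⟨K, α, h, hα⟩ := FN_denomG p q hp hq hp4 hq4 x
  obtain ⟨i, s, hOO⟩ := FN_unitmul α hα
  refine ⟨i, s, ⟨(FN_e p q i s)⁻¹ * x, K, K, _, hOO, ?_⟩, ?_⟩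
  · rw [map_mul, ← h, Submonoid.coe_mul, FN_coe_inv, castR, qmap_star]
    have c1 := (Nat.cast_commute (p ^ K * q ^ K)
      (star ((FN_e p q i s : GG p q) : ℍ[RR p q]))).eq
    rw [← mul_assoc, c1, mul_assoc]
    rfl
  · simp

/-! ### part 5: the conclusion -/

theorem FN_nonempty (p : ℕ) (hp : p.Prime) (h4 : p % 4 = 1) : Nonempty (SS p) := by
  haveI := Fact.mk hp
  obtain ⟨a, b, hab⟩ := Nat.Prime.sq_add_sq (p := p) (by omega)
  have hab' : (a : ℤ) ^ 2 + (b : ℤ) ^ 2 = (p : ℤ) := by exact_mod_cast hab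
  have hp' : (p : ℤ) % 4 = 1 := by omega
  have key : ∀ x y : ℤ, x ^ 2 + y ^ 2 = (p : ℤ) → x % 4 = 1 → 2 ∣ y → Nonempty (SS p) := by
    intro x y h1 h2 h3
    refine ⟨⟨mk4 x y 0 0, ⟨h2, h3, ?_, ?_⟩, ?_⟩⟩
    · simp
    · simp
    · rw [Quaternion.normSq_def']
      simp [h1]
  have hn : ∀ x : ℤ, (-x) ^ 2 = x ^ 2 := fun x => by ring
  rcases FN_par a with ⟨d0, e0⟩ | ⟨e0, d0⟩ | ⟨e0, d0⟩ <;>
  rcases FN_par b with ⟨d1, e1⟩ | ⟨e1, d1⟩ | ⟨e1, d1⟩
  · exfalso; omega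
  · exact key b a (by rw [← hab']; ring) d1 d0
  · exact key (-b) a (by rw [← hab']; ring) d1 d0
  · exact key a b hab' d0 d1
  · exfalso; omega
  · exfalso; omega
  · exact key (-a) b (by rw [← hab']; ring) d0 d1
  · exfalso; omega
  · exfalso; omega

/-- the homomorphism from the range of `rQ` to the quotient -/
theorem FN_rho {H Q Gb : Type} [Group H] [Group Q] [Group Gb] (rQ : H →* Q) (f0 : H →* Gb)
    (hk : ∀ γ, rQ γ = 1 → f0 γ = 1) :
    ∃ ρ : rQ.range →* Gb, ∀ γ, ρ (rQ.rangeRestrict γ) = f0 γ := by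
  have hle : rQ.rangeRestrict.ker ≤ f0.ker := by
    intro γ hγ
    rw [MonoidHom.ker_rangeRestrict] at hγ
    exact hk γ hγ
  refine ⟨MonoidHom.liftOfSurjective rQ.rangeRestrict rQ.rangeRestrict_surjective ⟨f0, hle⟩, ?_⟩
  intro γ
  exact MonoidHom.liftOfRightInverse_comp_apply _ _ _ ⟨f0, hle⟩ γ

theorem FN_thm : SQ_FN := by
  classical
  intro p q hp hq hp4 hq4 _
  set ga : SS p × SS p → GG p q := fun i =>
    if H : ∃ γ : G1 p q, (p : ℍ[RR p q]) * ((γ : GG p q) : ℍ[RR p q]) =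
      castR p q (i.1.val * i.2.val) then ((Classical.choose H : G1 p q) : GG p q) else 1 with hga
  have hgaeq : ∀ (i : SS p × SS p) (γ : G1 p q), (p : ℍ[RR p q]) * ((γ : GG p q) : ℍ[RR p q]) =
      castR p q (i.1.val * i.2.val) → ga i = γ := by
    intro i γ hγ
    have H : ∃ γ : G1 p q, (p : ℍ[RR p q]) * ((γ : GG p q) : ℍ[RR p q]) =
      castR p q (i.1.val * i.2.val) := ⟨γ, hγ⟩
    simp only [hga, H, dif_pos]
    apply Subtype.ext
    refine FN_cancel p q p (FN_unitp p q) _ _ ?_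
    rw [hγ]
    exact Classical.choose_spec H
  refine ⟨(Finset.univ.image fun i : Fin 4 × Bool => FN_e p q i.1 i.2) ∪
    Finset.univ.image ga, fun g hg => ?_⟩
  haveI := FN_nonempty p hp hp4
  set m : ℝ := (Fintype.card (SS p) : ℝ) with hm
  have hmpos : 0 < m := by
    rw [hm]; exact_mod_cast Fintype.card_pos
  set g0 : ℝ := min g (m / 2) with hg0
  have hg0pos : 0 < g0 := by positivity
  have hg0g : g0 ≤ g := min_le_left _ _
  have hg0m : g0 ≤ m / 2 := min_le_right _ _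
  set c0 : ℝ := 2 * g0 * (2 * m - g0) with hc0
  have hc0pos : 0 < c0 := by
    have : 0 < 2 * m - g0 := by linarith
    positivity
  refine ⟨1 / (8 * (m ^ 2 / c0) + 3), by positivity, ?_⟩
  intro h _ N _ Q _ _ r rQ hrange hfam hker hgap _ v hv
  set S : ℝ := ∑ s ∈ (Finset.univ.image fun i : Fin 4 × Bool => FN_e p q i.1 i.2) ∪
    Finset.univ.image ga, ∑ x, ‖v ((s : GG p q ⧸ N) * x) - v x‖ ^ 2 with hS
  have hterm : ∀ s ∈ (Finset.univ.image fun i : Fin 4 × Bool => FN_e p q i.1 i.2) ∪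
      Finset.univ.image ga, ∑ x, ‖v ((s : GG p q ⧸ N) * x) - v x‖ ^ 2 ≤ S := by
    intro s hs
    exact Finset.single_le_sum (f := fun s : GG p q =>
      ∑ x, ‖v ((s : GG p q ⧸ N) * x) - v x‖ ^ 2)
      (fun s _ => Finset.sum_nonneg fun _ _ => sq_nonneg _) hs
  have hgap0 : FN_Gap r g0 := by
    intro f h1
    have h3 := hgap f h1
    have h4 : 0 ≤ ∑ z, ‖f z‖ ^ 2 := Finset.sum_nonneg fun _ _ => sq_nonneg _
    nlinarith
  obtain ⟨ρ, hρ⟩ := FN_rho rQ ((QuotientGroup.mk' N).comp (G1 p q).subtype) (by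
    intro γ hγ
    exact (QuotientGroup.eq_one_iff _).2 (hker γ hγ))
  have hρn : ρ.range.Normal := by
    have e : ρ.range = (G1 p q).map (QuotientGroup.mk' N) := by
      ext y
      constructor
      · rintro ⟨⟨_, γ, rfl⟩, rfl⟩
        exact ⟨γ, γ.2, (hρ γ).symm⟩
      · rintro ⟨γ, hγ, rfl⟩
        exact ⟨rQ.rangeRestrict ⟨γ, hγ⟩, hρ ⟨γ, hγ⟩⟩
    rw [e]
    exact (FN_normal p q hp.ne_zero hq.ne_zero hp4 hq4).map _
      (QuotientGroup.mk'_surjective N)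
  choose γ hγ1 hγ2 using hfam
  haveI : Fintype rQ.range := Fintype.ofFinite _
  set k : SS p × SS p → rQ.range := fun i => rQ.rangeRestrict (γ i.1 i.2) with hk
  have hkρ : ∀ i, ρ (k i) = ((ga i : GG p q) : GG p q ⧸ N) := by
    intro i
    rw [hgaeq i (γ i.1 i.2) (hγ1 i.1 i.2)]
    exact hρ _
  have hE1 := FN_transfer ρ k c0 (fun φ hφ => by
    have := FN_gapR r rQ.range hrange g0 (by linarith) hgap0 k (fun i => hγ2 i.1 i.2) φ hφ
    exact this) v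
  have hE2 : ∑ i, ∑ x, ‖v (ρ (k i) * x) - v x‖ ^ 2 ≤ m ^ 2 * S := by
    have h1 : ∀ i, ∑ x, ‖v (ρ (k i) * x) - v x‖ ^ 2 ≤ S := by
      intro i
      rw [hkρ i]
      exact hterm _ (Finset.mem_union_right _ (Finset.mem_image_of_mem _ (Finset.mem_univ i)))
    refine (Finset.sum_le_sum fun i _ => h1 i).trans ?_
    simp only [Finset.sum_const, Finset.card_univ, nsmul_eq_mul, Fintype.card_prod, Nat.cast_mul]
    rw [← hm, sq]
  have hE : ∑ x, ‖v x - FN_avg ρ v x‖ ^ 2 ≤ (m ^ 2 / c0) * S := by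
    have h1 := hE1.trans hE2
    rw [div_mul_eq_mul_div, le_div_iff₀ hc0pos]
    linarith
  have hfin := FN_three ρ hρn S (m ^ 2 / c0) v hv
    {t | ∃ i s, t = ((FN_e p q i s : GG p q) : GG p q ⧸ N)} (by
      intro y
      obtain ⟨x, rfl⟩ := QuotientGroup.mk_surjective y
      obtain ⟨i, s, γ', hx⟩ := FN_decomp p q hp.ne_zero hq.ne_zero hp4 hq4 x
      refine ⟨_, ⟨i, s, rfl⟩, rQ.rangeRestrict γ', ?_⟩
      rw [hρ, hx]
      rfl) (by
      rintro t ⟨i, s, rfl⟩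
      exact hterm _ (Finset.mem_union_left _
        (Finset.mem_image_of_mem (fun i : Fin 4 × Bool => FN_e p q i.1 i.2)
          (Finset.mem_univ (i, s))))) hE
  have hpos : 0 < 8 * (m ^ 2 / c0) + 3 := by positivity
  rw [one_div, inv_mul_le_iff₀ hpos]
  exact hfin

end TauQ
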