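import Mathlib
import Pool.Agent.Work.MP_972ac7_tq.All

/-!
# Final form: property tau for the norm one quaternions over `Z[1/n]`
-/

open scoped Quaternion BigOperators

namespace TauQ

/-- Property tau of a group `G` with respect to all finite-index subgroups: there are a finite set
`K` in `G` and `ε > 0` such that for every normal subgroup `N` of finite index and every unit vector
`v` of zero sum on `G ⧸ N` some `s` in `K` has `‖s v - v‖ ≥ ε`, where `(s v) x = v (s⁻¹ x)`. -/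
def PropertyTau (G : Type) [Group G] : Prop :=
  ∃ (K : Finset G) (ε : ℝ), 0 < ε ∧ ∀ (N : Subgroup G) [N.Normal] [N.FiniteIndex]
    [Fintype (G ⧸ N)] (v : G ⧸ N → ℂ), ∑ x, v x = 0 → ∑ x, ‖v x‖ ^ 2 = 1 →
    ∃ s ∈ K, ε ≤ √(∑ x, ‖v ((s⁻¹ : G) * x) - v x‖ ^ 2)

/-- The group of the Hamilton quaternions of norm one (`x x* = x* x = 1`) over the commutative
ring `R`. -/
abbrev NormOneQuaternions (R : Type) [CommRing R] : Type := unitary ℍ[R]

lemma tq_final_aux (n : ℕ) (h4 : ∀ l : ℕ, l.Prime → l ∣ n → l % 4 = 1)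
    (h2 : ∃ p q : ℕ, p.Prime ∧ q.Prime ∧ p ≠ q ∧ p ∣ n ∧ q ∣ n) (R : Type) [CommRing R]
    (hR : IsLocalization.Away (n : ℤ) R) : PropertyTau (NormOneQuaternions R) := by
  obtain ⟨K, c, hc, h⟩ := tq_GN n h4 h2 R
  refine ⟨K, √(c / (K.card + 1)), Real.sqrt_pos.2 (by positivity), ?_⟩
  intro N i1 i2 i3 v h1 h2
  have h3 := h N v h1
  rw [h2, mul_one] at h3
  by_contra hcon
  push Not at hcon
  have h4 : ∑ s ∈ K, ∑ x, ‖v ((s : unitary ℍ[R] ⧸ N) * x) - v x‖ ^ 2 ≤
      ∑ s ∈ K, c / (K.card + 1) := by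
    refine Finset.sum_le_sum fun s hs => ?_
    have h5 := (hcon s hs).le
    have h6 : ∑ x, ‖v (((s⁻¹ : unitary ℍ[R]) : unitary ℍ[R] ⧸ N) * x) - v x‖ ^ 2 =
        ∑ x, ‖v ((s : unitary ℍ[R] ⧸ N) * x) - v x‖ ^ 2 := by
      rw [← Equiv.sum_comp (Equiv.mulLeft (s : unitary ℍ[R] ⧸ N))]
      refine Finset.sum_congr rfl fun x _ => ?_
      rw [Equiv.coe_mulLeft, QuotientGroup.mk_inv, inv_mul_cancel_left, norm_sub_rev]
    rw [h6] at h5
    exact (Real.sqrt_le_sqrt_iff (by positivity)).1 h5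
  rw [Finset.sum_const, nsmul_eq_mul] at h4
  have h7 : (K.card : ℝ) * (c / (K.card + 1)) < c := by
    rw [mul_div_assoc', div_lt_iff₀ (by positivity)]
    nlinarith
  linarith

theorem tq_final (n : ℕ) (h4 : ∀ l : ℕ, l.Prime → l ∣ n → l % 4 = 1)
    (h2 : ∃ p q : ℕ, p.Prime ∧ q.Prime ∧ p ≠ q ∧ p ∣ n ∧ q ∣ n) :
    PropertyTau (NormOneQuaternions (Localization.Away (n : ℤ))) := by
  refine tq_final_aux n h4 h2 (Localization.Away (n : ℤ)) ?_
  have h : IsLocalization.Away (n : ℤ) (Localization.Away (n : ℤ)) := inferInstance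
  have e : (Ring.toIntAlgebra (Localization.Away (n : ℤ))) =
      (inferInstance : Algebra ℤ (Localization.Away (n : ℤ))) := Subsingleton.elim _ _
  change @IsLocalization.Away ℤ _ _ (Localization.Away (n : ℤ)) _
    (Ring.toIntAlgebra (Localization.Away (n : ℤ)))
  rw [e]
  exact h

end TauQ
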