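import Mathlib
import Pool.Agent.Work.MP_972ac7_tq.Interface

/-!
# Block TA: property tau of `GG p q` (assembly)
-/

open scoped Quaternion BigOperators Matrix ComplexOrder

namespace TauQ

lemma TA_swap {p q : ℕ} (h : VH (SS p) (SS q)) (hh : IsQVH h) : IsQVH h.swap := by
  obtain ⟨h1, h2, h3⟩ := hh
  refine ⟨h2, h1, ?_⟩
  intro b a
  have e : h.vh ((h.vh.symm (b, a)).1, (h.vh.symm (b, a)).2) = (b, a) := by
    rw [Prod.mk.eta, Equiv.apply_symm_apply]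
  have := h3 (h.vh.symm (b, a)).1 (h.vh.symm (b, a)).2
  rw [e] at this
  exact this.symm

theorem TA_thm (hQG : SQ_QG) (hLK : SQ_LK) (hFN : SQ_FN) (hvh : Stmt_vh) : SQ_TA := by
  intro p q hp hq hp4 hq4 hpq
  obtain ⟨h, hh⟩ := hvh p q hp hq hp4 hq4 hpq
  obtain ⟨δ, hδ, hgap⟩ := hQG q p hq hp hq4 hp4 hpq.symm
  obtain ⟨QQ, hQQ⟩ := hFN p q hp hq hp4 hq4 hpq
  obtain ⟨c, hc, hfin⟩ := hQQ δ hδ
  refine ⟨QQ, c / (QQ.card + 1), by positivity, ?_⟩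
  intro N hN hNf _ v hv hv1
  obtain ⟨Q, _, _, r, rQ, h1, h2, h3⟩ := hLK p q hp hq hp4 hq4 hpq h hh N hN hNf
  have key := hfin h hh N Q r rQ h1 h2 h3 (by
    intro f hf
    exact hgap h.swap (TA_swap h hh) Q r.swap f hf) v hv
  rw [hv1, mul_one] at key
  by_contra hcon
  push Not at hcon
  have h4 : ∑ s ∈ QQ, ∑ x, ‖v ((s : GG p q ⧸ N) * x) - v x‖ ^ 2 ≤
      ∑ s ∈ QQ, c / (QQ.card + 1) := by
    refine Finset.sum_le_sum fun s hs => ?_
    have h5 := (hcon s hs).le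
    have h6 : ∑ x, ‖v (((s⁻¹ : GG p q) : GG p q ⧸ N) * x) - v x‖ ^ 2 =
        ∑ x, ‖v ((s : GG p q ⧸ N) * x) - v x‖ ^ 2 := by
      rw [← Equiv.sum_comp (Equiv.mulLeft (s : GG p q ⧸ N))]
      refine Finset.sum_congr rfl fun x _ => ?_
      rw [Equiv.coe_mulLeft, QuotientGroup.mk_inv, inv_mul_cancel_left, norm_sub_rev]
    rw [h6] at h5
    exact h5
  rw [Finset.sum_const, nsmul_eq_mul] at h4
  have h7 : (QQ.card : ℝ) * (c / (QQ.card + 1)) < c := by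
    rw [mul_div_assoc', div_lt_iff₀ (by positivity)]
    nlinarith
  linarith

end TauQ
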